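import Pool.Agent.H898SR.Path

/-! The path of invertible matrices from `diag(x' + λ W, λ)` to a matrix over the fixed points. -/

set_option autoImplicit false
set_option linter.unusedSectionVars false

noncomputable section

namespace Pool.Agent.H898SR

open Filter Topology Pool.Agent.H923R2.FZ Matrix

variable {A : Type} [CStarAlgebra A]

theorem unit_poly (y b : A) (hy : IsSelfAdjoint y) (hb : Ps b) (l : ℝ) (hl : 0 < l) :
    IsUnit (l • (1 - y + y * y) + b) := by
  have e : l • (1 - y + y * y) = cfc (fun t : ℝ => l * (1 - t + t * t)) y := by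
    rw [cfc_const_mul l (fun t : ℝ => 1 - t + t * t) y (by fun_prop),
      cfc_add (a := y) (fun t : ℝ => 1 - t) (fun t : ℝ => t * t) (by fun_prop) (by fun_prop),
      cfc_sub (fun _ : ℝ => (1 : ℝ)) (fun t : ℝ => t) y (by fun_prop) (by fun_prop),
      cfc_mul (fun t : ℝ => t) (fun t : ℝ => t) y (by fun_prop) (by fun_prop),
      cfc_const_one ℝ y, cfc_id' ℝ y]
  rw [e]
  refine unit_ge _ _ (l * (3 / 4)) (by positivity) (cfc_sa _ _) ?_ hb
  intro t ht
  rw [cfc_map_spectrum (fun t : ℝ => l * (1 - t + t * t)) y hy (by fun_prop)] at ht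
  obtain ⟨r, _, rfl⟩ := ht
  exact mul_le_mul_of_nonneg_left (by nlinarith [sq_nonneg (r - 1 / 2)]) hl.le

theorem ps_smul {x : A} (h : Ps x) (c : ℝ) (hc : 0 ≤ c) : Ps (c • x) := by
  obtain ⟨y, rfl⟩ := h
  refine ⟨Real.sqrt c • y, ?_⟩
  rw [star_smul, smul_mul_smul_comm, star_trivial (Real.sqrt c), Real.mul_self_sqrt hc]

variable {n : Type} [Fintype n] [DecidableEq n]

/-- a `2 × 2` block at `o, o1` and `l` elsewhere -/
def B2 (o o1 : n) (a b c d l : A) : Matrix n n A :=
  single o o a + single o o1 b + single o1 o c + single o1 o1 d +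
    (Matrix.diagonal (fun _ => l) - single o o l - single o1 o1 l)

theorem diag_single' (l x : A) (i j : n) :
    Matrix.diagonal (fun _ => l) * single i j x = single i j (l * x) := by
  ext a b
  rw [diagonal_mul, single_apply, single_apply]
  split_ifs <;> simp

theorem single_diag' (l x : A) (i j : n) :
    single i j x * Matrix.diagonal (fun _ => l) = single i j (x * l) := by
  ext a b
  rw [mul_diagonal, single_apply, single_apply]
  split_ifs <;> simp

theorem B2_mul (o o1 : n) (h : o ≠ o1) (a b c d l a' b' c' d' l' : A) :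
    B2 o o1 a b c d l * B2 o o1 a' b' c' d' l' =
      B2 o o1 (a * a' + b * c') (a * b' + b * d') (c * a' + d * c') (c * b' + d * d') (l * l') := by
  unfold B2
  simp only [mul_add, add_mul, mul_sub, sub_mul, single_mul_single_same, diag_single', single_diag',
    single_mul_single_of_ne _ _ _ _ h, single_mul_single_of_ne _ _ _ _ h.symm,
    diagonal_mul_diagonal, single_add]
  abel

theorem B2_one (o o1 : n) : B2 o o1 (1 : A) 0 0 1 1 = 1 := by
  unfold B2
  rw [Matrix.diagonal_one, single_zero, single_zero]
  abel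

theorem B2_apply (o o1 : n) (h : o ≠ o1) (a b c d l : A) (i j : n) :
    B2 o o1 a b c d l i j = if i = o then (if j = o then a else if j = o1 then b else 0) else
      if i = o1 then (if j = o then c else if j = o1 then d else 0) else
        if i = j then l else 0 := by
  unfold B2
  simp only [Matrix.add_apply, Matrix.sub_apply, single_apply, diagonal_apply]
  by_cases h1 : i = o
  · subst h1
    by_cases h2 : j = i
    · subst h2; simp [h, h.symm]
    · by_cases h3 : j = o1
      · subst h3; simp [h, h.symm]
      · simp [h2, h3, h.symm, Ne.symm h2, Ne.symm h3, eq_comm]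
  · by_cases h2 : i = o1
    · subst h2
      by_cases h3 : j = o
      · subst h3; simp [h, h.symm]
      · by_cases h4 : j = i
        · subst h4; simp [h, h.symm]
        · simp [h1, h3, h4, h, Ne.symm h3, Ne.symm h4, eq_comm]
    · simp [h1, h2, Ne.symm h1, Ne.symm h2]

theorem cinv (o o1 : n) (h : o ≠ o1) (a β d : A) (h1 : Commute a β) (h2 : Commute a d)
    (h3 : Commute β d) (hD : IsUnit (a * d + β * β)) (l : A) (hl : IsUnit l) :
    IsUnit (B2 o o1 a β (-β) d l) := by
  obtain ⟨u, hu⟩ := hD
  obtain ⟨v, hv⟩ := hl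
  obtain ⟨D, hD⟩ : ∃ D, D = a * d + β * β := ⟨_, rfl⟩
  have ca : Commute a D := by
    rw [hD]; exact ((Commute.refl a).mul_right h2).add_right (h1.mul_right h1)
  have cb : Commute β D := by
    rw [hD]; exact (h1.symm.mul_right h3).add_right ((Commute.refl β).mul_right (Commute.refl β))
  have cd : Commute d D := by
    rw [hD]; exact (h2.symm.mul_right (Commute.refl d)).add_right (h3.symm.mul_right h3.symm)
  rw [← hD] at hu
  obtain ⟨i, hi⟩ : ∃ i : A, i = (↑u⁻¹ : A) := ⟨_, rfl⟩
  have i1 : D * i = 1 := by rw [hi, ← hu, Units.mul_inv]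
  have i2 : i * D = 1 := by rw [hi, ← hu, Units.inv_mul]
  have ci : ∀ x : A, Commute x D → x * i = i * x := by
    intro x hx
    calc x * i = (i * D) * x * i := by rw [i2, one_mul]
      _ = i * (D * x) * i := by noncomm_ring
      _ = i * (x * D) * i := by rw [hx.eq]
      _ = i * x * (D * i) := by noncomm_ring
      _ = i * x := by rw [i1, mul_one]
  have cai := ci a ca
  have cbi := ci β cb
  have cdi := ci d cd
  refine ⟨⟨B2 o o1 a β (-β) d l, B2 o o1 (d * i) (-(β * i)) (β * i) (a * i) (↑v⁻¹ : A), ?_, ?_⟩,
    rfl⟩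
  · rw [B2_mul o o1 h, ← B2_one o o1]
    congr 1
    · calc a * (d * i) + β * (β * i) = (a * d + β * β) * i := by noncomm_ring
        _ = 1 := by rw [← hD, i1]
    · calc a * -(β * i) + β * (a * i) = (β * a - a * β) * i := by noncomm_ring
        _ = 0 := by rw [h1.eq, sub_self, zero_mul]
    · calc -β * (d * i) + d * (β * i) = (d * β - β * d) * i := by noncomm_ring
        _ = 0 := by rw [h3.eq, sub_self, zero_mul]
    · calc -β * -(β * i) + d * (a * i) = (β * β + d * a) * i := by noncomm_ring
        _ = (a * d + β * β) * i := by rw [h2.eq]; noncomm_ring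
        _ = 1 := by rw [← hD, i1]
    · rw [← hv, Units.mul_inv]
  · rw [B2_mul o o1 h, ← B2_one o o1]
    congr 1
    · calc d * i * a + -(β * i) * -β = i * (a * d + β * β) := by
            rw [cdi, cbi]
            calc _ = i * (d * a) + i * (β * β) := by noncomm_ring
              _ = _ := by rw [← h2.eq]; noncomm_ring
        _ = 1 := by rw [← hD, i2]
    · calc d * i * β + -(β * i) * d = i * (d * β - β * d) := by rw [cdi, cbi]; noncomm_ring
        _ = 0 := by rw [h3.eq, sub_self, mul_zero]
    · calc β * i * a + a * i * -β = i * (β * a - a * β) := by rw [cai, cbi]; noncomm_ring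
        _ = 0 := by rw [h1.eq, sub_self, mul_zero]
    · calc β * i * β + a * i * d = i * (a * d + β * β) := by rw [cai, cbi]; noncomm_ring
        _ = 1 := by rw [← hD, i2]
    · rw [← hv, Units.inv_mul]

theorem cont_single {f : ℝ → A} (hf : Continuous f) (i j : n) :
    Continuous fun s => (single i j (f s) : Matrix n n A) := by
  apply continuous_matrix
  intro a b
  simp only [single_apply]
  split_ifs
  · exact hf
  · exact continuous_const

theorem B2_cont (o o1 : n) {a b c d : ℝ → A} (l : A) (ha : Continuous a) (hb : Continuous b)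
    (hc : Continuous c) (hd : Continuous d) :
    Continuous fun s => B2 o o1 (a s) (b s) (c s) (d s) l := by
  unfold B2
  exact ((((cont_single ha _ _).add (cont_single hb _ _)).add (cont_single hc _ _)).add
    (cont_single hd _ _)).add continuous_const

/-- block diagonal matrix -/
def bd {J : Type} (p : A) (g : Matrix J J A) : Matrix (Option J) (Option J) A := fun a b =>
  match a, b with
  | none, none => p
  | some a, some b => g a b
  | none, some _ => 0
  | some _, none => 0

theorem bd_mul {J : Type} [Fintype J] [DecidableEq J] (p p' : A) (g g' : Matrix J J A) :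
    bd p g * bd p' g' = bd (p * p') (g * g') := by
  ext a b
  rw [Matrix.mul_apply, Fintype.sum_option]
  rcases a with _ | a <;> rcases b with _ | b <;> simp [bd, Matrix.mul_apply]

theorem bd_one {J : Type} [Fintype J] [DecidableEq J] : bd (1 : A) (1 : Matrix J J A) = 1 := by
  ext a b
  rcases a with _ | a <;> rcases b with _ | b <;> simp [bd, Matrix.one_apply]

/-- the linear conditions and the norm bound -/
def Good {J : Type} (x c ζ : A) (l M : ℝ) (H : Matrix (Option J) (Option J) A) : Prop :=
  H none none * ζ = l • (c * ζ) ∧ (∀ a, H (some a) none * ζ = 0) ∧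
  ζ * star c * H none none = l • ζ ∧ (∀ b, ζ * star c * H none (some b) = 0) ∧
  ∀ a b, ‖H a b - (if a = none ∧ b = none then x else 0)‖ ≤ l * M

theorem path (m : ℕ) (W W' p0 c κ ζ : A) (hW1 : W * W' = 1) (hW2 : W' * W = 1) (hp0 : Ps p0)
    (h2 : p0 * κ = 0) (hκ : IsSelfAdjoint κ)
    (h3 : W * κ = c * κ) (h4 : κ * W' = κ * star c) (h5 : star c * c * κ = κ)
    (hz1 : κ * ζ = ζ) (hz2 : ζ * κ = ζ)
    (hC : Conn (Dg none W : Matrix (Option (Fin m)) (Option (Fin m)) A)) :
    ∃ M : ℝ, 0 ≤ M ∧ ∀ l : ℝ, 0 < l → ∀ η : ℝ, 0 < η →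
      Relation.ReflTransGen (Rel (Good (W * p0) c ζ l M) η)
        (bd (W * p0 + l • W) (l • (1 : Matrix (Option (Fin m)) (Option (Fin m)) A)))
        (B2 none (some none) (W * p0 + l • c) (l • (1 - c * κ * star c)) (-(l • (1 - κ)))
          (l • (κ * star c)) (l • 1)) ∧
      IsUnit (B2 none (some none) (W * p0 + l • c) (l • (1 - c * κ * star c)) (-(l • (1 - κ)))
          (l • (κ * star c)) (l • 1) :
          Matrix (Option (Option (Fin m))) (Option (Option (Fin m))) A) ∧
      Good (W * p0) c ζ l M (B2 none (some none) (W * p0 + l • c) (l • (1 - c * κ * star c))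
        (-(l • (1 - κ))) (l • (κ * star c)) (l • 1) :
          Matrix (Option (Option (Fin m))) (Option (Option (Fin m))) A) := by
  have hκp : κ * p0 = 0 := by
    have := congrArg star h2
    rwa [star_mul, hκ.star_eq, hp0.sa.star_eq, star_zero] at this
  have hκc : κ * star c * c = κ := by
    have := congrArg star h5
    rwa [star_mul, star_mul, star_star, hκ.star_eq, ← mul_assoc] at this
  have hζp : p0 * ζ = 0 := by rw [← hz1, ← mul_assoc, h2, zero_mul]
  have hζp' : ζ * p0 = 0 := by rw [← hz2, mul_assoc, hκp, mul_zero]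
  have hWζ : W * ζ = c * ζ := by rw [← hz1, ← mul_assoc, h3, mul_assoc]
  have hζW : ζ * W' = ζ * star c := by rw [← hz2, mul_assoc, h4, mul_assoc]
  have hζcW : ζ * star c * W = ζ := by rw [← hζW, mul_assoc, hW2, mul_one]
  have hζcc : ζ * star c * c = ζ := by
    rw [← hz2]
    calc ζ * κ * star c * c = ζ * (κ * star c * c) := by noncomm_ring
      _ = _ := by rw [hκc]
  have hζcx : ζ * star c * (W * p0) = 0 := by rw [← mul_assoc, hζcW, hζp']
  obtain ⟨e, he⟩ : ∃ e, e = 1 - κ := ⟨_, rfl⟩
  have heζ : e * ζ = 0 := by rw [he, sub_mul, one_mul, hz1, sub_self]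
  have hζe : ζ * e = 0 := by rw [he, mul_sub, mul_one, hz2, sub_self]
  have hpe : p0 * e = p0 := by rw [he, mul_sub, mul_one, h2, sub_zero]
  have hep : e * p0 = p0 := by rw [he, sub_mul, one_mul, hκp, sub_zero]
  have hesa : IsSelfAdjoint e := by rw [he]; exact (IsSelfAdjoint.one A).sub hκ
  have hWe : W * e * W' = 1 - c * κ * star c := by
    rw [he]
    calc W * (1 - κ) * W' = W * W' - (W * κ) * W' := by noncomm_ring
      _ = 1 - c * (κ * W') := by rw [hW1, h3, mul_assoc]
      _ = _ := by rw [h4, mul_assoc]
  have hζWe : ζ * star c * (W * e * W') = 0 := by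
    calc _ = (ζ * star c * W) * e * W' := by noncomm_ring
      _ = 0 := by rw [hζcW, hζe, zero_mul]
  obtain ⟨g, g', hg1, hg2, hg3, hg4, hg5, hg6⟩ := hC.inv (v := Dg none W') (by
    rw [Dg_mul, hW1, Dg_one])
  obtain ⟨M1, hM1⟩ : ∃ M1 : ℝ, ∀ t ∈ Set.Icc (0 : ℝ) 1, ∀ a b, ‖g t a b‖ ≤ M1 := by
    have h6 : ∀ ab : Option (Fin m) × Option (Fin m), ∃ M1 : ℝ, ∀ t ∈ Set.Icc (0 : ℝ) 1,
        ‖g t ab.1 ab.2‖ ≤ M1 := by
      intro ab
      have h7 : Continuous fun t => ‖g t ab.1 ab.2‖ := (hg1.matrix_elem ab.1 ab.2).norm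
      obtain ⟨C, hC⟩ := isCompact_Icc.bddAbove_image (f := fun t => ‖g t ab.1 ab.2‖)
        (K := Set.Icc (0 : ℝ) 1) h7.continuousOn
      exact ⟨C, fun t ht => hC ⟨t, ht, rfl⟩⟩
    choose Mf hMf using h6
    refine ⟨∑ ab, |Mf ab|, fun t ht a b => (hMf (a, b) t ht).trans ((le_abs_self _).trans ?_)⟩
    exact Finset.single_le_sum (f := fun ab => |Mf ab|) (fun _ _ => abs_nonneg _)
      (Finset.mem_univ (a, b))
  have hM10 : 0 ≤ M1 := (norm_nonneg _).trans (hM1 0 (by simp) none none)
  obtain ⟨M, hM⟩ : ∃ M, M = M1 + ‖W‖ + ‖c‖ + ‖W * e * W'‖ + ‖e‖ + ‖W'‖ + ‖e * W'‖ + ‖κ * W'‖ +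
    ‖(1 : A)‖ := ⟨_, rfl⟩
  have hM0 : 0 ≤ M := by rw [hM]; positivity
  refine ⟨M, hM0, fun l hl η hη => ?_⟩
  have hnone : (none : Option (Option (Fin m))) ≠ some none := by simp
  have hunit1 : IsUnit (p0 + l • (1 : A)) := by
    have := unit_poly (0 : A) p0 (IsSelfAdjoint.zero A) hp0 l hl
    simp only [sub_zero, mul_zero, add_zero] at this
    rwa [add_comm] at this
  have hl1 : IsUnit (l • (1 : A)) := by
    refine ⟨⟨l • 1, l⁻¹ • 1, ?_, ?_⟩, rfl⟩
    · rw [smul_mul_smul_comm, mul_one, mul_inv_cancel₀ hl.ne', one_smul]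
    · rw [smul_mul_smul_comm, mul_one, inv_mul_cancel₀ hl.ne', one_smul]
  have hWU : W * p0 + l • W = W * (p0 + l • 1) := by
    rw [mul_add, mul_smul_comm, mul_one]
  -- stage 1
  have s1 : Relation.ReflTransGen (Rel (Good (W * p0) c ζ l M) η)
      (bd (W * p0 + l • W) (l • (1 : Matrix (Option (Fin m)) (Option (Fin m)) A)))
      (B2 none (some none) (W * p0 + l • W) 0 0 (l • W') (l • 1)) := by
    have h7 := rtg (Good (W * p0) c ζ l M) η hη (fun t => bd (W * p0 + l • W) (l • g t)) ?_ ?_ ?_
    · have e0 : bd (W * p0 + l • W) (l • g 1) =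
          B2 none (some none) (W * p0 + l • W) 0 0 (l • W') (l • 1) := by
        rw [hg6]
        ext a b
        rw [B2_apply _ _ hnone]
        rcases a with _ | a <;> rcases b with _ | b
        · simp [bd]
        · simp [bd]
        · simp [bd]
        · rcases a with _ | a <;> rcases b with _ | b <;>
            simp [bd, Dg, Matrix.one_apply, Matrix.smul_apply]
      simp only [hg5, e0] at h7
      exact h7
    · apply continuous_matrix
      intro a b
      rcases a with _ | a <;> rcases b with _ | b
      · exact continuous_const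
      · exact continuous_const
      · exact continuous_const
      · show Continuous fun t => l • g t a b
        exact (hg1.matrix_elem a b).const_smul l
    · intro t _
      obtain ⟨u, hu⟩ := hunit1
      refine ⟨⟨bd (W * p0 + l • W) (l • g t), bd ((↑u⁻¹ : A) * W') (l⁻¹ • g' t), ?_, ?_⟩, rfl⟩
      · rw [bd_mul, hWU, ← hu, smul_mul_smul_comm, hg3, mul_inv_cancel₀ hl.ne', one_smul]
        have : W * (u : A) * ((↑u⁻¹ : A) * W') = 1 := by
          calc _ = W * ((u : A) * (↑u⁻¹ : A)) * W' := by noncomm_ring
            _ = 1 := by rw [Units.mul_inv, mul_one, hW1]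
        rw [this, bd_one]
      · rw [bd_mul, hWU, ← hu, smul_mul_smul_comm, hg4, inv_mul_cancel₀ hl.ne', one_smul]
        have : (↑u⁻¹ : A) * W' * (W * (u : A)) = 1 := by
          calc _ = (↑u⁻¹ : A) * (W' * W) * (u : A) := by noncomm_ring
            _ = 1 := by rw [hW2, mul_one, Units.inv_mul]
        rw [this, bd_one]
    · intro t ht
      refine ⟨?_, fun a => ?_, ?_, fun b => ?_, fun a b => ?_⟩
      · show (W * p0 + l • W) * ζ = l • (c * ζ)
        rw [add_mul, mul_assoc, hζp, mul_zero, zero_add, smul_mul_assoc, hWζ]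
      · show (0 : A) * ζ = 0
        rw [zero_mul]
      · show ζ * star c * (W * p0 + l • W) = l • ζ
        rw [mul_add, hζcx, zero_add, mul_smul_comm, hζcW]
      · show ζ * star c * 0 = 0
        rw [mul_zero]
      · rcases a with _ | a <;> rcases b with _ | b
        · simp only [and_self, if_true]
          show ‖W * p0 + l • W - W * p0‖ ≤ l * M
          rw [add_sub_cancel_left, norm_smul, Real.norm_of_nonneg hl.le, hM]
          apply mul_le_mul_of_nonneg_left _ hl.le
          have := norm_nonneg c; have := norm_nonneg (W * e * W'); have := norm_nonneg e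
          have := norm_nonneg W'; have := norm_nonneg (e * W'); have := norm_nonneg (κ * W')
          have := norm_nonneg (1 : A)
          linarith
        · simp only [reduceCtorEq, and_false, if_false]
          show ‖(0 : A) - 0‖ ≤ l * M
          simp only [sub_zero, norm_zero]; positivity
        · simp only [reduceCtorEq, false_and, if_false]
          show ‖(0 : A) - 0‖ ≤ l * M
          simp only [sub_zero, norm_zero]; positivity
        · simp only [reduceCtorEq, false_and, if_false]
          show ‖l • g t a b - 0‖ ≤ l * M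
          rw [sub_zero, norm_smul, Real.norm_of_nonneg hl.le, hM]
          apply mul_le_mul_of_nonneg_left _ hl.le
          have := hM1 t ht a b
          have := norm_nonneg c; have := norm_nonneg (W * e * W'); have := norm_nonneg e
          have := norm_nonneg W'; have := norm_nonneg (e * W'); have := norm_nonneg (κ * W')
          have := norm_nonneg (1 : A); have := norm_nonneg W
          linarith
  -- bound for the 2 × 2 stages
  have bnd : ∀ (a b c' d : A), ‖a‖ ≤ M → ‖b‖ ≤ M → ‖c'‖ ≤ M → ‖d‖ ≤ M → ∀ i j,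
      ‖B2 none (some none) (W * p0 + l • a) (l • b) (-(l • c')) (l • d) (l • 1) i j -
        (if i = none ∧ j = (none : Option (Option (Fin m))) then W * p0 else 0)‖ ≤ l * M := by
    intro a b c' d ha hb hc' hd i j
    have hn : ∀ x : A, ‖x‖ ≤ M → ‖l • x‖ ≤ l * M := by
      intro x hx
      rw [norm_smul, Real.norm_of_nonneg hl.le]
      exact mul_le_mul_of_nonneg_left hx hl.le
    have h1M : ‖(1 : A)‖ ≤ M := by
      rw [hM]
      have := norm_nonneg c; have := norm_nonneg (W * e * W'); have := norm_nonneg e
      have := norm_nonneg W'; have := norm_nonneg (e * W'); have := norm_nonneg (κ * W')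
      have := norm_nonneg W
      linarith
    have hz : ‖(0 : A)‖ ≤ l * M := by rw [norm_zero]; positivity
    rw [B2_apply _ _ hnone]
    rcases i with _ | i
    · rcases j with _ | j
      · simp only [if_true, and_self, add_sub_cancel_left]
        exact hn a ha
      · simp only [if_true, reduceCtorEq, and_false, if_false, sub_zero]
        split_ifs
        · exact hn b hb
        · exact hz
    · simp only [reduceCtorEq, false_and, if_false, sub_zero]
      split_ifs
      · rw [norm_neg]; exact hn c' hc'
      · exact hn d hd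
      · exact hz
      · exact hn 1 h1M
      · exact hz
  have gd : ∀ (a b c' d : A), ‖a‖ ≤ M → ‖b‖ ≤ M → ‖c'‖ ≤ M → ‖d‖ ≤ M →
      a * ζ = c * ζ → ζ * star c * a = ζ → c' * ζ = 0 → ζ * star c * b = 0 →
      Good (W * p0) c ζ l M (B2 none (some none) (W * p0 + l • a) (l • b) (-(l • c')) (l • d)
        (l • 1) : Matrix (Option (Option (Fin m))) (Option (Option (Fin m))) A) := by
    intro a b c' d ha hb hc' hd q1 q2 q3 q4
    refine ⟨?_, fun i => ?_, ?_, fun i => ?_, bnd a b c' d ha hb hc' hd⟩
    · rw [B2_apply _ _ hnone]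
      simp only [if_true]
      rw [add_mul, mul_assoc, hζp, mul_zero, zero_add, smul_mul_assoc, q1]
    · rw [B2_apply _ _ hnone]
      simp only [reduceCtorEq, if_false, if_true]
      split_ifs
      · rw [neg_mul, smul_mul_assoc, q3, smul_zero, neg_zero]
      · rw [zero_mul]
    · rw [B2_apply _ _ hnone]
      simp only [if_true]
      rw [mul_add, hζcx, zero_add, mul_smul_comm, q2]
    · rw [B2_apply _ _ hnone]
      simp only [reduceCtorEq, if_false, if_true]
      split_ifs
      · rw [mul_smul_comm, q4, smul_zero]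
      · rw [mul_zero]
  have hUW : ∀ (x y z t l' : A), B2 none (some none) (W * x) (W * y * W') z (t * W') l' =
      (B2 none (some none) W 0 0 1 1 : Matrix (Option (Option (Fin m))) _ A) *
        B2 none (some none) x y z t l' * B2 none (some none) 1 0 0 W' 1 := by
    intro x y z t l'
    rw [B2_mul _ _ hnone, B2_mul _ _ hnone]
    congr 1 <;> simp
  have hUW1 : IsUnit (B2 none (some none) W 0 0 1 1 :
      Matrix (Option (Option (Fin m))) (Option (Option (Fin m))) A) := by
    refine ⟨⟨B2 none (some none) W 0 0 1 1, B2 none (some none) W' 0 0 1 1, ?_, ?_⟩, rfl⟩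
    · rw [B2_mul _ _ hnone, ← B2_one none (some none)]
      congr 1 <;> simp [hW1]
    · rw [B2_mul _ _ hnone, ← B2_one none (some none)]
      congr 1 <;> simp [hW2]
  have hUW2 : IsUnit (B2 none (some none) 1 0 0 W' 1 :
      Matrix (Option (Option (Fin m))) (Option (Option (Fin m))) A) := by
    refine ⟨⟨B2 none (some none) 1 0 0 W' 1, B2 none (some none) 1 0 0 W 1, ?_, ?_⟩, rfl⟩
    · rw [B2_mul _ _ hnone, ← B2_one none (some none)]
      congr 1 <;> simp [hW2]
    · rw [B2_mul _ _ hnone, ← B2_one none (some none)]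
      congr 1 <;> simp [hW1]
  have ns : ∀ (s : ℝ) (x : A), s ∈ Set.Icc (0 : ℝ) 1 → ‖s • x‖ ≤ ‖x‖ := by
    intro s x hs
    rw [norm_smul, Real.norm_of_nonneg hs.1]
    exact mul_le_of_le_one_left (norm_nonneg _) hs.2
  have n1 := norm_nonneg c
  have n2 := norm_nonneg (W * e * W')
  have n3 := norm_nonneg e
  have n4 := norm_nonneg W'
  have n5 := norm_nonneg (e * W')
  have n6 := norm_nonneg (κ * W')
  have n7 := norm_nonneg (1 : A)
  have n8 := norm_nonneg W
  -- stage 2
  have s2 : Relation.ReflTransGen (Rel (Good (W * p0) c ζ l M) η)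
      (B2 none (some none) (W * p0 + l • W) 0 0 (l • W') (l • 1) :
        Matrix (Option (Option (Fin m))) (Option (Option (Fin m))) A)
      (B2 none (some none) (W * p0 + l • W) (l • (W * e * W')) (-(l • e)) (l • (κ * W'))
        (l • 1)) := by
    have h7 := rtg (Good (W * p0) c ζ l M) η hη (fun s : ℝ => (B2 none (some none) (W * p0 + l • W)
      (l • (s • (W * e * W'))) (-(l • (s • e))) (l • ((1 - s • e) * W')) (l • 1) :
        Matrix (Option (Option (Fin m))) (Option (Option (Fin m))) A)) ?_ ?_ ?_
    · have e1 : 1 - e = κ := by rw [he]; abel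
      simp only [zero_smul, smul_zero, neg_zero, sub_zero, one_mul, one_smul, e1] at h7
      exact h7
    · apply B2_cont
      · exact continuous_const
      · fun_prop
      · fun_prop
      · fun_prop
    · intro s hs
      have e1 : (B2 none (some none) (W * p0 + l • W)
          (l • (s • (W * e * W'))) (-(l • (s • e))) (l • ((1 - s • e) * W')) (l • 1) :
          Matrix (Option (Option (Fin m))) (Option (Option (Fin m))) A) =
          B2 none (some none) (W * (p0 + l • 1)) (W * (l • (s • e)) * W') (-(l • (s • e)))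
            ((l • (1 - s • e)) * W') (l • 1) := by
        congr 1
        · simp only [mul_smul_comm, smul_mul_assoc]
        · rw [smul_mul_assoc]
      rw [e1, hUW]
      refine (hUW1.mul (cinv _ _ hnone _ _ _ ?_ ?_ ?_ ?_ _ hl1)).mul hUW2
      · rw [commute_iff_eq]
        simp only [add_mul, mul_add, smul_mul_assoc, mul_smul_comm, hpe, hep, one_mul, mul_one]
        module
      · rw [commute_iff_eq]
        simp only [add_mul, mul_add, mul_sub, sub_mul, smul_mul_assoc, mul_smul_comm, hpe, hep,
          one_mul, mul_one]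
        module
      · rw [commute_iff_eq]
        simp only [mul_sub, sub_mul, smul_mul_assoc, mul_smul_comm, one_mul, mul_one]
        module
      · have e2 : (p0 + l • (1 : A)) * (l • (1 - s • e)) + l • s • e * l • s • e =
            (l ^ 2) • (1 - s • e + (s • e) * (s • e)) + (l * (1 - s)) • p0 := by
          simp only [add_mul, mul_sub, smul_mul_assoc, mul_smul_comm, hpe, one_mul, mul_one]
          module
        rw [e2]
        have hse : IsSelfAdjoint (s • e) := by
          rw [isSelfAdjoint_iff, star_smul, star_trivial s, hesa.star_eq]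
        refine unit_poly _ _ hse (ps_smul hp0 _ ?_) (l ^ 2) (by positivity)
        exact mul_nonneg hl.le (by linarith [hs.2])
    · intro s hs
      have g2 := ns s (W * e * W') hs
      have g3 := ns s e hs
      have g4 : ‖(1 - s • e) * W'‖ ≤ ‖W'‖ + ‖e * W'‖ := by
        rw [sub_mul, one_mul, smul_mul_assoc]
        exact (norm_sub_le _ _).trans (by linarith [ns s (e * W') hs])
      refine gd _ _ _ _ (by rw [hM]; linarith) (by rw [hM]; linarith) (by rw [hM]; linarith)
        (by rw [hM]; linarith) hWζ hζcW ?_ ?_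
      · rw [smul_mul_assoc, heζ, smul_zero]
      · rw [mul_smul_comm, hζWe, smul_zero]
  -- stage 3
  have u3 : ∀ s ∈ Set.Icc (0 : ℝ) 1, IsUnit (B2 none (some none)
      (W * p0 + l • ((1 - s) • W + s • c)) (l • (W * e * W')) (-(l • e)) (l • (κ * W')) (l • 1) :
        Matrix (Option (Option (Fin m))) (Option (Option (Fin m))) A) := by
    intro s hs
    obtain ⟨P, hP⟩ : ∃ P, P = p0 + l • ((1 - s) • (1 : A) + s • (W' * c)) := ⟨_, rfl⟩
    have hWP : W * P = W * p0 + l • ((1 - s) • W + s • c) := by
      rw [hP]
      simp only [mul_add, mul_smul_comm, mul_one, ← mul_assoc, hW1, one_mul]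
    have f1 : W' * c * κ = κ := by rw [mul_assoc, ← h3, ← mul_assoc, hW2, one_mul]
    have f2 : κ * (W' * c) = κ := by rw [← mul_assoc, h4, hκc]
    have f3 : P * κ = l • κ := by
      rw [hP]
      simp only [add_mul, smul_mul_assoc, h2, one_mul, f1]
      module
    have f4 : κ * P = l • κ := by
      rw [hP]
      simp only [mul_add, mul_smul_comm, hκp, mul_one, f2]
      module
    have e1 : (B2 none (some none) (W * p0 + l • ((1 - s) • W + s • c)) (l • (W * e * W'))
        (-(l • e)) (l • (κ * W')) (l • 1) :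
        Matrix (Option (Option (Fin m))) (Option (Option (Fin m))) A) =
        B2 none (some none) (W * P) (W * (l • e) * W') (-(l • e)) ((l • κ) * W') (l • 1) := by
      rw [hWP]
      congr 1
      · simp only [mul_smul_comm, smul_mul_assoc]
      · rw [smul_mul_assoc]
    rw [e1, hUW]
    refine (hUW1.mul (cinv _ _ hnone _ _ _ ?_ ?_ ?_ ?_ _ hl1)).mul hUW2
    · rw [commute_iff_eq, he]
      simp only [mul_smul_comm, smul_mul_assoc, mul_sub, sub_mul, f3, f4, mul_one, one_mul]
    · rw [commute_iff_eq]
      simp only [mul_smul_comm, smul_mul_assoc, f3, f4]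
    · rw [commute_iff_eq, he]
      simp only [mul_smul_comm, smul_mul_assoc, mul_sub, sub_mul, mul_one, one_mul]
      module
    · have e2 : P * (l • κ) + l • e * l • e = (l ^ 2) • (1 - κ + κ * κ) + 0 := by
        rw [he]
        simp only [mul_smul_comm, smul_mul_assoc, mul_sub, sub_mul, f3, mul_one, one_mul]
        module
      rw [e2]
      exact unit_poly _ _ hκ ⟨0, by simp⟩ _ (by positivity)
  have g3 : ∀ s ∈ Set.Icc (0 : ℝ) 1, Good (W * p0) c ζ l M (B2 none (some none)
      (W * p0 + l • ((1 - s) • W + s • c)) (l • (W * e * W')) (-(l • e)) (l • (κ * W')) (l • 1) :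
        Matrix (Option (Option (Fin m))) (Option (Option (Fin m))) A) := by
    intro s hs
    have g1 : ‖(1 - s) • W + s • c‖ ≤ ‖W‖ + ‖c‖ :=
      (norm_add_le _ _).trans (add_le_add (ns (1 - s) W ⟨by linarith [hs.2], by linarith [hs.1]⟩)
        (ns s c hs))
    refine gd _ _ _ _ (by rw [hM]; linarith) (by rw [hM]; linarith) (by rw [hM]; linarith)
      (by rw [hM]; linarith) ?_ ?_ heζ hζWe
    · rw [add_mul, smul_mul_assoc, smul_mul_assoc, hWζ]
      module
    · rw [mul_add, mul_smul_comm, mul_smul_comm, hζcW, hζcc]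
      module
  have s3 : Relation.ReflTransGen (Rel (Good (W * p0) c ζ l M) η)
      (B2 none (some none) (W * p0 + l • W) (l • (W * e * W')) (-(l • e)) (l • (κ * W'))
        (l • 1) : Matrix (Option (Option (Fin m))) (Option (Option (Fin m))) A)
      (B2 none (some none) (W * p0 + l • c) (l • (W * e * W')) (-(l • e)) (l • (κ * W'))
        (l • 1)) := by
    have h7 := rtg (Good (W * p0) c ζ l M) η hη (fun s : ℝ => (B2 none (some none)
      (W * p0 + l • ((1 - s) • W + s • c)) (l • (W * e * W')) (-(l • e)) (l • (κ * W')) (l • 1) :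
        Matrix (Option (Option (Fin m))) (Option (Option (Fin m))) A)) ?_ u3 g3
    · simp only [sub_zero, one_smul, zero_smul, add_zero, sub_self, zero_add] at h7
      exact h7
    · apply B2_cont
      · fun_prop
      · exact continuous_const
      · exact continuous_const
      · exact continuous_const
  have u4 := u3 1 (by simp)
  have g4 := g3 1 (by simp)
  simp only [one_smul, zero_smul, sub_self, zero_add] at u4 g4
  have fin := (s1.trans s2).trans s3
  rw [hWe, h4, he] at fin u4 g4
  exact ⟨fin, u4, g4⟩

end Pool.Agent.H898SR
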