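import Pool.Agent.H898SR.Alg
import Pool.Agent.H898SR.Path2

/-! Patching a chain of invertible matrices along exact Rokhlin elements. -/

set_option autoImplicit false
set_option linter.unusedSectionVars false

noncomputable section

namespace Pool.Agent.H898SR

open Filter Topology Pool.Agent.H923R2.FZ Matrix

section one

variable {A N : Type} [CStarAlgebra A] [CStarAlgebra N]

theorem hom_cont (φ : A →⋆ₐ[ℂ] N) : Continuous φ :=
  AddMonoidHomClass.continuous_of_bound φ 1 (by
    intro x; rw [one_mul]; exact NonUnitalStarAlgHom.norm_apply_le φ x)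

theorem mcfc (φ : A →⋆ₐ[ℂ] N) (f : ℝ → ℝ) (a : A) (ha : IsSelfAdjoint a) (hf : Continuous f) :
    φ (cfc f a) = cfc f (φ a) :=
  StarAlgHomClass.map_cfc φ f a hf.continuousOn (hom_cont φ) ha (ha.map φ)

end one

/-- exact Rokhlin elements -/
structure RF {A N G : Type} [CStarAlgebra A] [CStarAlgebra N] [Group G] (ι : A →⋆ₐ[ℂ] N)
    (β : G → (N →⋆ₐ[ℂ] N)) (f : G → N) : Prop where
  sa : ∀ g, IsSelfAdjoint (f g)
  orth : ∀ g h, g ≠ h → f g * f h = 0
  perm : ∀ g h, β g (f h) = f (g * h)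
  comm : ∀ g a, Commute (f g) (ι a)

section two

variable {A N G : Type} [CStarAlgebra A] [CStarAlgebra N] [Group G] [Fintype G] [DecidableEq G]
  {ι : A →⋆ₐ[ℂ] N} {β : G → (N →⋆ₐ[ℂ] N)} {f : G → N} {α : G → (A ≃⋆ₐ[ℂ] A)}

theorem RF.cc (hf : RF ι β f) (g h : G) : Commute (f g) (f h) := by
  by_cases e : g = h
  · rw [e]
  · rw [commute_iff_eq, hf.orth g h e, hf.orth h g (Ne.symm e)]

theorem RF.oo (hf : RF ι β f) (k l : ℝ → ℝ) (hk : Continuous k) (hl : Continuous l) (hk0 : k 0 = 0)
    (hl0 : l 0 = 0) (g h : G) (e : g ≠ h) : cfc k (f g) * cfc l (f h) = 0 := by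
  have h1 : cfc k (f g) * f h = 0 := by
    rw [left_zero (f g) (f h) (hf.sa g) (hf.orth g h e) k hk, hk0, zero_smul]
  rw [right_zero (f h) _ (hf.sa h) h1 l hl, hl0, zero_smul]

/-- `1 + ∑ k(f_g)` -/
def UU (f : G → N) (k : ℝ → ℝ) : N := 1 + ∑ g, cfc k (f g)

theorem RF.U_mul (hf : RF ι β f) (k l : ℝ → ℝ) (hk : Continuous k) (hl : Continuous l)
    (hk0 : k 0 = 0) (hl0 : l 0 = 0) :
    UU f k * UU f l = UU f (fun t => k t + l t + k t * l t) := by
  unfold UU
  have e1 : (∑ g, cfc k (f g)) * ∑ g, cfc l (f g) = ∑ g, cfc (fun t => k t * l t) (f g) := by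
    rw [Finset.sum_mul]
    apply Finset.sum_congr rfl
    intro g _
    rw [Finset.mul_sum, Finset.sum_eq_single g]
    · exact cm _ _ _ hk hl
    · intro h _ hh
      exact hf.oo k l hk hl hk0 hl0 g h (Ne.symm hh)
    · intro h; exact absurd (Finset.mem_univ _) h
  have e2 : ∀ g, cfc (fun t => k t + l t + k t * l t) (f g) =
      cfc k (f g) + cfc l (f g) + cfc (fun t => k t * l t) (f g) := by
    intro g
    rw [cfc_add (a := f g) (fun t => k t + l t) (fun t => k t * l t) (by fun_prop) (by fun_prop),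
      cfc_add (a := f g) k l (by fun_prop) (by fun_prop)]
  simp_rw [e2]
  rw [Finset.sum_add_distrib, Finset.sum_add_distrib, ← e1]
  noncomm_ring

theorem UU_sa (k : ℝ → ℝ) : IsSelfAdjoint (UU f k) := by
  unfold UU
  refine (IsSelfAdjoint.one N).add ?_
  rw [isSelfAdjoint_iff, star_sum]
  exact Finset.sum_congr rfl fun g _ => (cfc_sa _ _).star_eq

theorem RF.one_sub (hf : RF ι β f) (k : ℝ → ℝ) (hk : Continuous k) (hk0 : k 0 = 0)
    (hk1 : ∀ t, k t ≤ 1) : Ps (1 - ∑ g, cfc k (f g)) := by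
  refine ⟨UU f (fun t => -(1 - Real.sqrt (1 - k t))), ?_⟩
  rw [(UU_sa _).star_eq, hf.U_mul _ _ (by fun_prop) (by fun_prop) (by simp [hk0]) (by simp [hk0])]
  unfold UU
  rw [sub_eq_add_neg, ← Finset.sum_neg_distrib]
  congr 1
  apply Finset.sum_congr rfl
  intro g _
  rw [← cfc_neg]
  apply cfc_congr
  intro t _
  have h1 := Real.mul_self_sqrt (sub_nonneg.2 (hk1 t))
  show -k t = -(1 - Real.sqrt (1 - k t)) + -(1 - Real.sqrt (1 - k t)) +
    -(1 - Real.sqrt (1 - k t)) * -(1 - Real.sqrt (1 - k t))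
  nlinarith [h1]

theorem RF.cperm (hf : RF ι β f) (k : ℝ → ℝ) (hk : Continuous k) (g h : G) :
    β g (cfc k (f h)) = cfc k (f (g * h)) := by
  rw [mcfc (β g) k (f h) (hf.sa h) hk, hf.perm]

theorem RF.ccomm (hf : RF ι β f) (k : ℝ → ℝ) (g : G) (a : A) : Commute (cfc k (f g)) (ι a) :=
  (hf.comm g a).cfc_real k

theorem RF.cvx (hf : RF ι β f) (k : ℝ → ℝ) (hk : Continuous k) (hk0 : k 0 = 0)
    (hk1 : ∀ t, 0 ≤ k t ∧ k t ≤ 1) (x0 : N) (x : G → N) (h0 : ∀ g, Commute (f g) x0)
    (hx : ∀ g h, Commute (f g) (x h)) (B : ℝ) (hB : 0 ≤ B) (b0 : ‖x0‖ ≤ B) (b : ∀ g, ‖x g‖ ≤ B) :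
    ‖(1 - ∑ g, cfc k (f g)) * x0 + ∑ g, cfc k (f g) * x g‖ ≤ B := by
  have key := Pool.Agent.H898SR.cvx (I := Option G)
    (fun o => match o with | none => 1 - ∑ g, cfc k (f g) | some g => cfc k (f g))
    (fun o => match o with | none => x0 | some g => x g) ?_ ?_ ?_ ?_ B hB ?_
  · rw [Fintype.sum_option] at key
    exact key
  · intro o
    rcases o with _ | g
    · exact hf.one_sub k hk hk0 fun t => (hk1 t).2
    · exact ps_cfc _ k hk (fun t => (hk1 t).1) (hf.sa g)
  · rw [Fintype.sum_option]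
    show 1 - ∑ g, cfc k (f g) + ∑ g, cfc k (f g) = 1
    abel
  · have h1 : ∀ g h, Commute (cfc k (f g)) (cfc k (f h)) := fun g h =>
      (((hf.cc g h).cfc_real k).symm.cfc_real k).symm
    have h2 : ∀ g, Commute (cfc k (f g)) (1 - ∑ g, cfc k (f g)) := fun g =>
      (Commute.one_right _).sub_right (Commute.sum_right _ _ _ fun h _ => h1 g h)
    rintro (_ | g) (_ | h)
    · exact Commute.refl _
    · exact (h2 h).symm
    · exact h2 g
    · exact h1 g h
  · have h3 : ∀ y : N, (∀ g, Commute (f g) y) → Commute (1 - ∑ g, cfc k (f g)) y := by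
      intro y hy
      exact (Commute.one_left _).sub_left (Commute.sum_left _ _ _ fun h _ => (hy h).cfc_real k)
    rintro (_ | g) (_ | h)
    · exact h3 x0 h0
    · exact h3 _ fun g => hx g h
    · exact (h0 g).cfc_real k
    · exact (hx g h).cfc_real k
  · rintro (_ | g)
    · exact b0
    · exact b g

end two

/-- the level functions -/
def chi (s : ℝ) (j : ℕ) (t : ℝ) : ℝ := min 1 (max 0 (s * t - j))

theorem chi_cont (s : ℝ) (j : ℕ) : Continuous (chi s j) := by unfold chi; fun_prop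

theorem chi_zero (s : ℝ) (j : ℕ) : chi s j 0 = 0 := by
  unfold chi
  have : (0 : ℝ) ≤ j := by positivity
  rw [mul_zero, max_eq_left (by linarith)]
  simp

theorem chi_bd (s : ℝ) (j : ℕ) (t : ℝ) : 0 ≤ chi s j t ∧ chi s j t ≤ 1 :=
  ⟨le_min zero_le_one (le_max_left _ _), min_le_left _ _⟩

theorem chi_nest (s : ℝ) (j : ℕ) (t : ℝ) : chi s (j + 1) t * chi s j t = chi s (j + 1) t := by
  unfold chi
  rcases le_total (s * t - (j + 1 : ℕ)) 0 with h | h
  · rw [max_eq_left h]; simp
  · have : (1 : ℝ) ≤ max 0 (s * t - j) := by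
      push_cast at h
      exact le_max_of_le_right (by linarith)
    rw [min_eq_left this, mul_one]

section three

variable {A N G : Type} [CStarAlgebra A] [CStarAlgebra N] [Group G] [Fintype G] [DecidableEq G]
  {ι : A →⋆ₐ[ℂ] N} {β : G → (N →⋆ₐ[ℂ] N)} {f : G → N} {α : G → (A ≃⋆ₐ[ℂ] A)}
  {n : Type} [Fintype n] [DecidableEq n]

/-- the matrix `ι (α_g (M))` -/
def mp (ι : A →⋆ₐ[ℂ] N) (α : G → (A ≃⋆ₐ[ℂ] A)) (g : G) (M : Matrix n n A) : Matrix n n N :=
  M.map fun a => ι (α g a)

theorem mp_mul (g : G) (M M' : Matrix n n A) : mp ι α g (M * M') = mp ι α g M * mp ι α g M' := by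
  ext a b
  simp only [mp, Matrix.map_apply, Matrix.mul_apply, map_sum, map_mul]

theorem mp_sub (g : G) (M M' : Matrix n n A) : mp ι α g (M - M') = mp ι α g M - mp ι α g M' := by
  ext a b
  simp only [mp, Matrix.map_apply, Matrix.sub_apply, map_sub]

theorem patch (hf : RF ι β f) (hι : ∀ g a, β g (ι a) = ι (α g a))
    (hαm : ∀ (g h : G) (a : A), α (g * h) a = α g (α h a)) (Z : ℕ → Matrix n n A)
    (η : ℝ) (hη0 : 0 ≤ η) (hη : (Fintype.card n : ℝ) * η < 1)
    (h0 : ∀ a b g, α g (Z 0 a b) = Z 0 a b) (hu0 : IsUnit (Z 0)) (s : ℝ) :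
    ∀ j : ℕ, (∀ i < j, ∃ Y', Z i * Y' = 1 ∧ Y' * Z i = 1 ∧
      ∀ a b, ‖(Y' * Z (i + 1) - 1) a b‖ ≤ η) →
    ∃ H : Matrix n n N, IsUnit H ∧ (∀ a b g, β g (H a b) = H a b) ∧
      (∀ a b g, Commute (f g) (H a b)) ∧
      (∀ a b y u, (∀ g, α g y = y) → (∀ g, α g u = u) → (∀ i ≤ j, Z i a b * y = u) →
        H a b * ι y = ι u) ∧
      (∀ a b y u, (∀ g, α g y = y) → (∀ g, α g u = u) → (∀ i ≤ j, y * Z i a b = u) →
        ι y * H a b = ι u) ∧
      (∀ a b t B, (∀ g, α g t = t) → 0 ≤ B → (∀ i ≤ j, ‖Z i a b - t‖ ≤ B) →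
        ‖H a b - ι t‖ ≤ B) ∧
      (∀ g (k : ℝ → ℝ), Continuous k → k 0 = 0 → (∀ t, k t * chi s j t = k t) →
        ∀ a b, cfc k (f g) * H a b = cfc k (f g) * ι (α g (Z j a b))) := by
  intro j
  induction j with
  | zero =>
    intro _
    refine ⟨(Z 0).map ι, ?_, ?_, ?_, ?_, ?_, ?_, ?_⟩
    · have := hu0.map (RingHom.mapMatrix (m := n) (ι : A →+* N))
      exact this
    · intro a b g
      rw [Matrix.map_apply, hι, h0]
    · intro a b g
      exact hf.comm g _
    · intro a b y u _ _ h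
      rw [Matrix.map_apply, ← map_mul, h 0 le_rfl]
    · intro a b y u _ _ h
      rw [Matrix.map_apply, ← map_mul, h 0 le_rfl]
    · intro a b t B _ _ h
      rw [Matrix.map_apply, ← map_sub]
      exact (NonUnitalStarAlgHom.norm_apply_le ι _).trans (h 0 le_rfl)
    · intro g k _ _ _ a b
      rw [Matrix.map_apply, h0]
  | succ j ih =>
    intro hst
    obtain ⟨H, p1, p2, p3, p4, p5, p6, p7⟩ := ih fun i hi => hst i (by omega)
    obtain ⟨Y', hy1, hy2, hy3⟩ := hst j (by omega)
    obtain ⟨v, hv⟩ : ∃ v : G → N, v = fun g => cfc (chi s (j + 1)) (f g) := ⟨_, rfl⟩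
    have hvg : ∀ g, v g = cfc (chi s (j + 1)) (f g) := fun g => by rw [hv]
    have hvH : ∀ g a b, v g * H a b = v g * ι (α g (Z j a b)) := by
      intro g a b
      rw [hvg]
      exact p7 g _ (chi_cont s (j + 1)) (chi_zero s (j + 1)) (chi_nest s j) a b
    have hvc : ∀ g y, (∀ h, Commute (f h) y) → Commute (v g) y := by
      intro g y hy
      rw [hvg]; exact (hy g).cfc_real _
    obtain ⟨H1, hH1⟩ : ∃ H1 : Matrix n n N, H1 = fun a b => H a b +
      ∑ g, v g * ι (α g (Z (j + 1) a b - Z j a b)) := ⟨_, rfl⟩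
    have hH1a : ∀ a b, H1 a b = H a b + ∑ g, v g * ι (α g (Z (j + 1) a b - Z j a b)) :=
      fun a b => by rw [hH1]
    refine ⟨H1, ?_, ?_, ?_, ?_, ?_, ?_, ?_⟩
    · obtain ⟨Dm, hDm⟩ : ∃ Dm : Matrix n n N, Dm = fun a b =>
        ∑ g, v g * ι (α g ((Y' * Z (j + 1) - 1) a b)) := ⟨_, rfl⟩
      have hDu : IsUnit (1 + Dm) := by
        apply unit_mat Dm η _ hη
        intro a b
        rw [hDm]
        have := hf.cvx (chi s (j + 1)) (chi_cont _ _) (chi_zero _ _) (chi_bd _ _) 0
          (fun g => ι (α g ((Y' * Z (j + 1) - 1) a b))) (fun g => Commute.zero_right _)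
          (fun g h => hf.comm g _) η hη0 (by rw [norm_zero]; exact hη0) (fun g => by
            refine (NonUnitalStarAlgHom.norm_apply_le ι _).trans ?_
            exact (NonUnitalStarAlgHom.norm_apply_le (α g) _).trans (hy3 a b))
        rw [mul_zero, zero_add] at this
        simp only [hvg]
        exact this
      have hE : H1 = H * (1 + Dm) := by
        ext a b
        rw [mul_add, mul_one, Matrix.add_apply, hH1a]
        congr 1
        rw [Matrix.mul_apply, hDm]
        have e1 : ∀ c, H a c * (∑ g, v g * ι (α g ((Y' * Z (j + 1) - 1) c b))) =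
            ∑ g, v g * ι (α g (Z j a c * (Y' * Z (j + 1) - 1) c b)) := by
          intro c
          rw [Finset.mul_sum]
          apply Finset.sum_congr rfl
          intro g _
          calc H a c * (v g * ι (α g ((Y' * Z (j + 1) - 1) c b))) =
              (H a c * v g) * ι (α g ((Y' * Z (j + 1) - 1) c b)) := by rw [mul_assoc]
            _ = (v g * ι (α g (Z j a c))) * ι (α g ((Y' * Z (j + 1) - 1) c b)) := by
                rw [← (hvc g _ (p3 a c)).eq, hvH]
            _ = _ := by rw [mul_assoc, ← map_mul, ← map_mul]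
        simp only [e1]
        rw [Finset.sum_comm]
        apply Finset.sum_congr rfl
        intro g _
        rw [← Finset.mul_sum, ← map_sum, ← map_sum, ← Matrix.mul_apply]
        have e2 : Z j * (Y' * Z (j + 1) - 1) = Z (j + 1) - Z j := by
          rw [mul_sub, ← mul_assoc, hy1, one_mul, mul_one]
        rw [e2, Matrix.sub_apply]
      rw [hE]
      exact p1.mul hDu
    · intro a b g
      rw [hH1a, map_add, p2, map_sum]
      congr 1
      have e1 : ∀ h, β g (v h * ι (α h (Z (j + 1) a b - Z j a b))) =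
          v (g * h) * ι (α (g * h) (Z (j + 1) a b - Z j a b)) := by
        intro h
        rw [map_mul, hvg, hvg, hf.cperm _ (chi_cont _ _), hι, hαm]
      simp only [e1]
      exact Fintype.sum_equiv (Equiv.mulLeft g) _ _ fun h => rfl
    · intro a b g
      rw [hH1a]
      refine (p3 a b g).add_right (Commute.sum_right _ _ _ fun h _ => ?_)
      refine Commute.mul_right ?_ (hf.comm g _)
      rw [hvg]
      exact ((hf.cc h g).cfc_real _).symm
    · intro a b y u hy hu h
      have e1 : ∀ g, v g * ι (α g (Z (j + 1) a b - Z j a b)) * ι y = 0 := by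
        intro g
        have : (Z (j + 1) a b - Z j a b) * y = 0 := by
          rw [sub_mul, h (j + 1) le_rfl, h j (by omega), sub_self]
        calc v g * ι (α g (Z (j + 1) a b - Z j a b)) * ι y =
            v g * ι (α g ((Z (j + 1) a b - Z j a b) * y)) := by
              rw [map_mul (α g), hy g, map_mul, mul_assoc]
          _ = 0 := by rw [this, map_zero, map_zero, mul_zero]
      rw [hH1a, add_mul, Finset.sum_mul, Finset.sum_eq_zero fun g _ => e1 g, add_zero]
      exact p4 a b y u hy hu fun i hi => h i (by omega)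
    · intro a b y u hy hu h
      have e1 : ∀ g, ι y * (v g * ι (α g (Z (j + 1) a b - Z j a b))) = 0 := by
        intro g
        have : y * (Z (j + 1) a b - Z j a b) = 0 := by
          rw [mul_sub, h (j + 1) le_rfl, h j (by omega), sub_self]
        calc ι y * (v g * ι (α g (Z (j + 1) a b - Z j a b))) =
            v g * (ι y * ι (α g (Z (j + 1) a b - Z j a b))) := by
              rw [← mul_assoc, ← (hvc g (ι y) fun h => hf.comm h y).eq, mul_assoc]
          _ = v g * ι (α g (y * (Z (j + 1) a b - Z j a b))) := by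
              rw [map_mul (α g), hy g, map_mul]
          _ = 0 := by rw [this, map_zero, map_zero, mul_zero]
      rw [hH1a, mul_add, Finset.mul_sum, Finset.sum_eq_zero fun g _ => e1 g, add_zero]
      exact p5 a b y u hy hu fun i hi => h i (by omega)
    · intro a b t B ht hB h
      have e1 : H1 a b - ι t = (1 - ∑ g, cfc (chi s (j + 1)) (f g)) * (H a b - ι t) +
          ∑ g, cfc (chi s (j + 1)) (f g) * (ι (α g (Z (j + 1) a b)) - ι t) := by
        have e2 : ∀ g, v g * ι (α g (Z (j + 1) a b - Z j a b)) =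
            v g * (ι (α g (Z (j + 1) a b)) - ι t) - v g * (H a b - ι t) := by
          intro g
          rw [map_sub, map_sub, mul_sub, mul_sub, mul_sub, hvH]
          abel
        rw [hH1a, Finset.sum_congr rfl fun g _ => e2 g]
        simp only [hvg]
        rw [Finset.sum_sub_distrib, ← Finset.sum_mul, sub_mul, one_mul]
        abel
      rw [e1]
      refine hf.cvx (chi s (j + 1)) (chi_cont _ _) (chi_zero _ _) (chi_bd _ _) _ _
        (fun g => (p3 a b g).sub_right (hf.comm g t))
        (fun g h => (hf.comm g _).sub_right (hf.comm g t)) B hB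
        (p6 a b t B ht hB fun i hi => h i (by omega)) (fun g => ?_)
      have e3 : ι (α g (Z (j + 1) a b)) - ι t = ι (α g (Z (j + 1) a b - t)) := by
        rw [map_sub (α g), ht g, map_sub]
      rw [e3]
      exact (NonUnitalStarAlgHom.norm_apply_le ι _).trans
        ((NonUnitalStarAlgHom.norm_apply_le (α g) _).trans (h (j + 1) le_rfl))
    · intro g k hk hk0 hkc a b
      have hkj : ∀ t, k t * chi s j t = k t := by
        intro t
        calc k t * chi s j t = (k t * chi s (j + 1) t) * chi s j t := by rw [hkc]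
          _ = k t * (chi s (j + 1) t * chi s j t) := by ring
          _ = k t := by rw [chi_nest, hkc]
      rw [hH1a, mul_add, p7 g k hk hk0 hkj a b, Finset.mul_sum, Finset.sum_eq_single g]
      · have e1 : cfc k (f g) * v g = cfc k (f g) := by
          rw [hvg, cm _ _ _ hk (chi_cont _ _)]
          exact cfc_congr fun t _ => hkc t
        rw [← mul_assoc, e1, ← mul_add, map_sub, map_sub]
        congr 1
        abel
      · intro h _ hh
        rw [← mul_assoc, hvg, hf.oo k _ hk (chi_cont _ _) hk0 (chi_zero _ _) g h (Ne.symm hh),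
          zero_mul]
      · intro h; exact absurd (Finset.mem_univ _) h

end three

end Pool.Agent.H898SR
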