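import Pool.Agent.H898SR.Base

/-! Algebraic lemmas for the patching. -/

set_option autoImplicit false
set_option linter.unusedSectionVars false

noncomputable section

namespace Pool.Agent.H898SR

open Filter Topology Pool.Agent.H923R2.FZ

/-- the exact compression identity -/
theorem yz {R : Type} [Ring R] (E ρ ρ' σ σ' H J Q : R) (hE : E * E = E) (hEρ : E * ρ = ρ)
    (hEρ' : E * ρ' = ρ') (hρ'E : ρ' * E = 0) (hσE : σ * E = σ) (hEσ' : E * σ' = 0)
    (hσ'E : σ' * E = σ') (hσρ : σ * ρ = Q) (hEQ : E * Q = 0) (h1 : H * ρ = ρ')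
    (h2 : σ' * H = σ) (h3 : H * (1 - E - Q) = 1 - E - Q) (hHJ : H * J = 1) :
    (E + ρ') * (H - (1 - E)) * (E + σ) * ((E + ρ) * (J - (1 - E)) * (E + σ')) = E := by
  have a1 : (E + σ) * (E + ρ) = E + ρ + σ + Q := by
    rw [add_mul, mul_add, mul_add, hE, hEρ, hσE, hσρ]; abel
  have a2 : (H - (1 - E)) * (E + Q) = H - (1 - E) := by
    have e1 : (H - (1 - E)) * (E + Q) = (H - (1 - E)) - (H * (1 - E - Q) -
        (1 - E - Q - E + E * E + E * Q)) := by noncomm_ring
    rw [e1, h3, hE, hEQ]; abel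
  have a3 : (H - (1 - E)) * ρ = ρ' := by
    rw [sub_mul, sub_mul, h1, hEρ, one_mul]; abel
  have a4 : σ * (J - (1 - E)) = σ' := by
    have : σ * J = σ' := by
      rw [← h2, mul_assoc, hHJ, mul_one]
    rw [mul_sub, mul_sub, this, hσE, mul_one]; abel
  have a5 : ρ' * (J - (1 - E)) = ρ' * J - ρ' := by
    rw [mul_sub, mul_sub, hρ'E, mul_one]; abel
  have a6 : (H - (1 - E)) * (J - (1 - E)) = 1 - H * (1 - E) - (1 - E) * J + (1 - E) := by
    have e1 : (H - (1 - E)) * (J - (1 - E)) = H * J - H * (1 - E) - (1 - E) * J +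
        (1 - E - E + E * E) := by noncomm_ring
    rw [e1, hHJ, hE]; abel
  have a7 : (H - (1 - E)) * σ' = H * σ' - σ' := by
    rw [sub_mul, sub_mul, hEσ', one_mul]; abel
  have b1 : (E + ρ') * (E + σ') = E + ρ' * σ' := by
    rw [add_mul, mul_add, mul_add, hE, hEσ', hρ'E]; abel
  have b2 : (1 - E) * (E + σ') = σ' := by
    rw [sub_mul, mul_add, mul_add, hE, hEσ', one_mul, one_mul]; abel
  have b3 : (E + ρ') * (1 - E) = ρ' := by
    rw [mul_sub, mul_one, add_mul, hE, hρ'E]; abel
  have b4 : ρ' * (E + σ') = ρ' * σ' := by rw [mul_add, hρ'E, zero_add]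
  have b5 : ρ' * ρ' = 0 := by
    calc ρ' * ρ' = ρ' * E * ρ' := by rw [mul_assoc, hEρ']
      _ = 0 := by rw [hρ'E, zero_mul]
  have b6 : (E + ρ') * ρ' = ρ' := by rw [add_mul, hEρ', b5, add_zero]
  have b7 : σ' * σ' = 0 := by
    calc σ' * σ' = σ' * E * σ' := by rw [hσ'E]
      _ = σ' * (E * σ') := by rw [mul_assoc]
      _ = 0 := by rw [hEσ', mul_zero]
  have b8 : σ' * (E + σ') = σ' := by rw [mul_add, hσ'E, b7, add_zero]
  have b9 : (E + ρ') * σ' = ρ' * σ' := by rw [add_mul, hEσ', zero_add]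
  calc (E + ρ') * (H - (1 - E)) * (E + σ) * ((E + ρ) * (J - (1 - E)) * (E + σ'))
      = (E + ρ') * (H - (1 - E)) * ((E + σ) * (E + ρ)) * (J - (1 - E)) * (E + σ') := by
        noncomm_ring
    _ = (E + ρ') * ((H - (1 - E)) * (E + Q) + (H - (1 - E)) * ρ + (H - (1 - E)) * σ) *
          (J - (1 - E)) * (E + σ') := by
        rw [a1]
        congr 2
        noncomm_ring
    _ = (E + ρ') * ((H - (1 - E)) * (J - (1 - E)) + ρ' * (J - (1 - E)) +
          (H - (1 - E)) * (σ * (J - (1 - E)))) * (E + σ') := by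
        rw [a2, a3]
        congr 1
        noncomm_ring
    _ = (E + ρ') * (1 - H * (1 - E) - (1 - E) * J + (1 - E) + (ρ' * J - ρ') + (H * σ' - σ')) *
          (E + σ') := by rw [a6, a5, a4, a7]
    _ = (E + ρ') * (E + σ') - (E + ρ') * H * ((1 - E) * (E + σ')) -
          ((E + ρ') * (1 - E)) * J * (E + σ') + ((E + ρ') * (1 - E)) * (E + σ') +
          ((E + ρ') * ρ') * J * (E + σ') - ((E + ρ') * ρ') * (E + σ') +
          (E + ρ') * H * (σ' * (E + σ')) - (E + ρ') * (σ' * (E + σ')) := by noncomm_ring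
    _ = E := by
        rw [b1, b2, b3, b6, b8, b4, b9]
        abel

variable {N : Type} [CStarAlgebra N]

theorem Ps.zero : Ps (0 : N) := ⟨0, by simp⟩
theorem Ps.one : Ps (1 : N) := ⟨1, by simp⟩

/-- convexity -/
theorem cvx {I : Type} [Fintype I] (c x : I → N) (hc : ∀ i, Ps (c i)) (hs : ∑ i, c i = 1)
    (hcc : ∀ i j, Commute (c i) (c j)) (hcx : ∀ i j, Commute (c i) (x j)) (B : ℝ) (hB : 0 ≤ B)
    (hx : ∀ i, ‖x i‖ ≤ B) : ‖∑ i, c i * x i‖ ≤ B := by
  let _ := CStarAlgebra.spectralOrder N
  let _ := CStarAlgebra.spectralOrderedRing N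
  obtain ⟨T, hT⟩ : ∃ T, T = ∑ i, c i * x i := ⟨_, rfl⟩
  have hcT : ∀ i, Commute (c i) T := by
    intro i
    rw [hT]
    apply Commute.sum_right
    intro j _
    exact (hcc i j).mul_right (hcx i j)
  have hcxs : ∀ i j, Commute (c i) (star (x j)) := by
    intro i j
    have := (hcx i j).star_star
    rwa [(hc i).sa.star_eq] at this
  have hTs : star T = ∑ i, c i * star (x i) := by
    rw [hT, star_sum]
    apply Finset.sum_congr rfl
    intro i _
    rw [star_mul, (hc i).sa.star_eq, (hcxs i i).eq]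
  have hcTs : ∀ i, Commute (c i) (star T) := by
    intro i
    have := (hcT i).star_star
    rwa [(hc i).sa.star_eq] at this
  have e1 : ∑ i, c i * (star (x i - T) * (x i - T)) = ∑ i, c i * (star (x i) * x i) - star T * T := by
    have f1 : ∀ i, c i * (star (x i - T) * (x i - T)) = c i * (star (x i) * x i) -
        (c i * star (x i)) * T - star T * (c i * x i) + star T * (c i * T) := by
      intro i
      rw [star_sub]
      calc _ = c i * (star (x i) * x i) - (c i * star (x i)) * T - (c i * star T) * x i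
            + (c i * star T) * T := by noncomm_ring
        _ = _ := by rw [(hcTs i).eq]; noncomm_ring
    simp_rw [f1]
    rw [Finset.sum_add_distrib, Finset.sum_sub_distrib, Finset.sum_sub_distrib, ← Finset.sum_mul,
      ← Finset.mul_sum, ← Finset.mul_sum, ← Finset.sum_mul, ← hTs, ← hT, hs, one_mul]
    abel
  have e2 : 0 ≤ ∑ i, c i * (star (x i - T) * (x i - T)) := by
    apply Finset.sum_nonneg
    intro i _
    have h1 : Commute (c i) (star (x i - T)) := by
      rw [star_sub]; exact (hcxs i i).sub_right (hcTs i)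
    obtain ⟨z, hz⟩ := hc i
    have : c i * (star (x i - T) * (x i - T)) = star (z * (x i - T)) * (z * (x i - T)) := by
      rw [← mul_assoc, h1.eq, star_mul]
      rw [mul_assoc, hz]
      noncomm_ring
    rw [this]
    exact star_mul_self_nonneg _
  have e3 : ∑ i, c i * (star (x i) * x i) ≤ ∑ i, c i * algebraMap ℝ N (B ^ 2) := by
    apply Finset.sum_le_sum
    intro i _
    obtain ⟨z, hz⟩ : ∃ z, z = cfc Real.sqrt (c i) := ⟨_, rfl⟩
    have hzs : IsSelfAdjoint z := by rw [hz]; exact cfc_sa _ _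
    have hzz : z * z = c i := by
      rw [hz, cm _ _ _ Real.continuous_sqrt Real.continuous_sqrt]
      conv_rhs => rw [← cfc_id' ℝ (c i) (hc i).sa]
      apply cfc_congr
      intro t ht
      exact Real.mul_self_sqrt ((hc i).spec t ht)
    have hzx : Commute z (star (x i) * x i) := by
      rw [hz]
      exact ((hcxs i i).mul_right (hcx i i)).cfc_real _
    have h1 : c i * (star (x i) * x i) = star z * (star (x i) * x i) * z := by
      rw [hzs.star_eq, hzx.eq, mul_assoc, hzz, ((hcxs i i).mul_right (hcx i i)).eq]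
    have h2 : c i * algebraMap ℝ N (B ^ 2) = star z * algebraMap ℝ N (B ^ 2) * z := by
      rw [hzs.star_eq, ← Algebra.commutes (B ^ 2) z, mul_assoc, hzz, Algebra.commutes]
    rw [h1, h2]
    apply star_left_conjugate_le_conjugate
    have h3 : star (x i) * x i ≤ algebraMap ℝ N (‖star (x i) * x i‖) :=
      IsSelfAdjoint.le_algebraMap_norm_self (IsSelfAdjoint.star_mul_self _)
    refine h3.trans ?_
    apply algebraMap_mono
    rw [CStarRing.norm_star_mul_self]
    nlinarith [hx i, norm_nonneg (x i)]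
  rw [← Finset.sum_mul, hs, one_mul] at e3
  rw [e1] at e2
  have e4 : star T * T ≤ algebraMap ℝ N (B ^ 2) := (sub_nonneg.1 e2).trans e3
  have e5 : ‖star T * T‖ ≤ B ^ 2 := by
    rcases subsingleton_or_nontrivial N with hs' | hs'
    · rw [Subsingleton.elim (star T * T) 0, norm_zero]; positivity
    exact (CStarAlgebra.norm_le_norm_of_nonneg_of_le (star_mul_self_nonneg T) e4).trans (by
      rw [norm_algebraMap', Real.norm_of_nonneg (by positivity)])
  rw [CStarRing.norm_star_mul_self] at e5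
  rw [← hT]
  nlinarith [norm_nonneg T]

open Matrix in
theorem unit_mat {n : Type} [Fintype n] [DecidableEq n] (M : Matrix n n N) (η : ℝ)
    (h : ∀ a b, ‖M a b‖ ≤ η) (hη : (Fintype.card n : ℝ) * η < 1) : IsUnit (1 + M) := by
  letI inst : NormedRing (Matrix n n N) := Matrix.linftyOpNormedRing
  have hcomp : @CompleteSpace (Matrix n n N) (PseudoMetricSpace.toUniformSpace) :=
    (inferInstance : CompleteSpace (n → n → N))
  haveI : HasSummableGeomSeries (Matrix n n N) := by
    constructor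
    intro x hx
    exact @summable_geometric_of_norm_lt_one (Matrix n n N) inst _ x hx
  have h1 : ‖-M‖ < 1 := by
    rw [norm_neg]
    have h2 : ‖M‖₊ ≤ Real.toNNReal ((Fintype.card n : ℝ) * η) := by
      have := Matrix.linfty_opNNNorm_def M
      rw [this]
      apply Finset.sup_le
      intro i _
      rw [← NNReal.coe_le_coe, Real.coe_toNNReal']
      refine le_trans ?_ (le_max_left _ _)
      push_cast
      calc ∑ j, ‖M i j‖ ≤ ∑ _j : n, η := Finset.sum_le_sum fun j _ => h i j
        _ = _ := by rw [Finset.sum_const, Finset.card_univ, nsmul_eq_mul]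
    have h3 : ‖M‖ ≤ max ((Fintype.card n : ℝ) * η) 0 := by
      have := NNReal.coe_le_coe.2 h2
      rwa [Real.coe_toNNReal', coe_nnnorm] at this
    exact h3.trans_lt (max_lt hη one_pos)
  have := (Units.oneSub _ h1).isUnit
  rwa [Units.val_oneSub, sub_neg_eq_add] at this

end Pool.Agent.H898SR
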