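import Pool.Agent.H923R2.FZ.Stubs1
import Pool.Agent.H578R2.FZ_R1a
import Pool.Agent.H386R6.FZ_R0
import Pool.Agent.H419R2.FZ_INV
import Pool.Agent.H327R4.Pure.TFULL
import Pool.Agent.H327R4.Pure.TNIL

/-! Stable rank one and the weak tracial Rokhlin property (MP_739d9d_an): basic lemmas. -/

set_option autoImplicit false

noncomputable section

namespace Pool.Agent.H898SR

open Filter Topology Pool.Agent.H923R2.FZ

variable {A : Type} [CStarAlgebra A]

/-- intertwining -/
theorem itw (a b X : A) (ha : IsSelfAdjoint a) (hb : IsSelfAdjoint b) (h : b * X = X * a)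
    (f : ℝ → ℝ) (hf : Continuous f) : cfc f b * X = X * cfc f a := by
  have hK : ∃ R : ℝ, (∀ t ∈ spectrum ℝ a, t ∈ Set.Icc (-R) R) ∧
      (∀ t ∈ spectrum ℝ b, t ∈ Set.Icc (-R) R) := by
    obtain ⟨R1, h1⟩ := (spectrum.isCompact (𝕜 := ℝ) a).isBounded.subset_closedBall 0
    obtain ⟨R2, h2⟩ := (spectrum.isCompact (𝕜 := ℝ) b).isBounded.subset_closedBall 0
    refine ⟨max R1 R2, fun t ht => ?_, fun t ht => ?_⟩
    · have := h1 ht
      rw [Metric.mem_closedBall, dist_zero_right, Real.norm_eq_abs, abs_le] at this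
      exact ⟨by linarith [le_max_left R1 R2], by linarith [le_max_left R1 R2]⟩
    · have := h2 ht
      rw [Metric.mem_closedBall, dist_zero_right, Real.norm_eq_abs, abs_le] at this
      exact ⟨by linarith [le_max_right R1 R2], by linarith [le_max_right R1 R2]⟩
  obtain ⟨R, h1, h2⟩ := hK
  rw [← sub_eq_zero, ← norm_le_zero_iff]
  apply le_of_forall_pos_le_add
  intro ε hε
  rw [zero_add]
  obtain ⟨p, hp⟩ := exists_polynomial_near_of_continuousOn (-R) R f hf.continuousOn
    (ε / (2 * (‖X‖ + 1))) (by positivity)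
  have key : ∀ (p : Polynomial ℝ), Polynomial.aeval b p * X = X * Polynomial.aeval a p := by
    intro p
    induction p using Polynomial.induction_on with
    | C r =>
      simp only [Polynomial.aeval_C]
      exact Algebra.commutes r X
    | add p q h3 h4 => rw [map_add, map_add, add_mul, mul_add, h3, h4]
    | monomial n r h3 =>
      have e : (Polynomial.C r * Polynomial.X ^ (n + 1) : Polynomial ℝ) =
          (Polynomial.C r * Polynomial.X ^ n) * Polynomial.X := by rw [pow_succ, mul_assoc]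
      rw [e, map_mul (Polynomial.aeval b), map_mul (Polynomial.aeval a) _ Polynomial.X,
        Polynomial.aeval_X, Polynomial.aeval_X, mul_assoc, h, ← mul_assoc, h3, mul_assoc]
  have e1 : ‖cfc f b - Polynomial.aeval b p‖ ≤ ε / (2 * (‖X‖ + 1)) := by
    rw [← cfc_polynomial p b, ← cfc_sub f p.eval b hf.continuousOn (by fun_prop)]
    apply norm_cfc_le (by positivity)
    intro t ht
    rw [Real.norm_eq_abs, abs_sub_comm]
    exact (hp t (h2 t ht)).le
  have e2 : ‖cfc f a - Polynomial.aeval a p‖ ≤ ε / (2 * (‖X‖ + 1)) := by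
    rw [← cfc_polynomial p a, ← cfc_sub f p.eval a hf.continuousOn (by fun_prop)]
    apply norm_cfc_le (by positivity)
    intro t ht
    rw [Real.norm_eq_abs, abs_sub_comm]
    exact (hp t (h1 t ht)).le
  have e3 : cfc f b * X - X * cfc f a = (cfc f b - Polynomial.aeval b p) * X -
      X * (cfc f a - Polynomial.aeval a p) := by
    rw [sub_mul, mul_sub, key]; abel
  rw [e3]
  calc _ ≤ ‖(cfc f b - Polynomial.aeval b p) * X‖ + ‖X * (cfc f a - Polynomial.aeval a p)‖ :=
        norm_sub_le _ _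
    _ ≤ ε / (2 * (‖X‖ + 1)) * ‖X‖ + ‖X‖ * (ε / (2 * (‖X‖ + 1))) :=
        add_le_add ((norm_mul_le _ _).trans (mul_le_mul_of_nonneg_right e1 (norm_nonneg _)))
          ((norm_mul_le _ _).trans (mul_le_mul_of_nonneg_left e2 (norm_nonneg _)))
    _ ≤ ε := by
        have : (0 : ℝ) < ‖X‖ + 1 := by positivity
        rw [div_mul_eq_mul_div, mul_div_assoc', ← add_div, div_le_iff₀ (by positivity)]
        nlinarith [norm_nonneg X]

theorem cm (a : A) (f g : ℝ → ℝ) (hf : Continuous f) (hg : Continuous g) :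
    cfc f a * cfc g a = cfc (fun t => f t * g t) a :=
  (cfc_mul f g a hf.continuousOn hg.continuousOn).symm

/-- `X a = 0` implies `X f(a) = f(0) X` -/
theorem right_zero (a X : A) (ha : IsSelfAdjoint a) (h : X * a = 0) (f : ℝ → ℝ)
    (hf : Continuous f) : X * cfc f a = (f 0 : ℝ) • X := by
  have h1 := itw a 0 X ha (IsSelfAdjoint.zero A) (by rw [h, zero_mul]) f hf
  rw [← h1]
  rcases subsingleton_or_nontrivial A with hs | hs
  · exact Subsingleton.elim _ _
  have h2 : cfc f (0 : A) = algebraMap ℝ A (f 0) := by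
    exact cfc_apply_zero (R := ℝ) (A := A) (f := f)
  rw [h2, Algebra.algebraMap_eq_smul_one, smul_mul_assoc, one_mul]

/-- `a X = 0` implies `f(a) X = f(0) X` -/
theorem left_zero (a X : A) (ha : IsSelfAdjoint a) (h : a * X = 0) (f : ℝ → ℝ)
    (hf : Continuous f) : cfc f a * X = (f 0 : ℝ) • X := by
  have h1 := itw 0 a X (IsSelfAdjoint.zero A) ha (by rw [h, mul_zero]) f hf
  rw [h1]
  rcases subsingleton_or_nontrivial A with hs | hs
  · exact Subsingleton.elim _ _
  have h2 : cfc f (0 : A) = algebraMap ℝ A (f 0) := cfc_apply_zero (R := ℝ) (A := A) (f := f)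
  rw [h2, Algebra.algebraMap_eq_smul_one, mul_smul_comm, mul_one]

/-- `a X = X` implies `f(a) X = f(1) X` -/
theorem left_one (a X : A) (ha : IsSelfAdjoint a) (h : a * X = X) (f : ℝ → ℝ)
    (hf : Continuous f) : cfc f a * X = (f 1 : ℝ) • X := by
  have h1 := itw 1 a X (IsSelfAdjoint.one A) ha (by rw [h, mul_one]) f hf
  rw [h1]
  rcases subsingleton_or_nontrivial A with hs | hs
  · exact Subsingleton.elim _ _
  have h2 : cfc f (1 : A) = algebraMap ℝ A (f 1) := cfc_apply_one (R := ℝ) (A := A) (f := f)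
  rw [h2, Algebra.algebraMap_eq_smul_one, mul_smul_comm, mul_one]

theorem right_one (a X : A) (ha : IsSelfAdjoint a) (h : X * a = X) (f : ℝ → ℝ)
    (hf : Continuous f) : X * cfc f a = (f 1 : ℝ) • X := by
  have h1 := itw a 1 X ha (IsSelfAdjoint.one A) (by rw [h, one_mul]) f hf
  rw [← h1]
  rcases subsingleton_or_nontrivial A with hs | hs
  · exact Subsingleton.elim _ _
  have h2 : cfc f (1 : A) = algebraMap ℝ A (f 1) := cfc_apply_one (R := ℝ) (A := A) (f := f)
  rw [h2, Algebra.algebraMap_eq_smul_one, smul_mul_assoc, one_mul]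

theorem cfc_sa (f : ℝ → ℝ) (a : A) : IsSelfAdjoint (cfc f a) := cfc_predicate f a

theorem spec_nn (x : A) : ∀ t ∈ spectrum ℝ (star x * x), 0 ≤ t := by
  let _ := CStarAlgebra.spectralOrder A
  let _ := CStarAlgebra.spectralOrderedRing A
  intro t ht
  exact spectrum_nonneg_of_nonneg (star_mul_self_nonneg x) ht

/-- positive elements -/
def Ps (x : A) : Prop := ∃ y, x = star y * y

theorem Ps.sa {x : A} (h : Ps x) : IsSelfAdjoint x := by
  obtain ⟨y, rfl⟩ := h; exact IsSelfAdjoint.star_mul_self y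

theorem Ps.spec {x : A} (h : Ps x) : ∀ t ∈ spectrum ℝ x, 0 ≤ t := by
  obtain ⟨y, rfl⟩ := h; exact spec_nn y

theorem ps_of {x : A} (h : IsSelfAdjoint x) (h2 : ∀ t ∈ spectrum ℝ x, 0 ≤ t) : Ps x := by
  refine ⟨cfc (fun t : ℝ => Real.sqrt t) x, ?_⟩
  rw [(cfc_sa _ x).star_eq, cm x _ _ (by fun_prop) (by fun_prop)]
  conv_lhs => rw [← cfc_id' ℝ x h]
  apply cfc_congr
  intro t ht
  exact (Real.mul_self_sqrt (h2 t ht)).symm

theorem ps_cfc (x : A) (f : ℝ → ℝ) (hf : Continuous f) (h : ∀ t, 0 ≤ f t) (hx : IsSelfAdjoint x) :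
    Ps (cfc f x) := by
  refine ps_of (cfc_sa f x) ?_
  intro t ht
  rw [cfc_map_spectrum f x hx hf.continuousOn] at ht
  obtain ⟨s, _, rfl⟩ := ht
  exact h s

/-- the positive sum is invertible -/
theorem unit_ge (a b : A) (c : ℝ) (hc : 0 < c) (ha : IsSelfAdjoint a)
    (h : ∀ t ∈ spectrum ℝ a, c ≤ t) (hb : Ps b) : IsUnit (a + b) := by
  let _ := CStarAlgebra.spectralOrder A
  let _ := CStarAlgebra.spectralOrderedRing A
  have h1 : 0 ≤ a := by
    rw [StarOrderedRing.nonneg_iff_spectrum_nonneg (R := ℝ) a ha]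
    intro t ht
    exact hc.le.trans (h t ht)
  have h2 : IsUnit a := by
    rw [← spectrum.zero_notMem_iff ℝ]
    intro h3
    exact absurd (h 0 h3) (not_le.2 hc)
  have h3 : IsStrictlyPositive a := ⟨h1, h2⟩
  obtain ⟨y, rfl⟩ := hb
  exact (h3.add_nonneg (star_mul_self_nonneg y)).isUnit

/-- one sided inverses are inverses in stable rank one algebras -/
theorem fin_of_SR (h : SR A) (a b : A) (hab : a * b = 1) : b * a = 1 := by
  rcases subsingleton_or_nontrivial A with hs | hs
  · exact Subsingleton.elim _ _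
  have hb : 0 < ‖b‖ := by
    rw [norm_pos_iff]
    rintro rfl
    rw [mul_zero] at hab
    exact zero_ne_one hab
  obtain ⟨z, hz, h1⟩ := h a (1 / ‖b‖) (by positivity)
  have h2 : ‖(z - a) * b‖ < 1 := by
    calc _ ≤ ‖z - a‖ * ‖b‖ := norm_mul_le _ _
      _ < 1 / ‖b‖ * ‖b‖ := by
        rw [norm_sub_rev]
        exact mul_lt_mul_of_pos_right h1 hb
      _ = 1 := by field_simp
  have h3 : IsUnit (z * b) := by
    have e : z * b = 1 - (-((z - a) * b)) := by
      rw [sub_mul, hab]; abel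
    rw [e]
    exact (Units.oneSub _ (by rw [norm_neg]; exact h2)).isUnit
  have h4 : IsUnit b := by
    obtain ⟨u, rfl⟩ := hz
    have := u⁻¹.isUnit.mul h3
    rwa [← mul_assoc, Units.inv_mul, one_mul] at this
  obtain ⟨v, rfl⟩ := h4
  have : a = (↑v⁻¹ : A) := by
    have := congrArg (· * (↑v⁻¹ : A)) hab
    simpa [mul_assoc] using this
  rw [this, Units.mul_inv]

end Pool.Agent.H898SR
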