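import Pool.Agent.H898SR.Patch

/-! Compressing the patched matrix to an invertible invariant element. -/

set_option autoImplicit false
set_option linter.unusedSectionVars false

noncomputable section

namespace Pool.Agent.H898SR

open Filter Topology Pool.Agent.H923R2.FZ Matrix

theorem rtg_seq {X : Type} {R : X → X → Prop} {a b : X} (h : Relation.ReflTransGen R a b) :
    ∃ (K : ℕ) (Z : ℕ → X), Z 0 = b ∧ Z K = a ∧ ∀ i < K, R (Z (i + 1)) (Z i) := by
  induction h using Relation.ReflTransGen.head_induction_on with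
  | refl => exact ⟨0, fun _ => b, rfl, rfl, fun i hi => absurd hi (Nat.not_lt_zero i)⟩
  | head hac _ ih =>
    rename_i a c _
    obtain ⟨K, Z, h0, h1, h2⟩ := ih
    refine ⟨K + 1, fun i => if i ≤ K then Z i else a, by simp [h0], by simp, fun i hi => ?_⟩
    by_cases hi2 : i = K
    · subst hi2
      simp only [le_refl, if_true, Nat.not_succ_le_self, if_false]
      rw [h1]; exact hac
    · have h3 : i + 1 ≤ K := by omega
      have h4 : i ≤ K := by omega
      simp only [h3, h4, if_true]
      exact h2 i (by omega)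

section blocks

variable {N J : Type} [CStarAlgebra N] [Fintype J] [DecidableEq J]

/-- `E` -/
def mE : Matrix (Option J) (Option J) N := fun a b =>
  match a, b with
  | none, none => 1
  | _, _ => 0

/-- row -/
def mr (r : J → N) : Matrix (Option J) (Option J) N := fun a b =>
  match a, b with
  | none, some j => r j
  | _, _ => 0

/-- column -/
def mc (r : J → N) : Matrix (Option J) (Option J) N := fun a b =>
  match a, b with
  | some j, none => r j
  | _, _ => 0

/-- diagonal -/
def md (q : N) : Matrix (Option J) (Option J) N := fun a b =>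
  match a, b with
  | some i, some j => if i = j then q else 0
  | _, _ => 0

theorem comp_eq (H : Matrix (Option J) (Option J) N) (R' S : Option J → N)
    (P P' : Matrix (Option J) (Option J) N) (h1 : ∀ a, P none a = R' a)
    (h2 : ∀ b, P' b none = S b) : (P * H * P') none none = ∑ b, (∑ a, R' a * H a b) * S b := by
  rw [Matrix.mul_apply]
  apply Finset.sum_congr rfl
  intro b _
  rw [h2, Matrix.mul_apply]
  congr 1
  apply Finset.sum_congr rfl
  intro a _
  rw [h1]

end blocks

variable {A N G J : Type} [CStarAlgebra A] [CStarAlgebra N] [Group G] [Fintype G] [DecidableEq G]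
  [Fintype J] [DecidableEq J]
  {ι : A →⋆ₐ[ℂ] N} {β : G → (N →⋆ₐ[ℂ] N)} {f : G → N} {α : G → (A ≃⋆ₐ[ℂ] A)}

/-- the function `max (4t - 3) 0` -/
def theta (t : ℝ) : ℝ := max 0 (4 * t - 3)

theorem theta_cont : Continuous theta := by unfold theta; fun_prop

theorem theta_zero : theta 0 = 0 := by unfold theta; norm_num

theorem theta_chi (K : ℕ) (t : ℝ) :
    theta t * chi ((4 / 3) * (K + 1)) K t = theta t := by
  unfold theta chi
  rcases le_total (4 * t - 3) 0 with h | h
  · rw [max_eq_left h]; simp
  · have : (1 : ℝ) ≤ max 0 ((4 / 3) * ((K : ℝ) + 1) * t - K) := by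
      apply le_max_of_le_right
      have h1 : (3 : ℝ) / 4 ≤ t := by linarith
      have h2 : (4 / 3) * ((K : ℝ) + 1) * (3 / 4) ≤ (4 / 3) * ((K : ℝ) + 1) * t :=
        mul_le_mul_of_nonneg_left h1 (by positivity)
      nlinarith
    rw [min_eq_left this, mul_one]

theorem compress (hf : RF ι β f) (hι : ∀ g a, β g (ι a) = ι (α g a))
    (hαm : ∀ (g h : G) (a : A), α (g * h) a = α g (α h a))
    (x c ζ p : A) (hx : ∀ g, α g x = x) (hc : ∀ g, α g c = c) (hζ : ∀ g, α g ζ = ζ)
    (hζs : IsSelfAdjoint ζ) (hcc : star c * c * ζ = ζ)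
    (l M η : ℝ) (hl : 0 < l) (hM : 0 ≤ M) (hη0 : 0 ≤ η)
    (hη : (Fintype.card (Option J) : ℝ) * η < 1)
    (He : Matrix (Option J) (Option J) A) (he0 : ∀ a b g, α g (He a b) = He a b)
    (heu : IsUnit He) (heG : Good x c ζ l M He)
    (hch : Relation.ReflTransGen (Rel (Good x c ζ l M) η) (bd p (l • (1 : Matrix J J A))) He)
    (r : J → N) (hrβ : ∀ g j, β g (r j) = r j)
    (hrr : ∀ i j, star (r i) * r j = if i = j then 1 - ∑ g, cfc theta (f g) else 0)
    (hrζ : ∀ j, ι ζ * r j = r j) (hrn : ∀ j, ‖r j‖ ≤ 1) :
    ∃ Y : N, IsUnit Y ∧ (∀ g, β g Y = Y) ∧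
      ‖Y - ι x‖ ≤ l * ((M + 1) * ((Fintype.card (Option J) : ℝ) * (1 + ‖c‖)) *
        (Fintype.card (Option J) : ℝ)) := by
  obtain ⟨K, Z, hZ0, hZK, hZR⟩ := rtg_seq hch
  have hG : ∀ i ≤ K, Good x c ζ l M (Z i) := by
    intro i hi
    rcases Nat.eq_zero_or_pos i with h | h
    · rw [h, hZ0]; exact heG
    · obtain ⟨i, rfl⟩ : ∃ i', i = i' + 1 := ⟨i - 1, by omega⟩
      exact (hZR i (by omega)).1
  obtain ⟨H, p1, p2, p3, p4, p5, p6, p7⟩ := patch hf hι hαm Z η hη0 hη
    (by rw [hZ0]; exact he0) (by rw [hZ0]; exact heu) ((4 / 3) * (K + 1)) K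
    (fun i hi => by
      obtain ⟨_, _, Y', q1, q2, q3⟩ := hZR i hi
      exact ⟨Y', q1, q2, q3⟩)
  have hcs : ∀ g, α g (star c) = star c := fun g => by rw [map_star, hc]
  have hl0 : ∀ (g : G) (u : A), α g u = u → α g (l • u) = l • u := by
    intro g u hu
    have : l • u = (l : ℂ) • u := (Complex.coe_smul l u).symm
    rw [this, map_smul, hu]
  have c1 : H none none * ι ζ = ι (l • (c * ζ)) :=
    p4 none none ζ _ hζ (fun g => hl0 g _ (by rw [map_mul, hc, hζ])) fun i hi => (hG i hi).1
  have c2 : ∀ a, H (some a) none * ι ζ = 0 := by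
    intro a
    have := p4 (some a) none ζ 0 hζ (fun g => map_zero _) fun i hi => (hG i hi).2.1 a
    rwa [map_zero] at this
  have c3 : ι (ζ * star c) * H none none = ι (l • ζ) :=
    p5 none none _ _ (fun g => by rw [map_mul, hζ, hcs]) (fun g => hl0 g _ (hζ g))
      fun i hi => (hG i hi).2.2.1
  have c4 : ∀ b, ι (ζ * star c) * H none (some b) = 0 := by
    intro b
    have := p5 none (some b) (ζ * star c) 0 (fun g => by rw [map_mul, hζ, hcs])
      (fun g => map_zero _) fun i hi => (hG i hi).2.2.2.1 b
    rwa [map_zero] at this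
  have c5 : ∀ a b, ‖H a b - ι (if a = none ∧ b = none then x else 0)‖ ≤ l * M := by
    intro a b
    refine p6 a b _ _ (fun g => ?_) (by positivity) fun i hi => (hG i hi).2.2.2.2 a b
    split_ifs
    · exact hx g
    · exact map_zero _
  obtain ⟨q, hq⟩ : ∃ q, q = 1 - ∑ g, cfc theta (f g) := ⟨_, rfl⟩
  rw [← hq] at hrr
  have c6 : ∀ a b, H a (some b) * (1 - q) = if a = some b then (l : ℝ) • (1 - q) else 0 := by
    intro a b
    have e1 : 1 - q = ∑ g, cfc theta (f g) := by rw [hq]; abel
    have e2 : ∀ g, H a (some b) * cfc theta (f g) =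
        cfc theta (f g) * ι (α g (Z K a (some b))) := by
      intro g
      rw [← ((p3 a (some b) g).cfc_real theta).eq]
      exact p7 g theta theta_cont theta_zero (theta_chi K) a (some b)
    have e3 : Z K a (some b) = if a = some b then l • (1 : A) else 0 := by
      rw [hZK]
      rcases a with _ | a
      · simp [bd]
      · simp only [bd, Matrix.smul_apply, Matrix.one_apply, Option.some.injEq]
        split_ifs <;> simp
    rw [e1, Finset.mul_sum]
    simp only [e2, e3]
    split_ifs with h
    · have e4 : ∀ g, ι (α g (l • (1 : A))) = l • (1 : N) := by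
        intro g
        rw [hl0 g 1 (map_one _), ← Complex.coe_smul l (1 : A), map_smul, map_one, Complex.coe_smul]
      simp only [e4, mul_smul_comm, mul_one]
      rw [← Finset.smul_sum]
    · simp
  obtain ⟨H', hH'⟩ : ∃ H' : Matrix (Option J) (Option J) N, H' = l⁻¹ • H := ⟨_, rfl⟩
  have hH'a : ∀ a b, H' a b = l⁻¹ • H a b := fun a b => by rw [hH', Matrix.smul_apply]
  obtain ⟨U, hU⟩ := p1
  obtain ⟨Jm, hJm⟩ : ∃ Jm : Matrix (Option J) (Option J) N,
    Jm = l • ((U⁻¹ : (Matrix (Option J) (Option J) N)ˣ) : Matrix (Option J) (Option J) N) := ⟨_, rfl⟩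
  have hHJ : H' * Jm = 1 := by
    rw [hH', hJm, ← hU, smul_mul_smul_comm, inv_mul_cancel₀ hl.ne', one_smul, Units.mul_inv]
  have hJH : Jm * H' = 1 := by
    rw [hH', hJm, ← hU, smul_mul_smul_comm, mul_inv_cancel₀ hl.ne', one_smul, Units.inv_mul]
  have hιl : ∀ u : A, ι (l • u) = l • ι u := by
    intro u
    rw [← Complex.coe_smul l u, map_smul, Complex.coe_smul]
  have d1 : ∀ j, H' none none * r j = ι c * r j := by
    intro j
    rw [← hrζ j, hH'a, ← mul_assoc, smul_mul_assoc, c1, hιl, smul_smul, inv_mul_cancel₀ hl.ne',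
      one_smul, map_mul, mul_assoc]
  have d2 : ∀ a j, H' (some a) none * r j = 0 := by
    intro a j
    rw [← hrζ j, hH'a, ← mul_assoc, smul_mul_assoc, c2, smul_zero, zero_mul]
  have hrζ' : ∀ j, star (r j) * ι ζ = star (r j) := by
    intro j
    have := congrArg star (hrζ j)
    rwa [star_mul, ← map_star, hζs.star_eq] at this
  have d3 : ∀ j, star (r j) * ι (star c) * H' none none = star (r j) := by
    intro j
    rw [← hrζ' j, hH'a, mul_assoc (star (r j)), ← map_mul, mul_smul_comm, mul_assoc, c3, hιl,
      mul_smul_comm, smul_smul, inv_mul_cancel₀ hl.ne', one_smul]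
  have d4 : ∀ j b, star (r j) * ι (star c) * H' none (some b) = 0 := by
    intro j b
    rw [← hrζ' j, hH'a, mul_assoc (star (r j)), ← map_mul, mul_smul_comm, mul_assoc, c4,
      mul_zero, smul_zero]
  have d5 : ∀ a b, H' a (some b) * (1 - q) = if a = some b then 1 - q else 0 := by
    intro a b
    rw [hH'a, smul_mul_assoc, c6]
    split_ifs
    · rw [smul_smul, inv_mul_cancel₀ hl.ne', one_smul]
    · rw [smul_zero]
  have hcr : ∀ i j, star (r i) * ι (star c) * (ι c * r j) = star (r i) * r j := by
    intro i j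
    calc star (r i) * ι (star c) * (ι c * r j) = star (r i) * ι (star c) * (ι c * (ι ζ * r j)) := by
          rw [hrζ]
      _ = star (r i) * (ι (star c) * ι c * ι ζ) * r j := by noncomm_ring
      _ = star (r i) * ι ζ * r j := by rw [← map_mul, ← map_mul, hcc]
      _ = _ := by rw [hrζ']
  -- the matrices
  have hE : (mE : Matrix (Option J) (Option J) N) * mE = mE := by
    ext a b
    rw [Matrix.mul_apply, Fintype.sum_option]
    rcases a with _ | a <;> rcases b with _ | b <;> simp [mE]
  have hEr : ∀ r : J → N, (mE : Matrix (Option J) (Option J) N) * mr r = mr r := by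
    intro r
    ext a b
    rw [Matrix.mul_apply, Fintype.sum_option]
    rcases a with _ | a <;> rcases b with _ | b <;> simp [mE, mr]
  have hrE : ∀ r : J → N, mr r * (mE : Matrix (Option J) (Option J) N) = 0 := by
    intro r
    ext a b
    rw [Matrix.mul_apply, Fintype.sum_option]
    rcases a with _ | a <;> rcases b with _ | b <;> simp [mE, mr]
  have hcE : ∀ r : J → N, mc r * (mE : Matrix (Option J) (Option J) N) = mc r := by
    intro r
    ext a b
    rw [Matrix.mul_apply, Fintype.sum_option]
    rcases a with _ | a <;> rcases b with _ | b <;> simp [mE, mc]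
  have hEc : ∀ r : J → N, (mE : Matrix (Option J) (Option J) N) * mc r = 0 := by
    intro r
    ext a b
    rw [Matrix.mul_apply, Fintype.sum_option]
    rcases a with _ | a <;> rcases b with _ | b <;> simp [mE, mc]
  have hEQ : (mE : Matrix (Option J) (Option J) N) * md q = 0 := by
    ext a b
    rw [Matrix.mul_apply, Fintype.sum_option]
    rcases a with _ | a <;> rcases b with _ | b <;> simp [mE, md]
  have hσρ : ∀ s t : J → N, (∀ i j, s i * t j = if i = j then q else 0) →
      mc s * mr t = md q := by
    intro s t h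
    ext a b
    rw [Matrix.mul_apply, Fintype.sum_option]
    rcases a with _ | a <;> rcases b with _ | b <;> simp [mc, mr, md, h]
  have hH1 : H' * mr r = mr (fun j => ι c * r j) := by
    ext a b
    rw [Matrix.mul_apply, Fintype.sum_option]
    rcases a with _ | a <;> rcases b with _ | b <;> simp [mr, d1, d2]
  have hH2 : mc (fun j => star (r j) * ι (star c)) * H' = mc fun j => star (r j) := by
    ext a b
    rw [Matrix.mul_apply, Fintype.sum_option]
    rcases a with _ | a <;> rcases b with _ | b <;> simp [mc, d3, d4]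
  have hone : (1 : Matrix (Option J) (Option J) N) - mE - md q = md (1 - q) := by
    ext a b
    rcases a with _ | a <;> rcases b with _ | b <;>
      simp [mE, md, Matrix.sub_apply, Matrix.one_apply]
    split_ifs <;> simp
  have hH3 : H' * (1 - mE - md q) = 1 - mE - md q := by
    rw [hone]
    ext a b
    rw [Matrix.mul_apply, Fintype.sum_option]
    rcases b with _ | b
    · rcases a with _ | a <;> simp [md]
    · have : ∀ i : J, H' a (some i) * md (1 - q) (some i) (some b) =
          if i = b then H' a (some i) * (1 - q) else 0 := by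
        intro i
        simp only [md]
        split_ifs <;> simp
      rw [Finset.sum_congr rfl fun i _ => this i]
      rw [Finset.sum_ite_eq' Finset.univ b]
      simp only [Finset.mem_univ, if_true, d5]
      rcases a with _ | a
      · simp [md]
      · simp only [md, mul_zero, zero_add, Option.some.injEq]
  have y1 := yz mE (mr r) (mr fun j => ι c * r j) (mc fun j => star (r j))
    (mc fun j => star (r j) * ι (star c)) H' Jm (md q) hE (hEr _) (hEr _) (hrE _) (hcE _) (hEc _)
    (hcE _) (hσρ _ _ hrr) hEQ hH1 hH2 hH3 hHJ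
  have y2 := yz mE (mr fun j => ι c * r j) (mr r) (mc fun j => star (r j) * ι (star c))
    (mc fun j => star (r j)) Jm H' (md q) hE (hEr _) (hEr _) (hrE _) (hcE _) (hEc _)
    (hcE _) (hσρ _ _ fun i j => by rw [hcr, hrr]) hEQ
    (by rw [← hH1, ← mul_assoc, hJH, one_mul]) (by rw [← hH2, mul_assoc, hHJ, mul_one])
    (by
      calc Jm * (1 - mE - md q) = Jm * (H' * (1 - mE - md q)) := by rw [hH3]
        _ = _ := by rw [← mul_assoc, hJH, one_mul]) hJH
  obtain ⟨Ym, hYm⟩ : ∃ Ym, Ym = (mE + mr fun j => ι c * r j) * (H' - (1 - mE)) *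
    (mE + mc fun j => star (r j)) := ⟨_, rfl⟩
  obtain ⟨Zm, hZm⟩ : ∃ Zm, Zm = (mE + mr r) * (Jm - (1 - mE)) *
    (mE + mc fun j => star (r j) * ι (star c)) := ⟨_, rfl⟩
  rw [← hYm, ← hZm] at y1 y2
  have hent : ∀ M M' : Matrix (Option J) (Option J) N, M * mE = M →
      (M * M') none none = M none none * M' none none := by
    intro M M' h
    have h1 : ∀ j, M none (some j) = 0 := by
      intro j
      rw [← h, Matrix.mul_apply, Fintype.sum_option]
      simp [mE]
    rw [Matrix.mul_apply, Fintype.sum_option]
    simp [h1]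
  have hEE : ∀ s : J → N, ((mE : Matrix (Option J) (Option J) N) + mc s) * mE = mE + mc s := by
    intro s
    rw [add_mul, hE, hcE]
  have hYE : Ym * mE = Ym := by
    rw [hYm, mul_assoc, hEE]
  have hZE : Zm * mE = Zm := by
    rw [hZm, mul_assoc, hEE]
  have z1 : Ym none none * Zm none none = 1 := by
    rw [← hent _ _ hYE, y1]; rfl
  have z2 : Zm none none * Ym none none = 1 := by
    rw [← hent _ _ hZE, y2]; rfl
  -- explicit formula
  obtain ⟨Fm, hFm⟩ : ∃ Fm : Matrix (Option J) (Option J) N, Fm = 1 - mE := ⟨_, rfl⟩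
  obtain ⟨R', hR'⟩ : ∃ R' : Option J → N, R' = fun a => match a with
    | none => 1
    | some j => ι c * r j := ⟨_, rfl⟩
  obtain ⟨S, hS⟩ : ∃ S : Option J → N, S = fun a => match a with
    | none => 1
    | some j => star (r j) := ⟨_, rfl⟩
  have hfor : Ym none none = ∑ b, (∑ a, R' a * (H' - Fm) a b) * S b := by
    rw [hYm, ← hFm]
    apply comp_eq
    · intro a
      rw [hR']
      rcases a with _ | a <;> simp [mE, mr, Matrix.add_apply]
    · intro b
      rw [hS]
      rcases b with _ | b <;> simp [mE, mc, Matrix.add_apply]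
  have hlY : l • Ym none none = ∑ b, (∑ a, R' a * (H a b - l • Fm a b)) *
      S b := by
    rw [hfor, Finset.smul_sum]
    apply Finset.sum_congr rfl
    intro b _
    rw [← smul_mul_assoc, Finset.smul_sum]
    congr 1
    apply Finset.sum_congr rfl
    intro a _
    rw [← mul_smul_comm, Matrix.sub_apply, hH'a, smul_sub, smul_smul, mul_inv_cancel₀ hl.ne',
      one_smul]
  have hFa : ∀ a b : Option J, Fm a b =
      if a = b ∧ a ≠ none then 1 else 0 := by
    intro a b
    rw [hFm]
    rcases a with _ | a <;> rcases b with _ | b <;> simp [mE, Matrix.sub_apply, Matrix.one_apply]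
  have hβl : ∀ (g : G) (u : N), β g u = u → β g (l • u) = l • u := by
    intro g u hu
    rw [← Complex.coe_smul l u, map_smul, hu]
  refine ⟨l • Ym none none, ?_, fun g => ?_, ?_⟩
  · refine ⟨⟨l • Ym none none, l⁻¹ • Zm none none, ?_, ?_⟩, rfl⟩
    · rw [smul_mul_smul_comm, z1, mul_inv_cancel₀ hl.ne', one_smul]
    · rw [smul_mul_smul_comm, z2, inv_mul_cancel₀ hl.ne', one_smul]
  · rw [hlY, map_sum]
    apply Finset.sum_congr rfl
    intro b _
    rw [map_mul, map_sum]
    congr 1
    · apply Finset.sum_congr rfl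
      intro a _
      rw [map_mul, map_sub, p2]
      congr 1
      · rw [hR']
        rcases a with _ | a
        · exact map_one _
        · show β g (ι c * r a) = ι c * r a
          rw [map_mul, hι, hc, hrβ]
      · congr 1
        apply hβl
        rw [hFa]
        split_ifs
        · exact map_one _
        · exact map_zero _
    · rw [hS]
      rcases b with _ | b
      · exact map_one _
      · show β g (star (r b)) = star (r b)
        rw [map_star, hrβ]
  · have hx1 : ι x = ∑ b, (∑ a, R' a * ι (if a = none ∧ b = (none : Option J) then x else 0)) *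
        S b := by
      rw [Fintype.sum_option, Fintype.sum_option]
      simp [hR', hS]
    have hdiff : l • Ym none none - ι x = ∑ b, (∑ a, R' a * ((H a b -
        ι (if a = none ∧ b = (none : Option J) then x else 0)) -
          l • Fm a b)) * S b := by
      rw [hlY, hx1, ← Finset.sum_sub_distrib]
      apply Finset.sum_congr rfl
      intro b _
      rw [← sub_mul, ← Finset.sum_sub_distrib]
      congr 1
      apply Finset.sum_congr rfl
      intro a _
      rw [← mul_sub]
      congr 1
      abel
    have n1 : ‖(1 : N)‖ ≤ 1 := by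
      rcases subsingleton_or_nontrivial N with h | h
      · rw [Subsingleton.elim (1 : N) 0, norm_zero]; exact zero_le_one
      · rw [CStarRing.norm_one]
    have nR : ∀ a, ‖R' a‖ ≤ 1 + ‖c‖ := by
      intro a
      rw [hR']
      rcases a with _ | a
      · exact n1.trans (by linarith [norm_nonneg c])
      · show ‖ι c * r a‖ ≤ 1 + ‖c‖
        calc _ ≤ ‖ι c‖ * ‖r a‖ := norm_mul_le _ _
          _ ≤ ‖c‖ * 1 := mul_le_mul (NonUnitalStarAlgHom.norm_apply_le ι c) (hrn a)
            (norm_nonneg _) (norm_nonneg _)
          _ ≤ 1 + ‖c‖ := by linarith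
    have nS : ∀ b, ‖S b‖ ≤ 1 := by
      intro b
      rw [hS]
      rcases b with _ | b
      · exact n1
      · show ‖star (r b)‖ ≤ 1
        rw [norm_star]; exact hrn b
    have nD : ∀ a b, ‖(H a b - ι (if a = none ∧ b = (none : Option J) then x else 0)) -
          l • Fm a b‖ ≤ l * (M + 1) := by
      intro a b
      calc _ ≤ ‖(H a b - ι (if a = none ∧ b = (none : Option J) then x else 0))‖ +
            ‖l • Fm a b‖ := norm_sub_le _ _
        _ ≤ l * M + l * 1 := by
            apply add_le_add (c5 a b)
            rw [norm_smul, Real.norm_of_nonneg hl.le, hFa]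
            apply mul_le_mul_of_nonneg_left _ hl.le
            split_ifs
            · exact n1
            · rw [norm_zero]; exact zero_le_one
        _ = l * (M + 1) := by ring
    rw [hdiff]
    calc _ ≤ ∑ b : Option J, ‖(∑ a, R' a * ((H a b -
        ι (if a = none ∧ b = (none : Option J) then x else 0)) -
          l • Fm a b)) * S b‖ := norm_sum_le _ _
      _ ≤ ∑ b : Option J, (∑ _a : Option J, (1 + ‖c‖) * (l * (M + 1))) * 1 := by
          apply Finset.sum_le_sum
          intro b _
          refine (norm_mul_le _ _).trans (mul_le_mul ?_ (nS b) (norm_nonneg _)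
            (Finset.sum_nonneg fun _ _ => by positivity))
          refine (norm_sum_le _ _).trans (Finset.sum_le_sum fun a _ => ?_)
          exact (norm_mul_le _ _).trans (mul_le_mul (nR a) (nD a b) (norm_nonneg _) (by positivity))
      _ = _ := by
          rw [Finset.sum_const, Finset.sum_const, Finset.card_univ, nsmul_eq_mul, nsmul_eq_mul]
          ring

end Pool.Agent.H898SR
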