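import Pool.Agent.H898SR.Alg

/-! The crossed product as a corner of matrices over the fixed point algebra. -/

set_option autoImplicit false
set_option linter.unusedSectionVars false

noncomputable section

namespace Pool.Agent.H898SR

open Filter Topology Pool.Agent.H923R2.FZ Matrix

section matsr

variable {B : Type} [NormedRing B]

/-- dense units in matrices -/
def DU (B : Type) [NormedRing B] (P : Type) [Fintype P] [DecidableEq P] : Prop :=
  ∀ X : Matrix P P B, ∀ ε : ℝ, 0 < ε → ∃ W : Matrix P P B, IsUnit W ∧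
    ∀ i j, ‖W i j - X i j‖ < ε

theorem DU.equiv {P P' : Type} [Fintype P] [DecidableEq P] [Fintype P'] [DecidableEq P']
    (e : P ≃ P') (h : DU B P) : DU B P' := by
  intro X ε hε
  obtain ⟨W, hW, hWX⟩ := h (X.submatrix e e) ε hε
  obtain ⟨u, rfl⟩ := hW
  refine ⟨(u : Matrix P P B).submatrix e.symm e.symm, ?_, ?_⟩
  · refine ⟨⟨(u : Matrix P P B).submatrix e.symm e.symm,
      (↑u⁻¹ : Matrix P P B).submatrix e.symm e.symm, ?_, ?_⟩, rfl⟩
    · rw [submatrix_mul_equiv, Units.mul_inv, submatrix_one_equiv]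
    · rw [submatrix_mul_equiv, Units.inv_mul, submatrix_one_equiv]
  · intro i j
    have := hWX (e.symm i) (e.symm j)
    simpa using this

theorem DU.sum {P P' : Type} [Fintype P] [DecidableEq P] [Fintype P'] [DecidableEq P']
    (h : DU B P) (h' : DU B P') : DU B (P ⊕ P') := by
  intro X ε hε
  obtain ⟨a, b, c, d, rfl⟩ : ∃ a b c d, X = fromBlocks a b c d :=
    ⟨_, _, _, _, (fromBlocks_toBlocks X).symm⟩
  obtain ⟨a', ha', ha⟩ := h a ε hε
  obtain ⟨u, rfl⟩ := ha'
  obtain ⟨d', hd', hd⟩ := h' (d - c * (↑u⁻¹ : Matrix P P B) * b) ε hε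
  obtain ⟨v, rfl⟩ := hd'
  refine ⟨fromBlocks (u : Matrix P P B) b c (c * (↑u⁻¹ : Matrix P P B) * b + (v : Matrix P' P' B)), ?_, ?_⟩
  · have e1 : fromBlocks (u : Matrix P P B) b c (c * (↑u⁻¹ : Matrix P P B) * b + (v : Matrix P' P' B)) =
        fromBlocks 1 0 (c * (↑u⁻¹ : Matrix P P B)) 1 *
        fromBlocks (u : Matrix P P B) 0 0 (v : Matrix P' P' B) *
        fromBlocks 1 ((↑u⁻¹ : Matrix P P B) * b) 0 1 := by
      rw [fromBlocks_multiply, fromBlocks_multiply]
      congr 1
      · simp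
      · simp [← Matrix.mul_assoc]
      · simp [Matrix.mul_assoc]
      · simp [Matrix.mul_assoc]
    rw [e1]
    refine IsUnit.mul (IsUnit.mul ?_ ?_) ?_
    · refine ⟨⟨fromBlocks 1 0 (c * (↑u⁻¹ : Matrix P P B)) 1,
        fromBlocks 1 0 (-(c * (↑u⁻¹ : Matrix P P B))) 1, ?_, ?_⟩, rfl⟩
      · rw [fromBlocks_multiply, ← fromBlocks_one]; congr 1 <;> simp
      · rw [fromBlocks_multiply, ← fromBlocks_one]; congr 1 <;> simp
    · refine ⟨⟨fromBlocks (u : Matrix P P B) 0 0 (v : Matrix P' P' B),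
        fromBlocks (↑u⁻¹ : Matrix P P B) 0 0 (↑v⁻¹ : Matrix P' P' B), ?_, ?_⟩, rfl⟩
      · rw [fromBlocks_multiply, ← fromBlocks_one]; congr 1 <;> simp
      · rw [fromBlocks_multiply, ← fromBlocks_one]; congr 1 <;> simp
    · refine ⟨⟨fromBlocks 1 ((↑u⁻¹ : Matrix P P B) * b) 0 1,
        fromBlocks 1 (-((↑u⁻¹ : Matrix P P B) * b)) 0 1, ?_, ?_⟩, rfl⟩
      · rw [fromBlocks_multiply, ← fromBlocks_one]; congr 1 <;> simp
      · rw [fromBlocks_multiply, ← fromBlocks_one]; congr 1 <;> simp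
  · rintro (i | i) (j | j)
    · exact ha i j
    · simpa using hε
    · simpa using hε
    · have := hd i j
      have e2 : (v : Matrix P' P' B) i j - (d - c * (↑u⁻¹ : Matrix P P B) * b) i j =
          (c * (↑u⁻¹ : Matrix P P B) * b + (v : Matrix P' P' B)) i j - d i j := by
        rw [Matrix.sub_apply, Matrix.add_apply]; abel
      rw [e2] at this
      exact this

theorem DU_one (h : ∀ x : B, ∀ ε : ℝ, 0 < ε → ∃ b, IsUnit b ∧ ‖b - x‖ < ε) : DU B (Fin 1) := by
  intro X ε hε
  obtain ⟨b, hb, hbx⟩ := h (X 0 0) ε hε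
  obtain ⟨u, rfl⟩ := hb
  refine ⟨Matrix.of fun _ _ => (u : B), ?_, ?_⟩
  · refine ⟨⟨Matrix.of fun _ _ => (u : B), Matrix.of fun _ _ => (↑u⁻¹ : B), ?_, ?_⟩, rfl⟩
    · ext i j
      fin_cases i; fin_cases j
      simp [Matrix.mul_apply]
    · ext i j
      fin_cases i; fin_cases j
      simp [Matrix.mul_apply]
  · intro i j
    fin_cases i; fin_cases j
    exact hbx

theorem DU_fin (h : ∀ x : B, ∀ ε : ℝ, 0 < ε → ∃ b, IsUnit b ∧ ‖b - x‖ < ε) :
    ∀ n : ℕ, DU B (Fin n)
  | 0 => fun _ _ _ => ⟨1, isUnit_one, fun i => i.elim0⟩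
  | n + 1 => ((DU_fin h n).sum (DU_one h)).equiv finSumFinEquiv

theorem DU_all (h : ∀ x : B, ∀ ε : ℝ, 0 < ε → ∃ b, IsUnit b ∧ ‖b - x‖ < ε)
    (P : Type) [Fintype P] [DecidableEq P] : DU B P :=
  (DU_fin h (Fintype.card P)).equiv (Fintype.equivFin P).symm

end matsr

section cov

variable {A G : Type} [CStarAlgebra A] [Group G] (α : G → (A ≃⋆ₐ[ℂ] A))
variable {m n p : Type} [Fintype m] [DecidableEq m] [Fintype n] [DecidableEq n] [Fintype p]
  [DecidableEq p]

/-- covariant matrices -/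
def CV (σ : G → Equiv.Perm m) (τ : G → Equiv.Perm n) (M : Matrix m n A) : Prop :=
  ∀ t i j, α t (M i j) = M (σ t i) (τ t j)

variable {α} {σ : G → Equiv.Perm m} {τ : G → Equiv.Perm n} {ρ : G → Equiv.Perm p}

theorem CV.mul {M : Matrix m n A} {N : Matrix n p A} (hM : CV α σ τ M) (hN : CV α τ ρ N) :
    CV α σ ρ (M * N) := by
  intro t i j
  rw [Matrix.mul_apply, Matrix.mul_apply, map_sum]
  rw [← Equiv.sum_comp (τ t) fun k => M (σ t i) k * N k (ρ t j)]
  apply Finset.sum_congr rfl
  intro k _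
  rw [map_mul, hM, hN]

theorem CV.one : CV α σ σ (1 : Matrix m m A) := by
  intro t i j
  rw [Matrix.one_apply, Matrix.one_apply]
  by_cases h : i = j
  · subst h; simp
  · have : σ t i ≠ σ t j := fun h' => h ((σ t).injective h')
    simp [h, this]

theorem CV.sub {M N : Matrix m n A} (hM : CV α σ τ M) (hN : CV α σ τ N) : CV α σ τ (M - N) := by
  intro t i j
  rw [Matrix.sub_apply, Matrix.sub_apply, map_sub, hM, hN]

theorem CV.add {M N : Matrix m n A} (hM : CV α σ τ M) (hN : CV α σ τ N) : CV α σ τ (M + N) := by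
  intro t i j
  rw [Matrix.add_apply, Matrix.add_apply, map_add, hM, hN]

theorem CV.inv {M N : Matrix m m A} (hM : CV α σ σ M) (h1 : M * N = 1) (h2 : N * M = 1) :
    CV α σ σ N := by
  intro t
  obtain ⟨N', hN'⟩ : ∃ N' : Matrix m m A, N' = fun i j =>
    α t (N ((σ t).symm i) ((σ t).symm j)) := ⟨_, rfl⟩
  have h3 : M * N' = 1 := by
    ext i j
    rw [Matrix.mul_apply, ← Equiv.sum_comp (σ t)]
    have h4 : ∀ k, M i (σ t k) * N' (σ t k) j =
        α t (M ((σ t).symm i) k * N k ((σ t).symm j)) := by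
      intro k
      rw [hN', map_mul, hM, Equiv.apply_symm_apply]
      show _ * α t (N ((σ t).symm (σ t k)) ((σ t).symm j)) = _
      rw [Equiv.symm_apply_apply]
    simp only [h4]
    rw [← map_sum, ← Matrix.mul_apply, h1, CV.one t, Equiv.apply_symm_apply,
      Equiv.apply_symm_apply]
  have h5 : N' = N := by
    calc N' = N * M * N' := by rw [h2, Matrix.one_mul]
      _ = N := by rw [Matrix.mul_assoc, h3, Matrix.mul_one]
  intro i j
  have := congrFun (congrFun h5 (σ t i)) (σ t j)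
  rw [hN'] at this
  simpa using this

end cov

theorem schur {R : Type} [Ring R] (q W W' T : R) (hq : q * q = q) (h1 : W * W' = 1)
    (h2 : W' * W = 1) (h3 : (q + (1 - q) * W * (1 - q)) * T = 1)
    (h4 : T * (q + (1 - q) * W * (1 - q)) = 1) :
    q * (W - W * ((1 - q) * T * (1 - q)) * W) * q * (W' * q) = q ∧
    q * W' * q * ((W - W * ((1 - q) * T * (1 - q)) * W) * q) = q := by
  obtain ⟨p, hp⟩ : ∃ p, p = 1 - q := ⟨_, rfl⟩
  rw [← hp] at h3 h4 ⊢
  have hqp : q * p = 0 := by rw [hp, mul_sub, mul_one, hq, sub_self]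
  have hpq : p * q = 0 := by rw [hp, sub_mul, one_mul, hq, sub_self]
  have hpp : p * p = p := by
    calc p * p = p * (1 - q) := by rw [← hp]
      _ = p := by rw [mul_sub, mul_one, hpq, sub_zero]
  have hq1 : q = 1 - p := by rw [hp]; abel
  have hqT : q * T = q := by
    calc q * T = q * (q + p * W * p) * T := by
          rw [mul_add, hq, show q * (p * W * p) = (q * p) * W * p by simp only [mul_assoc], hqp,
            zero_mul, zero_mul, add_zero]
      _ = q := by rw [mul_assoc, h3, mul_one]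
  have hTq : T * q = q := by
    calc T * q = T * ((q + p * W * p) * q) := by
          rw [add_mul, hq, mul_assoc (p * W), hpq, mul_zero, add_zero]
      _ = q := by rw [← mul_assoc, h4, one_mul]
  have a1 : p * W * (p * T * p) = p := by
    have : (q + p * W * p) * T * p = q * T * p + p * W * (p * T * p) := by noncomm_ring
    rw [h3, one_mul, hqT, hqp, zero_add] at this
    exact this.symm
  have a2 : (p * T * p) * W * p = p := by
    have : p * (T * (q + p * W * p)) = p * (T * q) + (p * T * p) * W * p := by noncomm_ring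
    rw [h4, mul_one, hTq, hpq, zero_add] at this
    exact this.symm
  obtain ⟨S, hS⟩ : ∃ S, S = p * T * p := ⟨_, rfl⟩
  rw [← hS] at a1 a2 ⊢
  have hSq : S * q = 0 := by rw [hS, mul_assoc, hpq, mul_zero]
  have hqS : q * S = 0 := by rw [hS, ← mul_assoc, ← mul_assoc, hqp, zero_mul, zero_mul]
  have b1 : (W - W * S * W) * p = 0 := by
    rw [sub_mul, mul_assoc (W * S), mul_assoc W S, ← mul_assoc S W p, a2, sub_self]
  have b2 : p * (W - W * S * W) = 0 := by
    rw [mul_sub, ← mul_assoc, ← mul_assoc, a1, sub_self]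
  constructor
  · calc q * (W - W * S * W) * q * (W' * q) = q * ((W - W * S * W) * (1 - p)) * (W' * q) := by
          rw [← hq1]; simp only [mul_assoc]
      _ = q * (W - W * S * W) * (W' * q) := by rw [mul_sub, b1, mul_one, sub_zero]
      _ = q * (W * W') * q - q * W * S * (W * W') * q := by noncomm_ring
      _ = q := by rw [h1, mul_one, mul_one, hq, mul_assoc (q * W), hSq, mul_zero, sub_zero]
  · calc q * W' * q * ((W - W * S * W) * q) = q * W' * ((1 - p) * (W - W * S * W)) * q := by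
          rw [← hq1]; simp only [mul_assoc]
      _ = q * W' * (W - W * S * W) * q := by
          rw [sub_mul (1 : R) p, b2, one_mul, sub_zero]
      _ = q * (W' * W) * q - q * (W' * W) * S * W * q := by noncomm_ring
      _ = q := by rw [h2, mul_one, hq, hqS, zero_mul, zero_mul, sub_zero]

end Pool.Agent.H898SR
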