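import Pool.Agent.H898SR.Cross

/-! The crossed product as a corner of matrices over the fixed point algebra. -/

set_option autoImplicit false
set_option linter.unusedSectionVars false

noncomputable section

namespace Pool.Agent.H898SR

open Filter Topology Pool.Agent.H923R2.FZ Matrix

section top

variable {N : Type} [CStarAlgebra N] {n : Type} [Fintype n] [DecidableEq n]

theorem units_open : IsOpen {x : Matrix n n N | IsUnit x} := by
  letI inst : NormedRing (Matrix n n N) := Matrix.linftyOpNormedRing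
  have hcomp : @CompleteSpace (Matrix n n N) (PseudoMetricSpace.toUniformSpace) :=
    (inferInstance : CompleteSpace (n → n → N))
  haveI : HasSummableGeomSeries (Matrix n n N) := by
    constructor
    intro x hx
    exact @summable_geometric_of_norm_lt_one (Matrix n n N) inst _ x hx
  exact Units.isOpen

theorem inv_cont (u : (Matrix n n N)ˣ) :
    ContinuousAt (Ring.inverse : Matrix n n N → Matrix n n N) (u : Matrix n n N) := by
  letI inst : NormedRing (Matrix n n N) := Matrix.linftyOpNormedRing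
  have hcomp : @CompleteSpace (Matrix n n N) (PseudoMetricSpace.toUniformSpace) :=
    (inferInstance : CompleteSpace (n → n → N))
  haveI : HasSummableGeomSeries (Matrix n n N) := by
    constructor
    intro x hx
    exact @summable_geometric_of_norm_lt_one (Matrix n n N) inst _ x hx
  exact NormedRing.inverse_continuousAt u

end top

section fixd

variable {A G : Type} [CStarAlgebra A] [Group G]

/-- the fixed points, as a subring -/
def fixS (α : G → (A ≃⋆ₐ[ℂ] A)) : Subring A where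
  carrier := {x | ∀ g, α g x = x}
  mul_mem' := fun {a b} ha hb g => by rw [map_mul, ha g, hb g]
  one_mem' := fun g => map_one _
  add_mem' := fun {a b} ha hb g => by rw [map_add, ha g, hb g]
  zero_mem' := fun g => map_zero _
  neg_mem' := fun {a} ha g => by rw [map_neg, ha g]

/-- the translation action -/
def tr : G → Equiv.Perm G := fun t => Equiv.mulRight t⁻¹

theorem cv_iff (α : G → (A ≃⋆ₐ[ℂ] A)) (hα1 : ∀ a : A, α 1 a = a)
    (hαm : ∀ (g h : G) (a : A), α (g * h) a = α g (α h a)) (M : Matrix G G A) :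
    CV α tr tr M ↔ ∃ c : G → A, ∀ h g, M h g = α h⁻¹ (c (h * g⁻¹)) := by
  constructor
  · intro h
    refine ⟨fun k => M 1 k⁻¹, fun h' g => ?_⟩
    have h1 := h h' h' g
    have h2 : M 1 (h' * g⁻¹)⁻¹ = α h' (M h' g) := by
      rw [h1]
      show _ = M (h' * h'⁻¹) (g * h'⁻¹)
      rw [mul_inv_cancel, _root_.mul_inv_rev, inv_inv]
    show _ = α h'⁻¹ (M 1 (h' * g⁻¹)⁻¹)
    rw [h2, ← hαm, inv_mul_cancel, hα1]
  · rintro ⟨c, hc⟩ t i j
    show _ = M (i * t⁻¹) (j * t⁻¹)
    rw [hc, hc, ← hαm]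
    congr 2
    · rw [_root_.mul_inv_rev, inv_inv]
    · group

theorem crossed [Fintype G] [DecidableEq G] (α : G → (A ≃⋆ₐ[ℂ] A)) (hα1 : ∀ a : A, α 1 a = a)
    (hαm : ∀ (g h : G) (a : A), α (g * h) a = α g (α h a))
    (hB : ∀ x : A, (∀ g, α g x = x) → ∀ ε : ℝ, 0 < ε → ∃ b : A, IsUnit b ∧ (∀ g, α g b = b) ∧
      ‖b - x‖ < ε)
    (P : Type) [Fintype P] [DecidableEq P] (a b : P → A) (η : ℝ)
    (hη : (Fintype.card G : ℝ) * η < 1)
    (hab : ∀ g : G, ‖∑ j, a j * α g (b j) - (if g = 1 then 1 else 0)‖ ≤ η)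
    (M : Matrix G G A) (hM : CV α tr tr M) :
    M ∈ closure {N : Matrix G G A | CV α tr tr N ∧ ∃ N' : Matrix G G A, CV α tr tr N' ∧
      N * N' = 1 ∧ N' * N = 1} := by
  obtain ⟨id', hid⟩ : ∃ id' : G → Equiv.Perm P, id' = fun _ => Equiv.refl P := ⟨_, rfl⟩
  obtain ⟨R, hR⟩ : ∃ R : Matrix G P A, R = Matrix.of fun h j => α h⁻¹ (a j) := ⟨_, rfl⟩
  obtain ⟨C0, hC0⟩ : ∃ C0 : Matrix P G A, C0 = Matrix.of fun j g => α g⁻¹ (b j) := ⟨_, rfl⟩
  have hRc : CV α tr id' R := by
    intro t i j
    rw [hR, hid]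
    show α t (α i⁻¹ (a j)) = α (i * t⁻¹)⁻¹ (a j)
    rw [← hαm, _root_.mul_inv_rev, inv_inv]
  have hCc : CV α id' tr C0 := by
    intro t i j
    rw [hC0, hid]
    show α t (α j⁻¹ (b i)) = α (j * t⁻¹)⁻¹ (b i)
    rw [← hαm, _root_.mul_inv_rev, inv_inv]
  have hZu : IsUnit (R * C0) := by
    have h1 := unit_mat (R * C0 - 1) η (fun h g => by
      rw [Matrix.sub_apply, Matrix.mul_apply, Matrix.one_apply]
      have h2 : ∑ j, R h j * C0 j g - (if h = g then 1 else 0) =
          α h⁻¹ (∑ j, a j * α (h * g⁻¹) (b j) - (if h * g⁻¹ = 1 then 1 else 0)) := by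
        rw [map_sub, map_sum]
        congr 1
        · apply Finset.sum_congr rfl
          intro j _
          rw [map_mul, ← hαm, hR, hC0]
          show α h⁻¹ (a j) * α g⁻¹ (b j) = _
          rw [inv_mul_cancel_left]
        · by_cases h3 : h = g
          · subst h3
            rw [if_pos rfl, if_pos (mul_inv_cancel h), map_one]
          · rw [if_neg h3, if_neg (fun h4 => h3 (mul_inv_eq_one.1 h4)), map_zero]
      rw [h2]
      refine le_trans (le_of_eq ?_) (hab (h * g⁻¹))
      exact StarAlgEquiv.norm_map (α h⁻¹) _) hη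
    rwa [add_sub_cancel] at h1
  obtain ⟨Z, hZ⟩ := hZu
  have hZc : CV α tr tr (Z : Matrix G G A) := by rw [hZ]; exact hRc.mul hCc
  have hZic : CV α tr tr (↑Z⁻¹ : Matrix G G A) := hZc.inv Z.mul_inv Z.inv_mul
  obtain ⟨C, hC⟩ : ∃ C : Matrix P G A, C = C0 * (↑Z⁻¹ : Matrix G G A) := ⟨_, rfl⟩
  have hRC : R * C = 1 := by rw [hC, ← Matrix.mul_assoc, ← hZ, Z.mul_inv]
  have hCC : CV α id' tr C := by rw [hC]; exact hCc.mul hZic
  obtain ⟨q, hq⟩ : ∃ q : Matrix P P A, q = C * R := ⟨_, rfl⟩
  have hqc : CV α id' id' q := by rw [hq]; exact hCC.mul hRc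
  have hqq : q * q = q := by
    rw [hq, Matrix.mul_assoc, ← Matrix.mul_assoc R, hRC, Matrix.one_mul]
  have hRq : R * q = R := by rw [hq, ← Matrix.mul_assoc, hRC, Matrix.one_mul]
  have hqC : q * C = C := by rw [hq, Matrix.mul_assoc, hRC, Matrix.mul_one]
  obtain ⟨p, hp⟩ : ∃ p : Matrix P P A, p = 1 - q := ⟨_, rfl⟩
  have hpc : CV α id' id' p := by rw [hp]; exact CV.one.sub hqc
  have hRp : R * p = 0 := by rw [hp, Matrix.mul_sub, Matrix.mul_one, hRq, sub_self]
  have hpC : p * C = 0 := by rw [hp, Matrix.sub_mul, Matrix.one_mul, hqC, sub_self]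
  have hqp : q * p = 0 := by rw [hp, mul_sub, mul_one, hqq, sub_self]
  have hpq : p * q = 0 := by rw [hp, sub_mul, one_mul, hqq, sub_self]
  have hpp : p * p = p := by
    calc p * p = p * (1 - q) := by rw [← hp]
      _ = p := by rw [mul_sub, mul_one, hpq, sub_zero]
  obtain ⟨X, hX⟩ : ∃ X : Matrix P P A, X = C * M * R + p := ⟨_, rfl⟩
  have hXc : CV α id' id' X := by rw [hX]; exact ((hCC.mul hM).mul hRc).add hpc
  have hXp : X * p = p := by
    rw [hX, add_mul, Matrix.mul_assoc (C * M), hRp, Matrix.mul_zero, zero_add, hpp]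
  have hpX : p * X = p := by
    rw [hX, mul_add, ← Matrix.mul_assoc, ← Matrix.mul_assoc, hpC, Matrix.zero_mul, Matrix.zero_mul,
      zero_add, hpp]
  obtain ⟨s0, hs0⟩ : ∃ s0 : Set (Matrix P P A), s0 = {W | CV α id' id' W ∧ ∃ W', CV α id' id' W' ∧
    W * W' = 1 ∧ W' * W = 1} := ⟨_, rfl⟩
  have hXs : X ∈ closure s0 := by
    have h1 : ∀ k : ℕ, ∃ W ∈ s0, ∀ i j, ‖W i j - X i j‖ < 1 / ((k : ℝ) + 1) := by
      intro k
      have hd := DU_all (B := fixS α) (fun x ε hε => by
        obtain ⟨b, hb, hbi, hbx⟩ := hB x.1 x.2 ε hε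
        obtain ⟨u, rfl⟩ := hb
        have hui : ∀ g, α g (↑u⁻¹ : A) = (↑u⁻¹ : A) := by
          intro g
          have h1 : (u : A) * α g (↑u⁻¹ : A) = 1 := by
            rw [← hbi g, ← map_mul, Units.mul_inv, map_one]
          calc α g (↑u⁻¹ : A) = (↑u⁻¹ : A) * (u : A) * α g (↑u⁻¹ : A) := by
                rw [Units.inv_mul, one_mul]
            _ = _ := by rw [mul_assoc, h1, mul_one]
        refine ⟨⟨u, hbi⟩, ⟨⟨⟨u, hbi⟩, ⟨(↑u⁻¹ : A), hui⟩, ?_, ?_⟩, rfl⟩, hbx⟩
        · apply Subtype.ext; exact u.mul_inv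
        · apply Subtype.ext; exact u.inv_mul) P
      have hXf : ∀ i j, ∀ g, α g (X i j) = X i j := by
        intro i j g
        have := hXc g i j
        rw [hid] at this
        exact this
      obtain ⟨W, hW, hWX⟩ := hd (Matrix.of fun i j => ⟨X i j, hXf i j⟩) (1 / ((k : ℝ) + 1))
        (by positivity)
      obtain ⟨u, rfl⟩ := hW
      obtain ⟨φ, hφ⟩ : ∃ φ : fixS α →+* A, φ = (fixS α).subtype := ⟨_, rfl⟩
      have hcc : ∀ V : Matrix P P (fixS α), CV α id' id' (V.map φ) := by
        intro V t i j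
        rw [hid, hφ]
        exact (V i j).2 t
      refine ⟨(u : Matrix P P (fixS α)).map φ, ?_, ?_⟩
      · rw [hs0]
        refine ⟨hcc _, (↑u⁻¹ : Matrix P P (fixS α)).map φ, hcc _, ?_, ?_⟩
        · rw [← Matrix.map_mul, u.mul_inv, Matrix.map_one φ (map_zero _) (map_one _)]
        · rw [← Matrix.map_mul, u.inv_mul, Matrix.map_one φ (map_zero _) (map_one _)]
      · intro i j
        rw [hφ]
        exact hWX i j
    choose W hWs hWX using h1
    refine mem_closure_of_tendsto (f := W) (b := atTop) ?_ (Eventually.of_forall hWs)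
    refine tendsto_pi_nhds.2 fun i => tendsto_pi_nhds.2 fun j => ?_
    rw [tendsto_iff_norm_sub_tendsto_zero]
    exact squeeze_zero (fun k => norm_nonneg _) (fun k => (hWX k i j).le)
      tendsto_one_div_add_atTop_nhds_zero_nat
  obtain ⟨s1, hs1⟩ : ∃ s1 : Set (Matrix P P A), s1 = {W | IsUnit (q + p * W * p)} := ⟨_, rfl⟩
  have hcm : Continuous fun W : Matrix P P A => q + p * W * p :=
    continuous_const.add ((continuous_const.matrix_mul continuous_id).matrix_mul continuous_const)
  have hs1o : IsOpen s1 := by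
    rw [hs1]
    exact units_open.preimage hcm
  have hpXp : q + p * X * p = 1 := by
    rw [hpX, hpp, hp]; abel
  have hXs1 : X ∈ s1 := by
    rw [hs1]
    show IsUnit (q + p * X * p)
    rw [hpXp]; exact isUnit_one
  have hXs2 : X ∈ closure (s1 ∩ s0) := hs1o.inter_closure ⟨hXs1, hXs⟩
  obtain ⟨F, hF⟩ : ∃ F : Matrix P P A → Matrix G G A, F = fun W =>
    R * (W - W * (p * Ring.inverse (q + p * W * p) * p) * W) * C := ⟨_, rfl⟩
  have hFc : ContinuousAt F X := by
    have h1 : ContinuousAt (fun W : Matrix P P A => Ring.inverse (q + p * W * p)) X := by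
      have h2 : ContinuousAt (Ring.inverse : Matrix P P A → Matrix P P A) (q + p * X * p) := by
        rw [hpXp]
        exact inv_cont (1 : (Matrix P P A)ˣ)
      exact ContinuousAt.comp (f := fun W : Matrix P P A => q + p * W * p) h2 hcm.continuousAt
    have h3 : Continuous fun x : Matrix P P A × Matrix P P A =>
        R * (x.1 - x.1 * (p * x.2 * p) * x.1) * C := by
      refine ((continuous_const.matrix_mul (continuous_fst.sub ?_)).matrix_mul continuous_const)
      exact (continuous_fst.matrix_mul ((continuous_const.matrix_mul continuous_snd).matrix_mul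
        continuous_const)).matrix_mul continuous_fst
    rw [hF]
    exact ContinuousAt.comp (f := fun W : Matrix P P A => (W, Ring.inverse (q + p * W * p)))
      (g := fun x : Matrix P P A × Matrix P P A => R * (x.1 - x.1 * (p * x.2 * p) * x.1) * C)
      h3.continuousAt (continuousAt_id.prodMk h1)
  have hFX : F X = M := by
    rw [hF]
    show R * (X - X * (p * Ring.inverse (q + p * X * p) * p) * X) * C = M
    rw [hpXp, Ring.inverse_one, mul_one, hpp, hXp, hpX, hX, add_sub_cancel_right]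
    calc R * (C * M * R) * C = (R * C) * M * (R * C) := by simp only [Matrix.mul_assoc]
      _ = M := by rw [hRC, Matrix.one_mul, Matrix.mul_one]
  have h9 := mem_closure_image hFc hXs2
  rw [hFX] at h9
  refine closure_mono ?_ h9
  rintro _ ⟨W, ⟨hW1, hW0⟩, rfl⟩
  rw [hs1] at hW1
  rw [hs0] at hW0
  obtain ⟨hWc, W', hWc', h11, h12⟩ := hW0
  have hW1' : IsUnit (q + p * W * p) := hW1
  obtain ⟨T, hT⟩ : ∃ T, T = Ring.inverse (q + p * W * p) := ⟨_, rfl⟩
  have hT1 : (q + p * W * p) * T = 1 := by rw [hT]; exact Ring.mul_inverse_cancel _ hW1'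
  have hT2 : T * (q + p * W * p) = 1 := by rw [hT]; exact Ring.inverse_mul_cancel _ hW1'
  have hTc : CV α id' id' T := (hqc.add ((hpc.mul hWc).mul hpc)).inv hT1 hT2
  have hFW : F W = R * (W - W * (p * T * p) * W) * C := by rw [hF, hT]
  have hsc := schur q W W' T hqq h11 h12 (by rw [← hp]; exact hT1) (by rw [← hp]; exact hT2)
  rw [← hp] at hsc
  obtain ⟨k1, k2⟩ := hsc
  obtain ⟨V, hV⟩ : ∃ V, V = W - W * (p * T * p) * W := ⟨_, rfl⟩
  rw [← hV] at k1 k2 hFW
  have hVc : CV α id' id' V := by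
    rw [hV]; exact hWc.sub ((hWc.mul ((hpc.mul hTc).mul hpc)).mul hWc)
  refine ⟨?_, R * W' * C, (hRc.mul hWc').mul hCC, ?_, ?_⟩
  · rw [hFW]; exact (hRc.mul hVc).mul hCC
  · rw [hFW]
    calc R * V * C * (R * W' * C) = (R * q) * V * (C * R) * W' * (q * C) := by
          rw [hRq, hqC]; simp only [Matrix.mul_assoc]
      _ = R * (q * V * q * (W' * q)) * C := by rw [← hq]; simp only [Matrix.mul_assoc]
      _ = 1 := by rw [k1, hRq, hRC]
  · rw [hFW]
    calc R * W' * C * (R * V * C) = (R * q) * W' * (C * R) * V * (q * C) := by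
          rw [hRq, hqC]; simp only [Matrix.mul_assoc]
      _ = R * (q * W' * q * (V * q)) * C := by rw [← hq]; simp only [Matrix.mul_assoc]
      _ = 1 := by rw [k2, hRq, hRC]

end fixd

end Pool.Agent.H898SR
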