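import Pool.Agent.H898SR.Rok2
import Pool.Agent.H898SR.Comp

/-! Invariant room elements. -/

set_option autoImplicit false
set_option linter.unusedSectionVars false

noncomputable section

namespace Pool.Agent.H898SR

open Filter Topology Pool.Agent.H923R2.FZ

section halv

variable {A : Type} [CStarAlgebra A]

/-- clamp -/
def cl (a b t : ℝ) : ℝ := min 1 (max 0 ((t - a) * b))

theorem cl_cont (a b : ℝ) : Continuous (cl a b) := by unfold cl; fun_prop

theorem cl_bd (a b t : ℝ) : 0 ≤ cl a b t ∧ cl a b t ≤ 1 :=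
  ⟨le_min zero_le_one (le_max_left _ _), min_le_left _ _⟩

theorem cl_lo {a b t : ℝ} (hb : 0 < b) (h : t ≤ a) : cl a b t = 0 := by
  unfold cl
  rw [max_eq_left (mul_nonpos_of_nonpos_of_nonneg (by linarith) hb.le)]
  simp

theorem cl_hi {a b t : ℝ} (h : 1 ≤ (t - a) * b) : cl a b t = 1 := by
  unfold cl
  rw [max_eq_right (by linarith), min_eq_left h]

/-- the top of the spectrum -/
theorem top_ne {x : A} (hx : Ps x) (r : ℝ) (hr : 0 ≤ r) (hr2 : r < ‖x‖) :
    cfc (fun t => max 0 (t - r)) x ≠ 0 := by
  intro h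
  have e1 : x = cfc (fun t => t - max 0 (t - r)) x := by
    rw [cfc_sub (fun t : ℝ => t) (fun t => max 0 (t - r)) x (by fun_prop) (by fun_prop),
      cfc_id' ℝ x hx.sa, h, sub_zero]
  have e2 : ‖x‖ ≤ r := by
    conv_lhs => rw [e1]
    apply norm_cfc_le hr
    intro t ht
    have h3 := hx.spec t ht
    rw [Real.norm_eq_abs, abs_le]
    rcases le_total (t - r) 0 with h4 | h4
    · rw [max_eq_left h4]; constructor <;> linarith
    · rw [max_eq_right h4]; constructor <;> linarith
  linarith

theorem ps_max {x : A} (hx : IsSelfAdjoint x) (f : ℝ → ℝ) (hf : Continuous f) :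
    Ps (cfc (fun t => max 0 (f t)) x) :=
  ps_cfc x _ (by fun_prop) (fun _ => le_max_left _ _) hx

theorem halv (hnil : ∀ κ c : A, IsSelfAdjoint κ → Ps c → c ≠ 0 → κ * c = c →
    ∃ x : A, x ≠ 0 ∧ x * x = 0 ∧ κ * x = x ∧ x * κ = x) : ∀ (n : ℕ) (κ c : A),
    IsSelfAdjoint κ → Ps c → c ≠ 0 → κ * c = c → ∃ (ρ : A) (t : Fin n → A), Ps ρ ∧ ρ ≠ 0 ∧
      κ * ρ = ρ ∧ (∀ i, κ * t i = t i) ∧
      ∀ i j, star (t i) * t j * ρ = if i = j then ρ else 0 := by
  intro n
  induction n with
  | zero =>
    intro κ c _ hc hc0 hκc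
    exact ⟨c, Fin.elim0, hc, hc0, hκc, fun i => i.elim0, fun i => i.elim0⟩
  | succ n ih =>
    intro κ c hκ hc hc0 hκc
    obtain ⟨x, hx0, hxx, hκx, hxκ⟩ := hnil κ c hκ hc hc0 hκc
    obtain ⟨a, ha⟩ : ∃ a, a = star x * x := ⟨_, rfl⟩
    have haP : Ps a := ⟨x, ha⟩
    have ha0 : a ≠ 0 := fun h => hx0 (CStarRing.star_mul_self_eq_zero_iff x |>.1 (ha ▸ h))
    have hM : 0 < ‖a‖ := norm_pos_iff.2 ha0
    obtain ⟨M, hMd⟩ : ∃ M, M = ‖a‖ := ⟨_, rfl⟩
    rw [← hMd] at hM
    have hax : a * x = 0 := by rw [ha, mul_assoc, hxx, mul_zero]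
    have hκa : κ * a = a := by
      have h1 : κ * star x = star x := by
        have := congrArg star hxκ
        rwa [star_mul, hκ.star_eq] at this
      rw [ha, ← mul_assoc, h1]
    obtain ⟨φ, hφ⟩ : ∃ φ : ℝ → ℝ, φ = fun t => 1 / Real.sqrt (max t (M / 2)) := ⟨_, rfl⟩
    have hmx : ∀ t : ℝ, 0 < max t (M / 2) := fun t => lt_max_of_lt_right (half_pos hM)
    have hφc : Continuous φ := by
      rw [hφ]
      exact Continuous.div (by fun_prop) (by fun_prop) fun t => (Real.sqrt_pos.2 (hmx t)).ne'
    obtain ⟨κ0, hκ0⟩ : ∃ κ0, κ0 = cfc (cl (M / 2) (4 / M)) a := ⟨_, rfl⟩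
    have hκ0s : IsSelfAdjoint κ0 := by rw [hκ0]; exact cfc_sa _ _
    obtain ⟨c', hc'⟩ : ∃ c', c' = cfc (fun t => max 0 (t - 3 * M / 4)) a := ⟨_, rfl⟩
    have hc'P : Ps c' := by rw [hc']; exact ps_max haP.sa _ (by fun_prop)
    have hc'0 : c' ≠ 0 := by
      rw [hc']
      exact top_ne haP _ (by positivity) (by rw [← hMd]; linarith)
    have hκc' : κ0 * c' = c' := by
      rw [hκ0, hc', cm _ _ _ (cl_cont _ _) (by fun_prop)]
      apply cfc_congr
      intro t _
      show cl (M / 2) (4 / M) t * max 0 (t - 3 * M / 4) = max 0 (t - 3 * M / 4)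
      rcases le_total (t - 3 * M / 4) 0 with h | h
      · rw [max_eq_left h, mul_zero]
      · rw [cl_hi, one_mul]
        rw [mul_div_assoc', le_div_iff₀ hM]
        linarith
    obtain ⟨ρ, t, h1, h2, h3, h4, h5⟩ := ih κ0 c' hκ0s hc'P hc'0 hκc'
    have hκκ0 : κ * κ0 = κ0 := by
      have h6 : (κ - 1) * a = 0 := by rw [sub_mul, one_mul, hκa, sub_self]
      have h7 := right_zero a (κ - 1) haP.sa h6 (cl (M / 2) (4 / M)) (cl_cont _ _)
      rw [cl_lo (by positivity) (by positivity), zero_smul, ← hκ0, sub_mul, one_mul,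
        sub_eq_zero] at h7
      exact h7
    obtain ⟨u, hu⟩ : ∃ u, u = x * cfc φ a := ⟨_, rfl⟩
    have huu : star u * u * κ0 = κ0 := by
      have h6 : star u * u = cfc φ a * a * cfc φ a := by
        rw [hu, star_mul, (cfc_sa φ a).star_eq, ha]
        simp only [mul_assoc]
      have e : a = cfc (fun t : ℝ => t) a := (cfc_id' ℝ a haP.sa).symm
      rw [h6, hκ0]
      calc cfc φ a * a * cfc φ a * cfc (cl (M / 2) (4 / M)) a =
          cfc φ a * cfc (fun t : ℝ => t) a * cfc φ a * cfc (cl (M / 2) (4 / M)) a := by rw [← e]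
        _ = _ := by
          rw [cm _ _ _ hφc continuous_id', cm _ _ _ (by fun_prop) hφc,
            cm _ _ _ (by fun_prop) (cl_cont _ _)]
          apply cfc_congr
          intro t _
          show φ t * t * φ t * cl (M / 2) (4 / M) t = cl (M / 2) (4 / M) t
          rcases le_total t (M / 2) with h | h
          · rw [cl_lo (by positivity) h, mul_zero]
          · have h8 : max t (M / 2) = t := max_eq_left h
            have h9 : 0 < t := by linarith
            have h10 : φ t * t * φ t = 1 := by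
              rw [hφ]
              simp only [h8]
              have h11 := Real.mul_self_sqrt h9.le
              have h12 := Real.sqrt_pos.2 h9
              field_simp
              nlinarith
            rw [h10, one_mul]
    have hκ0u : κ0 * u = 0 := by
      rw [hκ0, hu, ← mul_assoc, left_zero a x haP.sa hax _ (cl_cont _ _),
        cl_lo (by positivity) (by positivity), zero_smul, zero_mul]
    have huκ : star u * κ0 = 0 := by
      have := congrArg star hκ0u
      rwa [star_mul, hκ0s.star_eq, star_zero] at this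
    refine ⟨ρ, Fin.cons u t, h1, h2, ?_, ?_, ?_⟩
    · rw [← h3, ← mul_assoc, hκκ0]
    · intro i
      refine Fin.cases ?_ (fun i => ?_) i
      · rw [Fin.cons_zero, hu, ← mul_assoc, hκx]
      · rw [Fin.cons_succ, ← h4, ← mul_assoc, hκκ0]
    · intro i j
      refine Fin.cases ?_ (fun i => ?_) i
      · refine Fin.cases ?_ (fun j => ?_) j
        · rw [Fin.cons_zero, if_pos rfl, ← h3, ← mul_assoc, huu]
        · rw [Fin.cons_zero, Fin.cons_succ, if_neg (Fin.succ_ne_zero j).symm, ← h4 j,
            ← mul_assoc, huκ, zero_mul, zero_mul]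
      · refine Fin.cases ?_ (fun j => ?_) j
        · rw [Fin.cons_zero, Fin.cons_succ, if_neg (Fin.succ_ne_zero i), ← h4 i, star_mul,
            hκ0s.star_eq, mul_assoc (star (t i)), hκ0u, mul_zero, zero_mul]
        · rw [Fin.cons_succ, Fin.cons_succ, h5]
          simp only [Fin.succ_inj]

end halv

section rj

variable {A N G J : Type} [CStarAlgebra A] [CStarAlgebra N] [Group G] [Fintype G] [DecidableEq G]
  [Fintype J] [DecidableEq J]
  {ι : A →⋆ₐ[ℂ] N} {β : G → (N →⋆ₐ[ℂ] N)} {f : G → N} {α : G → (A ≃⋆ₐ[ℂ] A)}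

/-- `(max (1-t) 1/4)^(-1/2) - 1` -/
def psi (t : ℝ) : ℝ := 1 / Real.sqrt (max (1 - t) (1 / 4)) - 1

theorem psi_cont : Continuous psi := by
  unfold psi
  refine Continuous.sub (Continuous.div (by fun_prop) (by fun_prop) fun t => ?_) continuous_const
  have : 0 < max (1 - t) (1 / 4) := lt_max_of_lt_right (by norm_num)
  exact (Real.sqrt_pos.2 this).ne'

theorem psi_zero : psi 0 = 0 := by
  unfold psi
  rw [sub_zero, max_eq_left (by norm_num), Real.sqrt_one]
  norm_num

theorem rj (hf : RF ι β f) (hι : ∀ g a, β g (ι a) = ι (α g a))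
    (hβm : ∀ (g h : G) (a : N), β (g * h) a = β g (β h a))
    (d s w : N) (hd : IsSelfAdjoint d) (hdc : ∀ a, Commute d (ι a))
    (hdd : ∀ g h, g ≠ h → β g d * β h d = 0) (hss : s * star s = 1 - ∑ g, f g)
    (hds : d * star s = star s) (ρ : A) (hsw : star s = ι ρ * w) (ζ : A)
    (hζ : ∀ g, α g ζ = ζ) (t : J → A) (ht1 : ∀ i, ζ * t i = t i)
    (ht2 : ∀ i j, star (t i) * t j * ρ = if i = j then ρ else 0) :
    ∃ r : J → N, (∀ g j, β g (r j) = r j) ∧
      (∀ i j, star (r i) * r j = if i = j then 1 - ∑ g, cfc theta (f g) else 0) ∧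
      (∀ j, ι ζ * r j = r j) ∧ ∀ j, ‖r j‖ ≤ 1 := by
  obtain ⟨ψ, hψ⟩ : ∃ ψ, ψ = UU f psi := ⟨_, rfl⟩
  have hψs : IsSelfAdjoint ψ := by rw [hψ]; exact UU_sa _
  have hψβ : ∀ g, β g ψ = ψ := by
    intro g
    rw [hψ]
    unfold UU
    rw [map_add, map_one, map_sum]
    congr 1
    have : ∀ h, β g (cfc psi (f h)) = cfc psi (f (g * h)) := fun h => hf.cperm psi psi_cont g h
    simp only [this]
    exact Fintype.sum_equiv (Equiv.mulLeft g) _ _ fun h => rfl
  have hfβ : ∀ g, β g (1 - ∑ h, f h) = 1 - ∑ h, f h := by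
    intro g
    rw [map_sub, map_one, map_sum]
    congr 1
    simp only [hf.perm]
    exact Fintype.sum_equiv (Equiv.mulLeft g) _ _ fun h => rfl
  obtain ⟨c, hc⟩ : ∃ c : ℝ, c = (Real.sqrt (Fintype.card G))⁻¹ := ⟨_, rfl⟩
  have hG : (0 : ℝ) < Fintype.card G := by exact_mod_cast Fintype.card_pos_iff.2 ⟨(1 : G)⟩
  have hcc : c * c * Fintype.card G = 1 := by
    rw [hc, ← mul_inv, Real.mul_self_sqrt hG.le, inv_mul_cancel₀ hG.ne']
  obtain ⟨X, hX⟩ : ∃ X : J → N, X = fun j => ∑ g, β g (ι (t j) * d * star s) := ⟨_, rfl⟩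
  have hXj : ∀ j, X j = ∑ g, β g (ι (t j) * d * star s) := fun j => by rw [hX]
  have hXX : ∀ i j, star (X i) * X j = if i = j then (Fintype.card G : ℝ) • (1 - ∑ g, f g)
      else 0 := by
    intro i j
    rw [hXj, hXj, star_sum, Finset.sum_mul]
    have e1 : ∀ g, star (β g (ι (t i) * d * star s)) * ∑ h, β h (ι (t j) * d * star s) =
        if i = j then 1 - ∑ g, f g else 0 := by
      intro g
      rw [Finset.mul_sum, Finset.sum_eq_single g]
      · rw [← map_star, ← map_mul]
        have e2 : star (ι (t i) * d * star s) * (ι (t j) * d * star s) =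
            if i = j then 1 - ∑ g, f g else 0 := by
          calc star (ι (t i) * d * star s) * (ι (t j) * d * star s) =
              s * (d * (ι (star (t i)) * ι (t j))) * (d * star s) := by
                rw [star_mul, star_mul, star_star, hd.star_eq, ← map_star]
                simp only [mul_assoc]
            _ = s * ((ι (star (t i)) * ι (t j)) * d) * (d * star s) := by
                rw [← map_mul, (hdc _).eq]
            _ = s * (ι (star (t i)) * ι (t j)) * (ι ρ * w) := by
                rw [hds]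
                rw [mul_assoc s, mul_assoc _ d, hds, hsw]
                simp only [mul_assoc]
            _ = s * (ι (star (t i) * t j * ρ) * w) := by
                rw [map_mul, map_mul]; simp only [mul_assoc]
            _ = _ := by
                rw [ht2]
                split_ifs
                · rw [← hsw, hss]
                · rw [map_zero, zero_mul, mul_zero]
        rw [e2]
        split_ifs
        · exact hfβ g
        · exact map_zero _
      · intro h _ hh
        rw [← map_star]
        have e2 : star (ι (t i) * d * star s) = s * ι (star (t i)) * d := by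
          rw [star_mul, star_mul, star_star, hd.star_eq, ← map_star, (hdc _).eq]
          simp only [mul_assoc]
        have e3 : ι (t j) * d * star s = d * (ι (t j) * star s) := by
          rw [← (hdc _).eq]; simp only [mul_assoc]
        rw [e2, e3, map_mul (β g) _ d, map_mul (β h) d]
        calc _ = β g (s * ι (star (t i))) * (β g d * β h d) * β h (ι (t j) * star s) := by
              simp only [mul_assoc]
          _ = 0 := by rw [hdd g h (Ne.symm hh), mul_zero, zero_mul]
      · intro h; exact absurd (Finset.mem_univ _) h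
    rw [Finset.sum_congr rfl fun g _ => e1 g, Finset.sum_const, Finset.card_univ]
    split_ifs
    · rw [← Nat.cast_smul_eq_nsmul ℝ]
    · simp
  have hq : ψ * (1 - ∑ g, f g) * ψ = 1 - ∑ g, cfc theta (f g) := by
    have e1 : 1 - ∑ g, f g = UU f (fun t => -t) := by
      unfold UU
      rw [sub_eq_add_neg, ← Finset.sum_neg_distrib]
      congr 1
      apply Finset.sum_congr rfl
      intro g _
      rw [cfc_neg, cfc_id' ℝ _ (hf.sa g)]
    have e2 : 1 - ∑ g, cfc theta (f g) = UU f (fun t => -theta t) := by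
      unfold UU
      rw [sub_eq_add_neg, ← Finset.sum_neg_distrib]
      congr 1
      apply Finset.sum_congr rfl
      intro g _
      rw [cfc_neg]
    rw [e1, e2, hψ, hf.U_mul _ _ psi_cont (by fun_prop) psi_zero (by simp),
      hf.U_mul _ _ (by have := psi_cont; fun_prop) psi_cont (by simp [psi_zero]) psi_zero]
    unfold UU
    congr 1
    apply Finset.sum_congr rfl
    intro g _
    apply cfc_congr
    intro t _
    show psi t + -t + psi t * -t + psi t + (psi t + -t + psi t * -t) * psi t = -theta t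
    have h1 : (1 + psi t) * (1 + psi t) * max (1 - t) (1 / 4) = 1 := by
      have h2 : 0 < max (1 - t) (1 / 4) := lt_max_of_lt_right (by norm_num)
      have h3 := Real.mul_self_sqrt h2.le
      have h4 := Real.sqrt_pos.2 h2
      unfold psi
      rw [add_sub_cancel]
      field_simp
      nlinarith
    have h5 : psi t + -t + psi t * -t + psi t + (psi t + -t + psi t * -t) * psi t =
        (1 + psi t) * (1 + psi t) * (1 - t) - 1 := by ring
    rw [h5]
    unfold theta
    rcases le_total (1 - t) (1 / 4) with h6 | h6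
    · rw [max_eq_right h6] at h1
      rw [max_eq_right (by linarith)]
      nlinarith
    · rw [max_eq_left h6] at h1
      rw [max_eq_left (by linarith), h1]
      ring
  have hr2 : ∀ i j, star (c • (X i * ψ)) * (c • (X j * ψ)) =
      if i = j then 1 - ∑ g, cfc theta (f g) else 0 := by
    intro i j
    rw [star_smul, star_trivial c, smul_mul_smul_comm, star_mul, hψs.star_eq]
    have e1 : ψ * star (X i) * (X j * ψ) = ψ * (star (X i) * X j) * ψ := by
      simp only [mul_assoc]
    rw [e1, hXX]
    split_ifs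
    · rw [mul_smul_comm, smul_mul_assoc, smul_smul, hcc, one_smul, hq]
    · rw [mul_zero, zero_mul, smul_zero]
  refine ⟨fun j => c • (X j * ψ), fun g j => ?_, hr2, fun j => ?_, fun j => ?_⟩
  · show β g (c • (X j * ψ)) = c • (X j * ψ)
    rw [← Complex.coe_smul c, map_smul, map_mul, hψβ, hXj, map_sum]
    congr 2
    simp only [← hβm]
    exact Fintype.sum_equiv (Equiv.mulLeft g) _ _ fun h => rfl
  · show ι ζ * (c • (X j * ψ)) = c • (X j * ψ)
    rw [mul_smul_comm, ← mul_assoc]
    congr 2
    rw [hXj, Finset.mul_sum]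
    apply Finset.sum_congr rfl
    intro g _
    have e1 : ι ζ = β g (ι ζ) := by rw [hι, hζ]
    rw [e1, ← map_mul, ← mul_assoc, ← mul_assoc, ← map_mul ι, ht1]
  · show ‖c • (X j * ψ)‖ ≤ 1
    let _ := CStarAlgebra.spectralOrder N
    let _ := CStarAlgebra.spectralOrderedRing N
    have h1 := hr2 j j
    rw [if_pos rfl] at h1
    have h2 : (0 : N) ≤ star (c • (X j * ψ)) * (c • (X j * ψ)) := star_mul_self_nonneg _
    have h3 : star (c • (X j * ψ)) * (c • (X j * ψ)) ≤ 1 := by
      rw [h1, sub_le_self_iff]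
      apply Finset.sum_nonneg
      intro g _
      exact cfc_nonneg fun t _ => le_max_left _ _
    have h4 : ‖star (c • (X j * ψ)) * (c • (X j * ψ))‖ ≤ 1 := by
      rw [CStarAlgebra.norm_le_one_iff_of_nonneg _ h2]
      exact h3
    rw [CStarRing.norm_star_mul_self] at h4
    nlinarith [norm_nonneg (c • (X j * ψ))]

end rj

end Pool.Agent.H898SR
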