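import Pool.Agent.H898SR.Rok2
import Pool.Agent.H898SR.Rj

/-! Galois systems. -/

set_option autoImplicit false
set_option linter.unusedSectionVars false

noncomputable section

namespace Pool.Agent.H898SR

open Filter Topology Pool.Agent.H923R2.FZ

section

variable {A G : Type} [CStarAlgebra A] [Group G] [Fintype G] [DecidableEq G]

/-- `sign(t) |t|^(1/2)` -/
def sg (t : ℝ) : ℝ := Real.sqrt (max t 0) - Real.sqrt (max (-t) 0)
/-- `|t|^(1/2)` -/
def sq (t : ℝ) : ℝ := Real.sqrt |t|

theorem sg_cont : Continuous sg := by unfold sg; fun_prop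
theorem sq_cont : Continuous sq := by unfold sq; fun_prop
theorem sg_zero : sg 0 = 0 := by unfold sg; simp
theorem sq_zero : sq 0 = 0 := by unfold sq; simp

theorem sg_sq (t : ℝ) : sg t * sq t = t := by
  unfold sg sq
  rcases le_total t 0 with h | h
  · rw [max_eq_right h, max_eq_left (by linarith), abs_of_nonpos h, Real.sqrt_zero, zero_sub,
      neg_mul, Real.mul_self_sqrt (by linarith), neg_neg]
  · rw [max_eq_left h, max_eq_right (by linarith), abs_of_nonneg h, Real.sqrt_zero, sub_zero,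
      Real.mul_self_sqrt h]

/-- polar decomposition in the ultrapower -/
theorem ped_NU (hPED : PED A) {I : Type} [TopologicalSpace I] [DiscreteTopology I]
    (U : Ultrafilter I) (s : NU A U) (δ : ℝ) (hδ : 0 < δ) (Gf Gs : ℝ → ℝ) (hG : Continuous Gf)
    (hGs : Continuous Gs) (hG0 : ∀ t, t ≤ δ → Gf t = 0) (hGG : ∀ t, Gf t / Real.sqrt t = Gs t) :
    ∃ W : NU A U, star W * W = 1 ∧ W * star W = 1 ∧
      W * cfc Gf (star s * s) = s * cfc Gs (star s * s) := by
  obtain ⟨S, rfl⟩ := qm_surj U s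
  have h1 := fun i : I => hPED (S i) δ hδ
  choose w hw using h1
  have hn : ∀ i, ‖(w i : A)‖ ≤ 1 := by
    intro i
    rcases subsingleton_or_nontrivial A with h | h
    · rw [Subsingleton.elim (w i : A) 0, norm_zero]; exact zero_le_one
    · rw [CStarRing.norm_coe_unitary]
  obtain ⟨W, hW⟩ : ∃ W : SQ I A, ∀ i, W i = (w i : A) := ⟨bf _ 1 hn, fun i => rfl⟩
  have hSs : IsSelfAdjoint (star S * S) := IsSelfAdjoint.star_mul_self S
  have e0 : star (qm U S) * qm U S = qm U (star S * S) := by rw [map_mul, map_star]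
  refine ⟨qm U W, ?_, ?_, ?_⟩
  · rw [← map_star, ← map_mul, ← map_one (qm U)]
    congr 1
    apply SQ.ext
    intro i
    show star (W i) * W i = 1
    rw [hW]
    exact Unitary.coe_star_mul_self (w i)
  · rw [← map_star, ← map_mul, ← map_one (qm U)]
    congr 1
    apply SQ.ext
    intro i
    show W i * star (W i) = 1
    rw [hW]
    exact Unitary.coe_mul_star_self (w i)
  · rw [e0, qm_cfc U _ hSs _ hG, qm_cfc U _ hSs _ hGs, ← map_mul, ← map_mul]
    congr 1
    apply SQ.ext
    intro i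
    show W i * (cfc Gf (star S * S)) i = S i * (cfc Gs (star S * S)) i
    rw [cfc_coord _ hSs _ hG, cfc_coord _ hSs _ hGs, hW]
    have h2 := hw i Gf hG hG0
    have h3 : (fun t => Gf t / Real.sqrt t) = Gs := funext hGG
    rw [h3] at h2
    exact h2

theorem galois (hfin : ∀ a b : A, a * b = 1 → b * a = 1)
    (hfull : ∀ c : A, Ps c → c ≠ 0 → ∃ (n : ℕ) (y : Fin n → A), ∑ i, star (y i) * c * y i = 1)
    (x0 : A) (hx0 : x0 ≠ 0) (hx00 : x0 * x0 = 0) (hPED : PED A)
    (α : G → (A ≃⋆ₐ[ℂ] A)) (hα1 : ∀ a : A, α 1 a = a) (hW : WT α) (η : ℝ) (hη : 0 < η) :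
    ∃ (P : Type) (_ : Fintype P) (_ : DecidableEq P) (a b : P → A), ∀ g : G,
      ‖∑ j, a j * α g (b j) - (if g = 1 then 1 else 0)‖ < η := by
  obtain ⟨U, hU⟩ := ex_U A
  obtain ⟨f, d, s, w0, hf, _, _, _, hss, _, hsw⟩ := rok2 hfin hfull x0 hx0 hx00 U hU α hW
    (star x0 * x0) ⟨x0, rfl⟩ (fun h => hx0 (CStarRing.star_mul_self_eq_zero_iff x0 |>.1 h))
  have hsx : s * io A U x0 = 0 := by
    have h1 : s = star w0 * io A U (star x0 * x0) := by
      have := congrArg star hsw
      rwa [star_star, star_mul, ← map_star, star_mul, star_star] at this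
    rw [h1, mul_assoc, ← map_mul, mul_assoc, hx00, mul_zero, map_zero, mul_zero]
  obtain ⟨n, y, hy⟩ := hfull (x0 * star x0) ⟨star x0, by rw [star_star]⟩ fun h =>
    hx0 (CStarRing.mul_star_self_eq_zero_iff x0 |>.1 h)
  obtain ⟨C, hC⟩ : ∃ C : ℝ, C = ∑ j, ‖y j‖ * ‖x0‖ * (‖x0‖ * ‖y j‖) := ⟨_, rfl⟩
  have hC0 : 0 ≤ C := by rw [hC]; positivity
  obtain ⟨δ, hδ⟩ : ∃ δ : ℝ, δ = η / (4 * (C + 1)) := ⟨_, rfl⟩
  have hδ0 : 0 < δ := by rw [hδ]; positivity
  obtain ⟨Gf, hGf⟩ : ∃ Gf : ℝ → ℝ, Gf = fun t => cl δ (1 / δ) t * Real.sqrt t := ⟨_, rfl⟩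
  have hGc : Continuous Gf := by
    rw [hGf]; exact (cl_cont _ _).mul Real.continuous_sqrt
  have hb : 0 < 1 / δ := by positivity
  obtain ⟨W, hW1, hW2, hW3⟩ := ped_NU hPED U s δ hδ0 Gf (cl δ (1 / δ)) hGc (cl_cont _ _)
    (fun t ht => by rw [hGf]; simp only [cl_lo hb ht, zero_mul]) (fun t => by
      rw [hGf]
      rcases le_total t δ with h | h
      · simp only [cl_lo hb h, zero_mul, zero_div]
      · have h9 : 0 < t := by linarith
        have h12 := Real.sqrt_pos.2 h9
        field_simp)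
  obtain ⟨T, hT⟩ : ∃ T, T = star s * s := ⟨_, rfl⟩
  have hTP : Ps T := ⟨s, hT⟩
  rw [← hT] at hW3
  obtain ⟨z, hz⟩ : ∃ z, z = io A U x0 := ⟨_, rfl⟩
  rw [← hz] at hsx
  have hTz : T * z = 0 := by rw [hT, mul_assoc, hsx, mul_zero]
  have hGz : cfc Gf T * z = 0 := by
    rw [left_zero T z hTP.sa hTz Gf hGc, hGf]
    simp
  obtain ⟨h, hh⟩ : ∃ h, h = cfc (cl δ (1 / δ)) T := ⟨_, rfl⟩
  have hhs : star h = h := by rw [hh]; exact (cfc_sa _ _).star_eq
  rw [← hh] at hW3
  obtain ⟨F, hF⟩ : ∃ F, F = ∑ g, f g := ⟨_, rfl⟩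
  rw [← hF] at hss
  -- `(1 - F) W z` is small
  have e1 : (1 - F) * (W * z) = s * (1 - h * h) * star s * (W * z) := by
    have e2 : s * (h * h) * star s * (W * z) = 0 := by
      calc s * (h * h) * star s * (W * z) = (s * h) * star (s * h) * (W * z) := by
            rw [star_mul, hhs]; simp only [mul_assoc]
        _ = (W * cfc Gf T) * star (W * cfc Gf T) * (W * z) := by rw [hW3]
        _ = W * cfc Gf T * cfc Gf T * (star W * W) * z := by
            rw [star_mul, (cfc_sa Gf T).star_eq]; simp only [mul_assoc]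
        _ = W * cfc Gf T * (cfc Gf T * z) := by rw [hW1]; simp only [mul_assoc, mul_one]
        _ = 0 := by rw [hGz, mul_zero]
    rw [← hss, mul_sub, mul_one, sub_mul, sub_mul, e2, sub_zero]
  have e3 : ‖s * (1 - h * h) * star s‖ ≤ 2 * δ := by
    obtain ⟨u, hu⟩ : ∃ u, u = cfc (fun t => Real.sqrt (1 - cl δ (1 / δ) t * cl δ (1 / δ) t)) T :=
      ⟨_, rfl⟩
    have hc := cl_cont δ (1 / δ)
    have huc : Continuous fun t => Real.sqrt (1 - cl δ (1 / δ) t * cl δ (1 / δ) t) := by fun_prop
    have hus : star u = u := by rw [hu]; exact (cfc_sa _ _).star_eq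
    have hle : ∀ t, 0 ≤ 1 - cl δ (1 / δ) t * cl δ (1 / δ) t := fun t => by
      have := cl_bd δ (1 / δ) t
      nlinarith
    have huu : u * u = 1 - h * h := by
      rw [hu, cm _ _ _ huc huc, hh, cm _ _ _ hc hc]
      have : (fun t => Real.sqrt (1 - cl δ (1 / δ) t * cl δ (1 / δ) t) *
          Real.sqrt (1 - cl δ (1 / δ) t * cl δ (1 / δ) t)) =
          fun t => 1 - cl δ (1 / δ) t * cl δ (1 / δ) t := by
        funext t
        exact Real.mul_self_sqrt (hle t)
      rw [this, cfc_sub (fun _ : ℝ => (1 : ℝ)) (fun t => cl δ (1 / δ) t * cl δ (1 / δ) t) T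
        (by fun_prop) (by fun_prop), cfc_const_one ℝ T hTP.sa]
    have e4 : s * (1 - h * h) * star s = (s * u) * star (s * u) := by
      rw [← huu, star_mul, hus]; simp only [mul_assoc]
    rw [e4, CStarRing.norm_self_mul_star, ← CStarRing.norm_star_mul_self, star_mul, hus]
    have e : T = cfc (fun t : ℝ => t) T := (cfc_id' ℝ T hTP.sa).symm
    have e5 : u * star s * (s * u) = cfc (fun t => Real.sqrt (1 - cl δ (1 / δ) t *
        cl δ (1 / δ) t) * t * Real.sqrt (1 - cl δ (1 / δ) t * cl δ (1 / δ) t)) T := by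
      calc u * star s * (s * u) = u * T * u := by rw [hT]; simp only [mul_assoc]
        _ = u * cfc (fun t : ℝ => t) T * u := by rw [← e]
        _ = _ := by rw [hu, cm _ _ _ huc continuous_id', cm _ _ _ (by fun_prop) huc]
    rw [e5]
    apply norm_cfc_le (by positivity)
    intro t ht
    have h3 := hTP.spec t ht
    have h4 := cl_bd δ (1 / δ) t
    have e6 : Real.sqrt (1 - cl δ (1 / δ) t * cl δ (1 / δ) t) * t *
        Real.sqrt (1 - cl δ (1 / δ) t * cl δ (1 / δ) t) =
        (1 - cl δ (1 / δ) t * cl δ (1 / δ) t) * t := by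
      have := Real.mul_self_sqrt (hle t)
      calc _ = (Real.sqrt (1 - cl δ (1 / δ) t * cl δ (1 / δ) t) *
        Real.sqrt (1 - cl δ (1 / δ) t * cl δ (1 / δ) t)) * t := by ring
        _ = _ := by rw [this]
    rw [e6, Real.norm_of_nonneg (mul_nonneg (hle t) h3)]
    rcases le_total t (2 * δ) with h5 | h5
    · calc (1 - cl δ (1 / δ) t * cl δ (1 / δ) t) * t ≤ 1 * t := by
            apply mul_le_mul_of_nonneg_right _ h3
            nlinarith
        _ ≤ 2 * δ := by linarith
    · rw [cl_hi (by rw [mul_one_div, le_div_iff₀ hδ0]; linarith)]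
      simp; positivity
  have hWn : ‖W‖ ≤ 1 := by
    have h1 : ‖W‖ * ‖W‖ ≤ 1 := by
      rw [← CStarRing.norm_star_mul_self, hW1]
      rcases subsingleton_or_nontrivial (NU A U) with h | h
      · rw [Subsingleton.elim (1 : NU A U) 0, norm_zero]; exact zero_le_one
      · rw [CStarRing.norm_one]
    nlinarith [norm_nonneg W]
  have hzn : ‖z‖ ≤ ‖x0‖ := by rw [hz]; exact NonUnitalStarAlgHom.norm_apply_le _ _
  have e7 : ‖(1 - F) * (W * z)‖ ≤ 2 * δ * ‖x0‖ := by
    rw [e1]
    calc _ ≤ ‖s * (1 - h * h) * star s‖ * ‖W * z‖ := norm_mul_le _ _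
      _ ≤ 2 * δ * (1 * ‖x0‖) := by
        apply mul_le_mul e3 _ (norm_nonneg _) (by positivity)
        exact (norm_mul_le _ _).trans (mul_le_mul hWn hzn (norm_nonneg _) zero_le_one)
      _ = _ := by ring
  -- the element `E`
  obtain ⟨c, hc⟩ : ∃ c : Fin n → NU A U, c = fun j => io A U (star (y j)) * star W := ⟨_, rfl⟩
  obtain ⟨c', hc'⟩ : ∃ c' : Fin n → NU A U, c' = fun j => W * (z * io A U (star x0 * y j)) :=
    ⟨_, rfl⟩
  have hE : ‖∑ j, c j * F * c' j - 1‖ < η := by
    have h1 : (1 : NU A U) = ∑ j, io A U (star (y j)) * z * io A U (star x0 * y j) := by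
      rw [← map_one (io A U), ← hy, map_sum]
      apply Finset.sum_congr rfl
      intro j _
      rw [hz, ← map_mul, ← map_mul]
      congr 1
      simp only [mul_assoc]
    have h2' : ∑ j, c j * F * c' j - ∑ j, io A U (star (y j)) * z * io A U (star x0 * y j) =
        -∑ j, io A U (star (y j)) * star W *
        ((1 - F) * (W * z)) * io A U (star x0 * y j) := by
      rw [← Finset.sum_sub_distrib, ← Finset.sum_neg_distrib]
      apply Finset.sum_congr rfl
      intro j _
      rw [hc, hc']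
      have h3 : io A U (star (y j)) * z * io A U (star x0 * y j) =
          io A U (star (y j)) * (star W * W) * z * io A U (star x0 * y j) := by
        rw [hW1, mul_one]
      show io A U (star (y j)) * star W * F * (W * (z * io A U (star x0 * y j))) - _ = _
      rw [h3]
      simp only [sub_mul, mul_sub, one_mul, mul_assoc, neg_sub]
    have h2 : ∑ j, c j * F * c' j - 1 = -∑ j, io A U (star (y j)) * star W *
        ((1 - F) * (W * z)) * io A U (star x0 * y j) := by
      rw [← h2', ← h1]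
    rw [h2, norm_neg]
    calc _ ≤ ∑ j, ‖io A U (star (y j)) * star W * ((1 - F) * (W * z)) *
          io A U (star x0 * y j)‖ := norm_sum_le _ _
      _ ≤ ∑ j, (2 * δ) * (‖y j‖ * ‖x0‖ * (‖x0‖ * ‖y j‖)) := by
          apply Finset.sum_le_sum
          intro j _
          have g1 : ‖io A U (star (y j))‖ ≤ ‖y j‖ := by
            rw [← norm_star (y j)]; exact NonUnitalStarAlgHom.norm_apply_le _ _
          have g2 : ‖io A U (star x0 * y j)‖ ≤ ‖x0‖ * ‖y j‖ := by
            refine (NonUnitalStarAlgHom.norm_apply_le _ _).trans ((norm_mul_le _ _).trans ?_)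
            rw [norm_star]
          have g3 : ‖star W‖ ≤ 1 := by rw [norm_star]; exact hWn
          calc _ ≤ ‖io A U (star (y j)) * star W‖ * ‖(1 - F) * (W * z)‖ *
                ‖io A U (star x0 * y j)‖ :=
                (norm_mul_le _ _).trans (mul_le_mul_of_nonneg_right (norm_mul_le _ _)
                  (norm_nonneg _))
            _ ≤ (‖y j‖ * 1) * (2 * δ * ‖x0‖) * (‖x0‖ * ‖y j‖) := by
                apply mul_le_mul _ g2 (norm_nonneg _) (by positivity)
                apply mul_le_mul _ e7 (norm_nonneg _) (by positivity)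
                exact (norm_mul_le _ _).trans (mul_le_mul g1 g3 (norm_nonneg _) (norm_nonneg _))
            _ = _ := by ring
      _ = 2 * δ * C := by rw [hC, Finset.mul_sum]
      _ < η := by
          rw [hδ]
          have : 2 * (η / (4 * (C + 1))) * C = η * (C / (2 * (C + 1))) := by
            field_simp; ring
          rw [this]
          have h5 : C / (2 * (C + 1)) < 1 := by
            rw [div_lt_one (by positivity)]; linarith
          nlinarith
  -- the system in the ultrapower
  obtain ⟨a, ha⟩ : ∃ a : Fin n × G → NU A U, a = fun p => c p.1 * cfc sg (f p.2) := ⟨_, rfl⟩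
  obtain ⟨b, hb⟩ : ∃ b : Fin n × G → NU A U, b = fun p => cfc sq (f p.2) * c' p.1 := ⟨_, rfl⟩
  have hab : ∀ g : G, ‖∑ p, a p * bt U α g (b p) - (if g = 1 then 1 else 0)‖ < η := by
    intro g
    have h1 : ∀ p : Fin n × G, a p * bt U α g (b p) =
        if g = 1 then c p.1 * f p.2 * c' p.1 else 0 := by
      intro p
      rw [ha, hb]
      show c p.1 * cfc sg (f p.2) * bt U α g (cfc sq (f p.2) * c' p.1) = _
      rw [map_mul, hf.cperm sq sq_cont]
      split_ifs with hg
      · subst hg
        rw [one_mul, bt_one U α hα1]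
        calc c p.1 * cfc sg (f p.2) * (cfc sq (f p.2) * c' p.1) =
            c p.1 * (cfc sg (f p.2) * cfc sq (f p.2)) * c' p.1 := by simp only [mul_assoc]
          _ = _ := by
            rw [cm _ _ _ sg_cont sq_cont]
            have : (fun t => sg t * sq t) = fun t => t := funext sg_sq
            rw [this, cfc_id' ℝ _ (hf.sa p.2)]
      · calc c p.1 * cfc sg (f p.2) * (cfc sq (f (g * p.2)) * bt U α g (c' p.1)) =
            c p.1 * (cfc sg (f p.2) * cfc sq (f (g * p.2))) * bt U α g (c' p.1) := by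
              simp only [mul_assoc]
          _ = 0 := by
            rw [hf.oo sg sq sg_cont sq_cont sg_zero sq_zero p.2 (g * p.2) (fun h => hg (by
              have : g * p.2 = 1 * p.2 := by rw [one_mul]; exact h.symm
              exact mul_right_cancel this)), mul_zero, zero_mul]
    simp only [h1]
    split_ifs with hg
    · rw [Fintype.sum_prod_type]
      have : ∀ j : Fin n, ∑ g, c j * f g * c' j = c j * F * c' j := by
        intro j
        rw [hF, Finset.mul_sum, Finset.sum_mul]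
      simp only [this]
      exact hE
    · simp only [Finset.sum_const_zero, sub_zero, norm_zero]
      exact hη
  -- lift
  have hla : ∀ p, ∃ x, qm U x = a p := fun p => qm_surj U _
  have hlb : ∀ p, ∃ x, qm U x = b p := fun p => qm_surj U _
  choose la hla using hla
  choose lb hlb using hlb
  have hev : ∀ g : G, ∀ᶠ i in (U : Filter (Ix A)),
      ‖∑ p, la p i * α g (lb p i) - (if g = 1 then 1 else 0)‖ < η := by
    intro g
    have h1 : qm U (∑ p, la p * cmap ((α g : A ≃⋆ₐ[ℂ] A) : A →⋆ₐ[ℂ] A) (lb p) -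
        (if g = 1 then 1 else 0)) = ∑ p, a p * bt U α g (b p) - (if g = 1 then 1 else 0) := by
      rw [map_sub, map_sum]
      congr 1
      · apply Finset.sum_congr rfl
        intro p _
        rw [map_mul, hla, ← bt_qm, hlb]
      · split_ifs
        · exact map_one _
        · exact map_zero _
    have h2 := qm_lt U _ η (by rw [h1]; exact hab g)
    filter_upwards [h2] with i hi
    have h3 : (∑ p, la p * cmap ((α g : A ≃⋆ₐ[ℂ] A) : A →⋆ₐ[ℂ] A) (lb p) -
        (if g = 1 then 1 else 0) : SQ (Ix A) A) i =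
        ∑ p, la p i * α g (lb p i) - (if g = 1 then 1 else 0) := by
      have : (∑ p, la p * cmap ((α g : A ≃⋆ₐ[ℂ] A) : A →⋆ₐ[ℂ] A) (lb p) -
        (if g = 1 then 1 else 0) : SQ (Ix A) A) i = ev i (∑ p, la p *
        cmap ((α g : A ≃⋆ₐ[ℂ] A) : A →⋆ₐ[ℂ] A) (lb p) - (if g = 1 then 1 else 0)) := rfl
      rw [this, map_sub, map_sum]
      congr 1
      split_ifs
      · exact map_one _
      · exact map_zero _
    rw [h3] at hi
    exact hi
  have hall : ∀ᶠ i in (U : Filter (Ix A)), ∀ g : G,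
      ‖∑ p, la p i * α g (lb p i) - (if g = 1 then 1 else 0)‖ < η := eventually_all.2 hev
  obtain ⟨i, hi⟩ := hall.exists
  exact ⟨Fin n × G, inferInstance, inferInstance, fun p => la p i, fun p => lb p i, hi⟩

end

end Pool.Agent.H898SR
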