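import Pool.Agent.H898SR.Main
import Pool.Agent.H898SR.Galois
import Pool.Agent.H898SR.Cross2

/-! Assembly of the answer to MP_739d9d_an (S05053). -/

set_option autoImplicit false
set_option linter.unusedSectionVars false

noncomputable section

namespace Pool.Agent.H898SR

open Filter Topology Pool.Agent.H923R2.FZ

section

variable {A : Type} [CStarAlgebra A]

theorem sr_of_dense (h : Dense {b : A | IsUnit b}) : SR A := by
  intro x ε hε
  obtain ⟨z, hz, hzu⟩ := Metric.dense_iff.1 h x ε hε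
  refine ⟨z, hzu, ?_⟩
  rw [Metric.mem_ball, dist_eq_norm, norm_sub_rev] at hz
  exact hz

theorem ped_of_sr (h : SR A) : PED A :=
  T_R0.t_R0 T_INV.t_INV A fun b _ => h b 1 one_pos

theorem simple_of (h : ∀ I : TwoSidedIdeal A, IsClosed (I : Set A) → (∀ x ∈ I, x = 0) ∨ (1 : A) ∈ I)
    (hnf : ¬ FiniteDimensional ℂ A) : Pool.Agent.H327R4.Pure.SimpleC A := by
  constructor
  · by_contra hn
    rw [not_nontrivial_iff_subsingleton] at hn
    exact hnf inferInstance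
  · intro I hI
    rcases h I hI with h1 | h1
    · left
      rw [eq_bot_iff]
      intro x hx
      rw [h1 x hx]
      exact zero_mem _
    · right
      rw [eq_top_iff]
      intro x _
      have := I.mul_mem_left x 1 h1
      rwa [mul_one] at this

theorem full_of (hS : Pool.Agent.H327R4.Pure.SimpleC A) (c : A) (hc : Ps c) (hc0 : c ≠ 0) :
    ∃ (n : ℕ) (y : Fin n → A), ∑ i, star (y i) * c * y i = 1 := by
  let _ := CStarAlgebra.spectralOrder A
  let _ := CStarAlgebra.spectralOrderedRing A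
  obtain ⟨y, rfl⟩ := hc
  exact Pool.Agent.H327R4.Pure.full_holds A hS _ (star_mul_self_nonneg y) hc0

theorem nil_of (hS : Pool.Agent.H327R4.Pure.SimpleC A) (hnf : ¬ FiniteDimensional ℂ A)
    (κ c : A) (hκ : IsSelfAdjoint κ) (hc : Ps c) (hc0 : c ≠ 0) (hκc : κ * c = c) :
    ∃ x : A, x ≠ 0 ∧ x * x = 0 ∧ κ * x = x ∧ x * κ = x := by
  let _ := CStarAlgebra.spectralOrder A
  let _ := CStarAlgebra.spectralOrderedRing A
  have hcP := hc
  obtain ⟨y, hy⟩ := hc
  have hcn : 0 ≤ c := by rw [hy]; exact star_mul_self_nonneg y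
  obtain ⟨x, M, hM, hx0, hxx, hx1, hx2⟩ := Pool.Agent.H327R4.Pure.nil_holds
    Pool.Agent.H327R4.Pure.full_holds A hS hnf c hcn hc0
  have hcκ : c * κ = c := by
    have := congrArg star hκc
    rwa [star_mul, hκ.star_eq, hcP.sa.star_eq] at this
  have key : ∀ z : A, star z * z ≤ M • c → z * κ = z := by
    intro z hz
    have h1 : star (1 - κ) * (star z * z) * (1 - κ) ≤ star (1 - κ) * (M • c) * (1 - κ) :=
      star_left_conjugate_le_conjugate hz _
    have h2 : star (1 - κ) * (M • c) * (1 - κ) = 0 := by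
      rw [mul_assoc, smul_mul_assoc, mul_sub, mul_one, hcκ, sub_self, smul_zero, mul_zero]
    rw [h2] at h1
    have h3 : star (1 - κ) * (star z * z) * (1 - κ) = star (z * (1 - κ)) * (z * (1 - κ)) := by
      rw [star_mul]; simp only [mul_assoc]
    rw [h3] at h1
    have h4 := le_antisymm h1 (star_mul_self_nonneg _)
    have h5 := CStarRing.star_mul_self_eq_zero_iff (z * (1 - κ)) |>.1 h4
    rw [mul_sub, mul_one, sub_eq_zero] at h5
    exact h5.symm
  refine ⟨x, hx0, hxx, ?_, key x hx1⟩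
  have h6 := key (star x) (by rw [star_star]; exact hx2)
  have := congrArg star h6
  rwa [star_mul, star_star, hκ.star_eq] at this

theorem final (h : ∀ I : TwoSidedIdeal A, IsClosed (I : Set A) → (∀ x ∈ I, x = 0) ∨ (1 : A) ∈ I)
    (hnf : ¬ FiniteDimensional ℂ A) (hd : Dense {b : A | IsUnit b})
    (G : Type) [Group G] [Fintype G] [DecidableEq G] (α : G → (A ≃⋆ₐ[ℂ] A))
    (hα1 : ∀ a : A, α 1 a = a) (hαm : ∀ (g h : G) (a : A), α (g * h) a = α g (α h a))
    (hw : ∀ ε : ℝ, 0 < ε → ∀ F : Finset A, ∀ x : A, (∃ y : A, x = star y * y) → ‖x‖ = 1 →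
        ∃ f : G → A,
          (∀ g, (∃ y : A, f g = star y * y) ∧ ‖f g‖ ≤ 1) ∧
          (∀ g h, g ≠ h → f g * f h = 0) ∧
          (∀ g h, ‖α g (f h) - f (g * h)‖ < ε) ∧
          (∀ a ∈ F, ∀ g, ‖f g * a - a * f g‖ < ε) ∧
          (∃ v : ℕ → A, Tendsto (fun n => v n * x * star (v n)) atTop (𝓝 (1 - ∑ g, f g))) ∧
          1 - ε < ‖(∑ g, f g) * x * (∑ g, f g)‖) :
    (∀ M : Matrix G G A, (∃ c : G → A, ∀ h g, M h g = α h⁻¹ (c (h * g⁻¹))) →
        M ∈ closure {N : Matrix G G A |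
          (∃ c : G → A, ∀ h g, N h g = α h⁻¹ (c (h * g⁻¹))) ∧
          ∃ N' : Matrix G G A,
            (∃ c : G → A, ∀ h g, N' h g = α h⁻¹ (c (h * g⁻¹))) ∧
            N * N' = 1 ∧ N' * N = 1}) ∧
      (∀ a : A, (∀ g, α g a = a) → ∀ ε : ℝ, 0 < ε → ∃ b c : A,
          (∀ g, α g b = b) ∧ (∀ g, α g c = c) ∧ b * c = 1 ∧ c * b = 1 ∧ ‖a - b‖ < ε) := by
  have hSR := sr_of_dense hd
  have hPED := ped_of_sr hSR
  have hS := simple_of h hnf
  have hfin := fin_of_SR hSR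
  have hfull := full_of hS
  have hnil := nil_of hS hnf
  haveI := hS.1
  obtain ⟨x0, hx0, hx00, _, _⟩ := hnil 1 1 (IsSelfAdjoint.one A) ⟨1, by simp⟩ one_ne_zero
    (one_mul 1)
  have hW : WT α := by
    intro ε hε F y hy hy0
    have hyn : 0 < ‖y‖ := norm_pos_iff.2 hy0
    obtain ⟨f, h1, h2, h3, h4, ⟨v, hv⟩, _⟩ := hw ε hε F (‖y‖⁻¹ • y)
      (ps_smul hy ‖y‖⁻¹ (by positivity)) (by
        rw [norm_smul, Real.norm_of_nonneg (by positivity), inv_mul_cancel₀ hyn.ne'])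
    refine ⟨f, h1, h2, h3, h4, ?_⟩
    obtain ⟨n, hn⟩ := ((tendsto_iff_norm_sub_tendsto_zero.1 hv).eventually (gt_mem_nhds hε)).exists
    refine ⟨Real.sqrt ‖y‖⁻¹ • v n, ?_⟩
    have h5 : (Real.sqrt ‖y‖⁻¹ • v n) * y * star (Real.sqrt ‖y‖⁻¹ • v n) =
        v n * (‖y‖⁻¹ • y) * star (v n) := by
      rw [star_smul, star_trivial (Real.sqrt ‖y‖⁻¹), smul_mul_assoc, smul_mul_assoc,
        mul_smul_comm, smul_smul, Real.mul_self_sqrt (by positivity), mul_smul_comm,
        smul_mul_assoc]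
    rw [h5]
    exact hn
  have hB : ∀ x : A, (∀ g, α g x = x) → ∀ ε : ℝ, 0 < ε → ∃ b : A, IsUnit b ∧
      (∀ g, α g b = b) ∧ ‖b - x‖ < ε := fun x hx ε hε =>
    fixT hSR hfin hfull hnil x0 hx0 hx00 hPED α hα1 hαm hW x hx ε hε
  refine ⟨?_, ?_⟩
  · intro M hM
    have hcard : (0 : ℝ) < (Fintype.card G : ℝ) := by exact_mod_cast Fintype.card_pos
    obtain ⟨η, hη⟩ : ∃ η : ℝ, η = 1 / (2 * (Fintype.card G : ℝ)) := ⟨_, rfl⟩
    have hη0 : 0 < η := by rw [hη]; positivity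
    have hη1 : (Fintype.card G : ℝ) * η < 1 := by
      rw [hη]
      field_simp
      norm_num
    obtain ⟨P, _, _, a, b, hab⟩ := galois hfin hfull x0 hx0 hx00 hPED α hα1 hW η hη0
    have := crossed α hα1 hαm hB P a b η hη1 (fun g => (hab g).le) M
      ((cv_iff α hα1 hαm M).2 hM)
    simpa only [cv_iff α hα1 hαm] using this
  · intro a ha ε hε
    obtain ⟨b, hbu, hbα, hbn⟩ := hB a ha ε hε
    obtain ⟨u, rfl⟩ := hbu
    refine ⟨u, (↑u⁻¹ : A), hbα, ?_, u.mul_inv, u.inv_mul, ?_⟩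
    · intro g
      have h1 : (u : A) * α g (↑u⁻¹ : A) = 1 := by
        rw [← hbα g, ← map_mul, Units.mul_inv, map_one]
      calc α g (↑u⁻¹ : A) = (↑u⁻¹ : A) * (u : A) * α g (↑u⁻¹ : A) := by
            rw [Units.inv_mul, one_mul]
        _ = _ := by rw [mul_assoc, h1, mul_one]
    · rw [norm_sub_rev]; exact hbn

end

end Pool.Agent.H898SR
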