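import Pool.Agent.H898SR.Rj

/-! The fixed point algebra has stable rank one. -/

set_option autoImplicit false
set_option linter.unusedSectionVars false

noncomputable section

namespace Pool.Agent.H898SR

open Filter Topology Pool.Agent.H923R2.FZ

section

variable {A : Type} [CStarAlgebra A]

theorem cut_close (x : A) (δ : ℝ) (hδ : 0 < δ) :
    ‖x - x * cfc (cl δ (1 / δ)) (star x * x)‖ ≤ Real.sqrt (2 * δ) := by
  obtain ⟨a, ha⟩ : ∃ a, a = star x * x := ⟨_, rfl⟩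
  have haP : Ps a := ⟨x, ha⟩
  rw [← ha]
  obtain ⟨u, hu⟩ : ∃ u, u = cfc (fun t => 1 - cl δ (1 / δ) t) a := ⟨_, rfl⟩
  have e1 : x - x * cfc (cl δ (1 / δ)) a = x * u := by
    rw [hu, cfc_sub (fun _ : ℝ => (1 : ℝ)) (cl δ (1 / δ)) a (by fun_prop)
      (cl_cont _ _).continuousOn, cfc_const_one ℝ a haP.sa, mul_sub, mul_one]
  have hus : star u = u := by rw [hu]; exact (cfc_sa _ _).star_eq
  have h1 : ‖x * u‖ * ‖x * u‖ ≤ 2 * δ := by
    rw [← CStarRing.norm_star_mul_self, star_mul, hus]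
    have e : a = cfc (fun t : ℝ => t) a := (cfc_id' ℝ a haP.sa).symm
    have hc := cl_cont δ (1 / δ)
    have e2 : u * star x * (x * u) = cfc (fun t => (1 - cl δ (1 / δ) t) * t *
        (1 - cl δ (1 / δ) t)) a := by
      calc u * star x * (x * u) = u * a * u := by rw [ha]; simp only [mul_assoc]
        _ = cfc (fun t => 1 - cl δ (1 / δ) t) a * cfc (fun t : ℝ => t) a *
            cfc (fun t => 1 - cl δ (1 / δ) t) a := by rw [← e, hu]
        _ = _ := by rw [cm _ _ _ (by fun_prop) continuous_id', cm _ _ _ (by fun_prop) (by fun_prop)]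
    rw [e2]
    apply norm_cfc_le (by positivity)
    intro t ht
    have h3 := haP.spec t ht
    have h4 := cl_bd δ (1 / δ) t
    rw [Real.norm_eq_abs, abs_le]
    constructor
    · have : 0 ≤ (1 - cl δ (1 / δ) t) * t * (1 - cl δ (1 / δ) t) :=
        mul_nonneg (mul_nonneg (by linarith) h3) (by linarith)
      linarith
    · rcases le_total t (2 * δ) with h5 | h5
      · calc (1 - cl δ (1 / δ) t) * t * (1 - cl δ (1 / δ) t) ≤ 1 * t * 1 := by
              gcongr <;> linarith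
          _ ≤ 2 * δ := by linarith
      · rw [cl_hi (by rw [mul_one_div, le_div_iff₀ hδ]; linarith)]
        simp; positivity
  rw [e1]
  exact Real.le_sqrt_of_sq_le (by rw [sq]; exact h1)

end

section

variable {A G : Type} [CStarAlgebra A] [Group G] [Fintype G] [DecidableEq G]

theorem acfc (α : G → (A ≃⋆ₐ[ℂ] A)) (g : G) (a : A) (ha : IsSelfAdjoint a) (h : α g a = a)
    (k : ℝ → ℝ) (hk : Continuous k) : α g (cfc k a) = cfc k a := by
  have := mcfc ((α g : A ≃⋆ₐ[ℂ] A) : A →⋆ₐ[ℂ] A) k a ha hk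
  have e1 : ((α g : A ≃⋆ₐ[ℂ] A) : A →⋆ₐ[ℂ] A) a = a := h
  rw [e1] at this
  exact this

/-- the room -/
theorem room (hfin : ∀ a b : A, a * b = 1 → b * a = 1)
    (hfull : ∀ c : A, Ps c → c ≠ 0 → ∃ (n : ℕ) (y : Fin n → A), ∑ i, star (y i) * c * y i = 1)
    (x0 : A) (hx0 : x0 ≠ 0) (hx00 : x0 * x0 = 0) (hPED : PED A)
    (α : G → (A ≃⋆ₐ[ℂ] A)) (hα1 : ∀ a : A, α 1 a = a)
    (hαm : ∀ (g h : G) (a : A), α (g * h) a = α g (α h a)) (hW : WT α)
    (x : A) (hx : ∀ g, α g x = x) (hxu : ¬ IsUnit x) (ε : ℝ) (hε : 0 < ε) :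
    ∃ (x' c p0 κ1 κm κ2 V V' : A), (∀ g, α g x' = x') ∧ (∀ g, α g c = c) ∧ (∀ g, α g κ1 = κ1) ∧
      (∀ g, α g κm = κm) ∧ ‖x - x'‖ ≤ ε ∧ Ps p0 ∧ p0 * κ1 = 0 ∧ V * p0 = x' ∧ V * V' = 1 ∧
      V' * V = 1 ∧ V' = star V ∧ V * κ1 = c * κ1 ∧ star c * c * κ1 = κ1 ∧ IsSelfAdjoint κ1 ∧
      IsSelfAdjoint κm ∧ Ps κ2 ∧ κ2 ≠ 0 ∧ κ1 * κm = κm ∧ κm * κ2 = κ2 := by
  obtain ⟨δ, hδ0, hδ1, hδ2⟩ : ∃ δ : ℝ, 0 < δ ∧ δ ≤ 1 / 2 ∧ Real.sqrt (2 * δ) ≤ ε / 2 := by
    refine ⟨min (1 / 2) (ε ^ 2 / 8), by positivity, min_le_left _ _, ?_⟩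
    rw [Real.sqrt_le_left (by positivity)]
    have := min_le_right (1 / 2 : ℝ) (ε ^ 2 / 8)
    nlinarith
  haveI : Nontrivial A := ⟨⟨x0, 0, hx0⟩⟩
  obtain ⟨a, ha⟩ : ∃ a, a = star x * x := ⟨_, rfl⟩
  obtain ⟨a', ha'⟩ : ∃ a', a' = x * star x := ⟨_, rfl⟩
  have haP : Ps a := ⟨x, ha⟩
  have ha'P : Ps a' := ⟨star x, by rw [star_star]; exact ha'⟩
  have haα : ∀ g, α g a = a := fun g => by rw [ha, map_mul, map_star, hx]
  have ha'α : ∀ g, α g a' = a' := fun g => by rw [ha', map_mul, map_star, hx]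
  have hau : ¬ IsUnit a := by
    intro h
    obtain ⟨u, hu⟩ := h
    apply hxu
    have h1 : ((↑u⁻¹ : A) * star x) * x = 1 := by rw [mul_assoc, ← ha, ← hu, Units.inv_mul]
    exact ⟨⟨x, (↑u⁻¹ : A) * star x, hfin _ _ h1, h1⟩, rfl⟩
  have ha'u : ¬ IsUnit a' := by
    intro h
    obtain ⟨u, hu⟩ := h
    apply hxu
    have h1 : x * (star x * (↑u⁻¹ : A)) = 1 := by rw [← mul_assoc, ← ha', ← hu, Units.mul_inv]
    exact ⟨⟨x, star x * (↑u⁻¹ : A), h1, hfin _ _ h1⟩, rfl⟩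
  -- zero divisors
  obtain ⟨k0, hk0⟩ : ∃ k0 : ℝ → ℝ, k0 = fun t => max 0 (1 - t / δ) := ⟨_, rfl⟩
  have hk0c : Continuous k0 := by rw [hk0]; fun_prop
  have hk00 : k0 0 = 1 := by rw [hk0]; simp
  obtain ⟨x1, hx1⟩ : ∃ x1, x1 = x * cfc (cl δ (1 / δ)) a := ⟨_, rfl⟩
  obtain ⟨z1, hz1⟩ : ∃ z1, z1 = cfc k0 a := ⟨_, rfl⟩
  obtain ⟨z2, hz2⟩ : ∃ z2, z2 = cfc k0 a' := ⟨_, rfl⟩
  have hz1s : IsSelfAdjoint z1 := by rw [hz1]; exact cfc_sa _ _
  have hz2s : IsSelfAdjoint z2 := by rw [hz2]; exact cfc_sa _ _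
  have hx1α : ∀ g, α g x1 = x1 := fun g => by
    rw [hx1, map_mul, hx, acfc α g a haP.sa (haα g) _ (cl_cont _ _)]
  have hz1α : ∀ g, α g z1 = z1 := fun g => by rw [hz1, acfc α g a haP.sa (haα g) _ hk0c]
  have hz2α : ∀ g, α g z2 = z2 := fun g => by rw [hz2, acfc α g a' ha'P.sa (ha'α g) _ hk0c]
  have hkc : ∀ t, cl δ (1 / δ) t * k0 t = 0 := by
    intro t
    rcases le_total t δ with h | h
    · rw [cl_lo (by positivity) h, zero_mul]
    · rw [hk0]
      have : 1 - t / δ ≤ 0 := by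
        rw [sub_nonpos, le_div_iff₀ hδ0]; linarith
      simp only [max_eq_left this, mul_zero]
  have hx1z1 : x1 * z1 = 0 := by
    rw [hx1, hz1, mul_assoc, cm _ _ _ (cl_cont _ _) hk0c]
    have : cfc (fun t => cl δ (1 / δ) t * k0 t) a = 0 := by
      simp only [hkc]
      exact cfc_const_zero ℝ a
    rw [this, mul_zero]
  have hz2x1 : z2 * x1 = 0 := by
    have e1 : a' * x = x * a := by rw [ha, ha', mul_assoc]
    rw [hx1, hz2, ← mul_assoc, itw a a' x haP.sa ha'P.sa e1 k0 hk0c, mul_assoc,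
      cm _ _ _ hk0c (cl_cont _ _)]
    have : cfc (fun t => k0 t * cl δ (1 / δ) t) a = 0 := by
      have h1 : ∀ t, k0 t * cl δ (1 / δ) t = 0 := fun t => by rw [mul_comm, hkc]
      simp only [h1]
      exact cfc_const_zero ℝ a
    rw [this, mul_zero]
  have hne : ∀ b : A, IsSelfAdjoint b → ¬ IsUnit b → cfc k0 b ≠ 0 := by
    intro b hb hbu h
    have h1 : (0 : ℝ) ∈ spectrum ℝ b := by rwa [spectrum.zero_mem_iff]
    have h2 : k0 0 ∈ spectrum ℝ (cfc k0 b) := by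
      rw [cfc_map_spectrum k0 b hb hk0c.continuousOn]
      exact ⟨0, h1, rfl⟩
    rw [h, spectrum.zero_eq, hk00] at h2
    exact one_ne_zero h2
  have hz10 : z1 ≠ 0 := by rw [hz1]; exact hne a haP.sa hau
  have hz20 : z2 ≠ 0 := by rw [hz2]; exact hne a' ha'P.sa ha'u
  obtain ⟨b, hbα, hb0⟩ := prime_fix hfin hfull x0 hx0 hx00 α hα1 hαm hW z1 z2 hz1α hz2α hz10 hz20
  obtain ⟨c0, hc0⟩ : ∃ c0, c0 = z2 * b * z1 := ⟨_, rfl⟩
  rw [← hc0] at hb0
  obtain ⟨Q0, hQ0⟩ : ∃ Q0, Q0 = star c0 * c0 := ⟨_, rfl⟩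
  have hQ0P : Ps Q0 := ⟨c0, hQ0⟩
  have hQ00 : Q0 ≠ 0 := fun h => hb0 (CStarRing.star_mul_self_eq_zero_iff c0 |>.1 (hQ0 ▸ h))
  obtain ⟨M, hMd⟩ : ∃ M, M = ‖Q0‖ := ⟨_, rfl⟩
  have hM : 0 < M := by rw [hMd]; exact norm_pos_iff.2 hQ00
  have hc0α : ∀ g, α g c0 = c0 := fun g => by rw [hc0, map_mul, map_mul, hz1α, hz2α, hbα]
  have hQ0α : ∀ g, α g Q0 = Q0 := fun g => by rw [hQ0, map_mul, map_star, hc0α]
  have hx1c0 : x1 * star c0 = 0 := by
    rw [hc0, star_mul, star_mul, hz1s.star_eq, ← mul_assoc, hx1z1, zero_mul]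
  have hc0x1 : star c0 * x1 = 0 := by
    rw [hc0, star_mul, star_mul, hz2s.star_eq, mul_assoc, mul_assoc, hz2x1, mul_zero, mul_zero]
  have hx1Q0 : x1 * Q0 = 0 := by rw [hQ0, ← mul_assoc, hx1c0, zero_mul]
  obtain ⟨φ, hφ⟩ : ∃ φ : ℝ → ℝ, φ = fun t => 1 / Real.sqrt (max t (M / 2)) := ⟨_, rfl⟩
  have hmx : ∀ t : ℝ, 0 < max t (M / 2) := fun t => lt_max_of_lt_right (half_pos hM)
  have hφc : Continuous φ := by
    rw [hφ]
    exact Continuous.div (by fun_prop) (by fun_prop) fun t => (Real.sqrt_pos.2 (hmx t)).ne'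
  obtain ⟨c, hc⟩ : ∃ c, c = c0 * cfc φ Q0 := ⟨_, rfl⟩
  have hcα : ∀ g, α g c = c := fun g => by
    rw [hc, map_mul, hc0α, acfc α g Q0 hQ0P.sa (hQ0α g) _ hφc]
  have hx1c : x1 * star c = 0 := by
    rw [hc, star_mul, (cfc_sa φ Q0).star_eq, ← mul_assoc, right_zero Q0 x1 hQ0P.sa hx1Q0 φ hφc,
      smul_mul_assoc, hx1c0, smul_zero]
  have hcx1 : star c * x1 = 0 := by
    rw [hc, star_mul, mul_assoc, hc0x1, mul_zero]
  -- room functions
  obtain ⟨κ1, hκ1⟩ : ∃ κ1, κ1 = cfc (cl (M / 2) (8 / M)) Q0 := ⟨_, rfl⟩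
  obtain ⟨κm, hκm⟩ : ∃ κm, κm = cfc (cl (5 * M / 8) (8 / M)) Q0 := ⟨_, rfl⟩
  obtain ⟨κ2, hκ2⟩ : ∃ κ2, κ2 = cfc (fun t => max 0 (t - 3 * M / 4)) Q0 := ⟨_, rfl⟩
  have hκ1s : IsSelfAdjoint κ1 := by rw [hκ1]; exact cfc_sa _ _
  have hQκ1 : star c * c * κ1 = κ1 := by
    have h6 : star c * c = cfc φ Q0 * Q0 * cfc φ Q0 := by
      rw [hc, star_mul, (cfc_sa φ Q0).star_eq, hQ0]
      simp only [mul_assoc]
    have e : Q0 = cfc (fun t : ℝ => t) Q0 := (cfc_id' ℝ Q0 hQ0P.sa).symm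
    rw [h6, hκ1]
    calc cfc φ Q0 * Q0 * cfc φ Q0 * cfc (cl (M / 2) (8 / M)) Q0 =
        cfc φ Q0 * cfc (fun t : ℝ => t) Q0 * cfc φ Q0 * cfc (cl (M / 2) (8 / M)) Q0 := by rw [← e]
      _ = _ := by
        rw [cm _ _ _ hφc continuous_id', cm _ _ _ (by fun_prop) hφc,
          cm _ _ _ (by fun_prop) (cl_cont _ _)]
        apply cfc_congr
        intro t _
        show φ t * t * φ t * cl (M / 2) (8 / M) t = cl (M / 2) (8 / M) t
        rcases le_total t (M / 2) with h | h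
        · rw [cl_lo (by positivity) h, mul_zero]
        · have h8 : max t (M / 2) = t := max_eq_left h
          have h9 : 0 < t := by linarith
          have h10 : φ t * t * φ t = 1 := by
            rw [hφ]
            simp only [h8]
            have h11 := Real.mul_self_sqrt h9.le
            have h12 := Real.sqrt_pos.2 h9
            field_simp
            nlinarith
          rw [h10, one_mul]
  have hx1κ1 : x1 * κ1 = 0 := by
    rw [hκ1, right_zero Q0 x1 hQ0P.sa hx1Q0 _ (cl_cont _ _), cl_lo (by positivity) (by positivity),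
      zero_smul]
  -- polar decomposition
  obtain ⟨P, hP⟩ : ∃ P, P = star x1 * x1 := ⟨_, rfl⟩
  have hPP : Ps P := ⟨x1, hP⟩
  obtain ⟨y, hy⟩ : ∃ y, y = x1 + c := ⟨_, rfl⟩
  have hyy : star y * y = P + star c * c := by
    have h1 : star x1 * c = 0 := by
      have := congrArg star hcx1
      rwa [star_mul, star_star, star_zero] at this
    rw [hy, star_add, add_mul, mul_add, mul_add, h1, hcx1, hP]
    abel
  have hcP : c * P = 0 := by
    have h1 : c * star x1 = 0 := by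
      have := congrArg star hx1c
      rwa [star_mul, star_star, star_zero] at this
    rw [hP, ← mul_assoc, h1, zero_mul]
  obtain ⟨Gf, hGf⟩ : ∃ Gf : ℝ → ℝ, Gf = fun t => cl δ (1 / δ) t / Real.sqrt (max t δ) := ⟨_, rfl⟩
  have hmx2 : ∀ t : ℝ, 0 < max t δ := fun t => lt_max_of_lt_right hδ0
  have hGc : Continuous Gf := by
    rw [hGf]
    exact Continuous.div (cl_cont _ _) (by fun_prop) fun t => (Real.sqrt_pos.2 (hmx2 t)).ne'
  have hG0 : ∀ t, t ≤ δ → Gf t = 0 := by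
    intro t ht
    rw [hGf]
    simp only [cl_lo (show 0 < 1 / δ by positivity) ht, zero_div]
  obtain ⟨Vu, hV⟩ := hPED y δ hδ0
  have hV1 := hV Gf hGc hG0
  obtain ⟨Gs, hGs⟩ : ∃ Gs : ℝ → ℝ, Gs = fun t => cl δ (1 / δ) t / max t δ := ⟨_, rfl⟩
  have hGsc : Continuous Gs := by
    rw [hGs]
    exact Continuous.div (cl_cont _ _) (by fun_prop) fun t => (hmx2 t).ne'
  have hGG : (fun t => Gf t / Real.sqrt t) = Gs := by
    funext t
    rw [hGf, hGs]
    rcases le_total t δ with h | h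
    · simp only [cl_lo (show 0 < 1 / δ by positivity) h, zero_div]
    · have h8 : max t δ = t := max_eq_left h
      have h9 : 0 < t := by linarith
      simp only [h8]
      have h11 := Real.mul_self_sqrt h9.le
      rw [div_div, h11]
  rw [hGG, hyy] at hV1
  have hQcs : IsSelfAdjoint (P + star c * c) := hPP.sa.add (IsSelfAdjoint.star_mul_self c)
  have hPQ : (P + star c * c) * P = P * P := by
    rw [add_mul, mul_assoc (star c), hcP, mul_zero, add_zero]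
  have f1 := itw P (P + star c * c) P hPP.sa hQcs hPQ Gf hGc
  have f2 := itw P (P + star c * c) P hPP.sa hQcs hPQ Gs hGsc
  obtain ⟨p0, hp0⟩ : ∃ p0, p0 = P * cfc Gf P := ⟨_, rfl⟩
  obtain ⟨x', hx'⟩ : ∃ x', x' = x1 * (P * cfc Gs P) := ⟨_, rfl⟩
  have hVp : (Vu : A) * p0 = x' := by
    calc (Vu : A) * p0 = ((Vu : A) * cfc Gf (P + star c * c)) * P := by
          rw [hp0, ← f1, mul_assoc]
      _ = y * (cfc Gs (P + star c * c) * P) := by rw [hV1, mul_assoc]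
      _ = y * P * cfc Gs P := by rw [f2, mul_assoc]
      _ = x' := by rw [hy, add_mul, hcP, add_zero, hx', mul_assoc]
  have e1P : P = cfc (fun t : ℝ => t) P := (cfc_id' ℝ P hPP.sa).symm
  have hx'e : x' = x1 * cfc (cl δ (1 / δ)) P := by
    rw [hx']
    congr 1
    calc P * cfc Gs P = cfc (fun t : ℝ => t) P * cfc Gs P := by rw [← e1P]
      _ = _ := by
        rw [cm _ _ _ continuous_id' hGsc]
        apply cfc_congr
        intro t _
        show t * Gs t = cl δ (1 / δ) t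
        rw [hGs]
        rcases le_total t δ with h | h
        · simp only [cl_lo (show 0 < 1 / δ by positivity) h, zero_div, mul_zero]
        · have h8 : max t δ = t := max_eq_left h
          have h9 : 0 < t := by linarith
          simp only [h8]
          field_simp
  have hp0P : Ps p0 := by
    have : p0 = cfc (fun t => max 0 (t * Gf t)) P := by
      calc p0 = cfc (fun t : ℝ => t) P * cfc Gf P := by rw [← e1P, hp0]
        _ = _ := by
          rw [cm _ _ _ continuous_id' hGc]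
          apply cfc_congr
          intro t ht
          have h1 := hPP.spec t ht
          have h2 : 0 ≤ Gf t := by
            rw [hGf]
            exact div_nonneg (cl_bd _ _ _).1 (Real.sqrt_nonneg _)
          exact (max_eq_right (mul_nonneg h1 h2)).symm
    rw [this]
    exact ps_max hPP.sa _ (by fun_prop)
  have hPκ1 : P * κ1 = 0 := by rw [hP, mul_assoc, hx1κ1, mul_zero]
  have hp0κ : p0 * κ1 = 0 := by
    have : P * cfc Gf P = cfc Gf P * P := ((Commute.refl P).cfc_real Gf).eq.symm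
    rw [hp0, this, mul_assoc, hPκ1, mul_zero]
  have hone : (P + star c * c) * κ1 = κ1 := by rw [add_mul, hPκ1, zero_add, hQκ1]
  have hGf1 : Gf 1 = 1 := by
    rw [hGf]
    have h8 : max (1 : ℝ) δ = 1 := max_eq_left (by linarith)
    simp only [h8, Real.sqrt_one, div_one]
    apply cl_hi
    rw [mul_one_div, le_div_iff₀ hδ0]; linarith
  have hGs1 : Gs 1 = 1 := by
    rw [← hGG]; simp [hGf1]
  have hVκ : (Vu : A) * κ1 = c * κ1 := by
    have g1 := left_one (P + star c * c) κ1 hQcs hone Gf hGc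
    have g2 := left_one (P + star c * c) κ1 hQcs hone Gs hGsc
    rw [hGf1, one_smul] at g1
    rw [hGs1, one_smul] at g2
    calc (Vu : A) * κ1 = ((Vu : A) * cfc Gf (P + star c * c)) * κ1 := by rw [mul_assoc, g1]
      _ = y * κ1 := by rw [hV1, mul_assoc, g2]
      _ = c * κ1 := by rw [hy, add_mul, hx1κ1, zero_add]
  have hPα : ∀ g, α g P = P := fun g => by rw [hP, map_mul, map_star, hx1α]
  refine ⟨x', c, p0, κ1, κm, κ2, Vu, star (Vu : A), fun g => ?_, hcα, fun g => ?_, fun g => ?_, ?_,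
    hp0P, hp0κ, hVp, Unitary.coe_mul_star_self Vu, Unitary.coe_star_mul_self Vu, rfl, hVκ, hQκ1,
    hκ1s, ?_, ?_, ?_, ?_, ?_⟩
  · rw [hx'e, map_mul, hx1α, acfc α g P hPP.sa (hPα g) _ (cl_cont _ _)]
  · rw [hκ1, acfc α g Q0 hQ0P.sa (hQ0α g) _ (cl_cont _ _)]
  · rw [hκm, acfc α g Q0 hQ0P.sa (hQ0α g) _ (cl_cont _ _)]
  · have d1 := cut_close x δ hδ0
    have d2 := cut_close x1 δ hδ0
    rw [← ha, ← hx1] at d1
    rw [← hP, ← hx'e] at d2
    calc ‖x - x'‖ = ‖(x - x1) + (x1 - x')‖ := by rw [sub_add_sub_cancel]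
      _ ≤ ‖x - x1‖ + ‖x1 - x'‖ := norm_add_le _ _
      _ ≤ ε := by linarith
  · rw [hκm]; exact cfc_sa _ _
  · rw [hκ2]; exact ps_max hQ0P.sa _ (by fun_prop)
  · rw [hκ2]
    exact top_ne hQ0P _ (by positivity) (by rw [← hMd]; linarith)
  · rw [hκ1, hκm, cm _ _ _ (cl_cont _ _) (cl_cont _ _)]
    apply cfc_congr
    intro t _
    show cl (M / 2) (8 / M) t * cl (5 * M / 8) (8 / M) t = cl (5 * M / 8) (8 / M) t
    rcases le_total t (5 * M / 8) with h | h
    · rw [cl_lo (a := 5 * M / 8) (by positivity) h, mul_zero]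
    · rw [cl_hi (a := M / 2), one_mul]
      rw [mul_div_assoc', le_div_iff₀ hM]
      linarith
  · rw [hκm, hκ2, cm _ _ _ (cl_cont _ _) (by fun_prop)]
    apply cfc_congr
    intro t _
    show cl (5 * M / 8) (8 / M) t * max 0 (t - 3 * M / 4) = max 0 (t - 3 * M / 4)
    rcases le_total (t - 3 * M / 4) 0 with h | h
    · rw [max_eq_left h, mul_zero]
    · rw [cl_hi, one_mul]
      rw [mul_div_assoc', le_div_iff₀ hM]
      linarith

end

end Pool.Agent.H898SR
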