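import Pool.Agent.H898SR.Base

/-! The K₁-lemma: surjectivity of `GL(1 + Her(e)) → K₁(A)`. -/

set_option autoImplicit false
set_option linter.unusedSectionVars false

noncomputable section

namespace Pool.Agent.H898SR

open Filter Topology Pool.Agent.H923R2.FZ

section conn

variable {R : Type} [Ring R] [TopologicalSpace R] [IsTopologicalRing R] [Algebra ℂ R]
  [ContinuousSMul ℂ R]

/-- connected to `1` in the group of units -/
def Conn (u : R) : Prop :=
  ∃ γ γ' : ℝ → R, Continuous γ ∧ Continuous γ' ∧ (∀ t, γ t * γ' t = 1) ∧ (∀ t, γ' t * γ t = 1) ∧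
    γ 0 = 1 ∧ γ 1 = u

theorem conn_one : Conn (1 : R) :=
  ⟨fun _ => 1, fun _ => 1, continuous_const, continuous_const, by simp, by simp, rfl, rfl⟩

theorem Conn.mul {u v : R} (hu : Conn u) (hv : Conn v) : Conn (u * v) := by
  obtain ⟨g, g', h1, h2, h3, h4, h5, h6⟩ := hu
  obtain ⟨k, k', i1, i2, i3, i4, i5, i6⟩ := hv
  refine ⟨fun t => g t * k t, fun t => k' t * g' t, h1.mul i1, i2.mul h2, fun t => ?_,
    fun t => ?_, by simp [h5, i5], by simp [h6, i6]⟩
  · show g t * k t * (k' t * g' t) = 1
    rw [mul_assoc, ← mul_assoc (k t), i3, one_mul, h3]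
  · show k' t * g' t * (g t * k t) = 1
    rw [mul_assoc, ← mul_assoc (g' t), h4, one_mul, i4]

theorem Conn.inv {u v : R} (hu : Conn u) (huv : u * v = 1) : Conn v := by
  obtain ⟨g, g', h1, h2, h3, h4, h5, h6⟩ := hu
  refine ⟨g', g, h2, h1, h4, h3, ?_, ?_⟩
  · have := h3 0
    rwa [h5, one_mul] at this
  · have e := h4 1
    rw [h6] at e
    calc g' 1 = g' 1 * (u * v) := by rw [huv, mul_one]
      _ = v := by rw [← mul_assoc, e, one_mul]

theorem conn_nil {X : R} (h : X * X = 0) : Conn (1 + X) := by
  refine ⟨fun t => 1 + (t : ℂ) • X, fun t => 1 + (-(t : ℂ)) • X, ?_, ?_, fun t => ?_,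
    fun t => ?_, by simp, by simp⟩
  · exact continuous_const.add ((Complex.continuous_ofReal).smul continuous_const)
  · exact continuous_const.add ((Complex.continuous_ofReal.neg).smul continuous_const)
  · show (1 + (t : ℂ) • X) * (1 + (-(t : ℂ)) • X) = 1
    rw [mul_add, add_mul, add_mul, smul_mul_smul_comm, h]
    simp
  · show (1 + (-(t : ℂ)) • X) * (1 + (t : ℂ) • X) = 1
    rw [mul_add, add_mul, add_mul, smul_mul_smul_comm, h]
    simp

theorem conn_nil' {X : R} (h : X * X = 0) : Conn (1 - X) := by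
  rw [sub_eq_add_neg]
  exact conn_nil (by rw [neg_mul_neg, h])

theorem Conn.conj {u z z' : R} (hu : Conn u) (h1 : z * z' = 1) (h2 : z' * z = 1) :
    Conn (z * u * z') := by
  obtain ⟨g, g', i1, i2, i3, i4, i5, i6⟩ := hu
  refine ⟨fun t => z * g t * z', fun t => z * g' t * z', (continuous_const.mul i1).mul
    continuous_const, (continuous_const.mul i2).mul continuous_const, fun t => ?_, fun t => ?_,
    by simp [i5, h1], by simp [i6]⟩
  · show z * g t * z' * (z * g' t * z') = 1
    calc _ = z * (g t * (z' * z) * g' t) * z' := by noncomm_ring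
      _ = 1 := by rw [h2, mul_one, i3, mul_one, h1]
  · show z * g' t * z' * (z * g t * z') = 1
    calc _ = z * (g' t * (z' * z) * g t) * z' := by noncomm_ring
      _ = 1 := by rw [h2, mul_one, i4, mul_one, h1]

end conn

section ring

variable {R : Type} [Ring R]

theorem ldu (q T P : R) (hq : q * q = q) (hP1 : q * P = P) (h1 : P * T * q = q)
    (h2 : q * T * P = q) :
    (1 - (1 - q) * T * P) * T * (1 - P * T * (1 - q)) =
      (q * T * q + (1 - q)) * (q + (1 - q) * T * (1 - q) - (1 - q) * (T * P * T) * (1 - q)) := by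
  have h3 : P * T * P = P := by
    calc P * T * P = P * T * (q * P) := by rw [hP1]
      _ = (P * T * q) * P := by noncomm_ring
      _ = P := by rw [h1, hP1]
  obtain ⟨Z, hZ⟩ : ∃ Z, Z = T * P * T := ⟨_, rfl⟩
  have hZ2 : T * P * T * P * T = Z := by
    calc T * P * T * P * T = T * (P * T * P) * T := by noncomm_ring
      _ = Z := by rw [h3, hZ]
  have hZq : Z * q = T * q := by
    calc Z * q = T * (P * T * q) := by rw [hZ]; noncomm_ring
      _ = T * q := by rw [h1]
  have hqZ : q * Z = q * T := by
    calc q * Z = (q * T * P) * T := by rw [hZ]; noncomm_ring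
      _ = q * T := by rw [h2]
  have e1 : (1 - (1 - q) * T * P) * T * (1 - P * T * (1 - q)) =
      T - T * P * T + T * P * T * q - T * P * T + q * (T * P * T) + T * P * T * P * T
        - T * P * T * P * T * q - q * (T * P * T * P * T) + q * (T * P * T * P * T * q) := by
    noncomm_ring
  rw [e1, hZ2, ← hZ]
  have e2 : (q * T * q + (1 - q)) * (q + (1 - q) * T * (1 - q) - (1 - q) * Z * (1 - q)) =
      q * T * (q * q) + q * T * (q * T) - q * T * (q * T) * q - q * T * (q * q) * T
        + q * T * (q * q) * T * q - q * T * (q * Z) + q * T * (q * Z) * q + q * T * (q * q) * Z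
        - q * T * (q * q) * Z * q + q - q * q + (1 - q) * (1 - q) * T * (1 - q)
        - (1 - q) * (1 - q) * Z * (1 - q) := by
    noncomm_ring
  have e3 : (1 - q) * (1 - q) = 1 - q := by
    rw [mul_sub, sub_mul, sub_mul, hq]; simp
  rw [e2, e3, hq]
  have e4 : (1 - q) * T * (1 - q) = T - T * q - q * T + q * T * q := by noncomm_ring
  have e5 : (1 - q) * Z * (1 - q) = Z - Z * q - q * Z + q * Z * q := by noncomm_ring
  have e6 : q * (Z * q) = q * T * q := by rw [hZq, mul_assoc]
  have e7 : q * Z * q = q * T * q := by rw [hqZ]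
  have e8 : q * T * q * Z = q * T * (q * T) := by rw [mul_assoc, hqZ]
  have e9 : q * T * q * T = q * T * (q * T) := by rw [mul_assoc]
  rw [e4, e5, e6, e7, hqZ, hZq, e8, e9]
  abel

end ring

/-- `κ (T-1) = T-1 = (T-1) κ` -/
def In1 {R : Type} [Ring R] (κ T : R) : Prop := κ * (T - 1) = T - 1 ∧ (T - 1) * κ = T - 1

section in1

variable {R : Type} [Ring R]

theorem In1.mul {κ T T' : R} (h : In1 κ T) (h' : In1 κ T') : In1 κ (T * T') := by
  constructor
  · have e : T * T' - 1 = (T - 1) * T' + (T' - 1) := by noncomm_ring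
    rw [e, mul_add, ← mul_assoc, h.1, h'.1]
  · have e : T * T' - 1 = T * (T' - 1) + (T - 1) := by noncomm_ring
    rw [e, add_mul, mul_assoc, h.2, h'.2]

theorem In1.inv {κ T T' : R} (h : In1 κ T) (h1 : T * T' = 1) (h2 : T' * T = 1) : In1 κ T' := by
  constructor
  · have e : T' - 1 = -((T - 1) * T') := by rw [sub_mul, h1]; noncomm_ring
    rw [e, mul_neg, ← mul_assoc, h.1]
  · have e : T' - 1 = -(T' * (T - 1)) := by rw [mul_sub, h2]; noncomm_ring
    rw [e, neg_mul, mul_assoc, h.2]

theorem In1.one {κ : R} : In1 κ (1 : R) := by constructor <;> simp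

theorem In1.add {κ T X : R} (h : In1 κ T) (h1 : κ * X = X) (h2 : X * κ = X) : In1 κ (T + X) := by
  have e : T + X - 1 = (T - 1) + X := by abel
  constructor
  · rw [e, mul_add, h.1, h1]
  · rw [e, add_mul, h.2, h2]

end in1

section mat

open Matrix

variable {A : Type} [CStarAlgebra A] {n : Type} [Fintype n] [DecidableEq n]

theorem sg_sub (i j : n) (x y : A) : single i j (x - y) = single i j x - single i j y := by
  ext a b
  simp only [Matrix.sub_apply, single_apply]
  split_ifs <;> simp

/-- `diag(x, 1, ...)` with `x` at the place `a` -/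
def Dg (a : n) (x : A) : Matrix n n A := single a a x + (1 - single a a 1)

theorem Dg_mul (a : n) (x y : A) : Dg a x * Dg a y = Dg a (x * y) := by
  unfold Dg
  simp only [mul_add, add_mul, mul_sub, sub_mul, single_mul_single_same, mul_one, one_mul]
  abel

theorem Dg_one (a : n) : Dg a (1 : A) = 1 := by unfold Dg; abel

theorem whitehead (a b : n) (hab : a ≠ b) (x x' : A) (h1 : x * x' = 1) (h2 : x' * x = 1) :
    Conn (Dg a x * Dg b x') := by
  have hba : b ≠ a := hab.symm
  have z : ∀ c : A, single a b c * single a b c = (0 : Matrix n n A) := fun c =>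
    single_mul_single_of_ne _ _ _ _ hba _
  have z' : ∀ c : A, single b a c * single b a c = (0 : Matrix n n A) := fun c =>
    single_mul_single_of_ne _ _ _ _ hab _
  have e : Dg a x * Dg b x' = (1 + single a b x) * (1 - single b a x') * (1 + single a b x) *
      ((1 - single a b 1) * (1 + single b a 1) * (1 - single a b 1)) := by
    have e1 : (1 + single a b x) * (1 - single b a x') * (1 + single a b x) =
        1 - single a a (1 : A) - single b b 1 + single a b x - single b a x' := by
      simp only [mul_add, add_mul, mul_sub, sub_mul, single_mul_single_same, mul_one, one_mul,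
        single_mul_single_of_ne _ _ _ _ hab, single_mul_single_of_ne _ _ _ _ hba, h1, h2]
      abel
    have e2 : (1 - single a b (1 : A)) * (1 + single b a 1) * (1 - single a b 1) =
        1 - single a a (1 : A) - single b b 1 - single a b 1 + single b a 1 := by
      simp only [mul_add, add_mul, mul_sub, sub_mul, single_mul_single_same, mul_one, one_mul,
        single_mul_single_of_ne _ _ _ _ hab, single_mul_single_of_ne _ _ _ _ hba]
      abel
    rw [e1, e2]
    unfold Dg
    simp only [mul_add, add_mul, mul_sub, sub_mul, single_mul_single_same, mul_one, one_mul,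
        single_mul_single_of_ne _ _ _ _ hab, single_mul_single_of_ne _ _ _ _ hba]
    abel
  rw [e]
  exact (((conn_nil (z x)).mul (conn_nil' (z' x'))).mul (conn_nil (z x))).mul
    (((conn_nil' (z 1)).mul (conn_nil (z' 1))).mul (conn_nil' (z 1)))

/-- the projection on `s`, times `k` -/
def kap (s : Finset n) (k : A) : Matrix n n A := Matrix.diagonal fun a => if a ∈ s then k else 0

theorem kap_insert (s : Finset n) (a : n) (ha : a ∉ s) (k : A) :
    kap s k = (1 - single a a 1) * kap (insert a s) k ∧
    kap s k = kap (insert a s) k * (1 - single a a 1) ∧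
    single a a 1 * kap (insert a s) k = single a a k ∧
    kap (insert a s) k * single a a 1 = single a a k := by
  have h1 : single a a 1 * kap (insert a s) k = single a a k := by
    ext i j
    unfold kap
    rw [mul_diagonal]
    by_cases hi : a = i
    · by_cases hj : a = j
      · subst hi; subst hj; simp
      · simp [single_apply, hj]
    · simp [single_apply, hi]
  have h2 : kap (insert a s) k * single a a 1 = single a a k := by
    ext i j
    unfold kap
    rw [diagonal_mul]
    by_cases hi : a = i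
    · by_cases hj : a = j
      · subst hi; subst hj; simp
      · simp [single_apply, hj]
    · simp [single_apply, hi]
  have h3 : kap s k = kap (insert a s) k - single a a k := by
    ext i j
    unfold kap
    rw [Matrix.sub_apply, diagonal_apply, diagonal_apply, single_apply]
    by_cases hij : i = j
    · subst hij
      by_cases hi : a = i
      · subst hi; simp [ha]
      · have : i ≠ a := fun h => hi h.symm
        simp [hi, this]
    · have : ¬ (a = i ∧ a = j) := fun h => hij (h.1.symm.trans h.2)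
      simp [hij, this]
  refine ⟨?_, ?_, h1, h2⟩
  · rw [sub_mul, one_mul, h1, h3]
  · rw [mul_sub, mul_one, h2, h3]

theorem gauss (hSR : SR A) (k : A) (hk : IsSelfAdjoint k) (o : n) : ∀ s : Finset n, o ∉ s →
    ∀ T T' : Matrix n n A, T * T' = 1 → T' * T = 1 → In1 (kap s k) T →
    ∃ w w' : A, w * w' = 1 ∧ w' * w = 1 ∧ In1 k w ∧ Conn (T * Dg o w) := by
  intro s
  induction s using Finset.induction_on with
  | empty =>
    intro _ T T' hT1 hT2 hI
    have h0 : kap (∅ : Finset n) k = 0 := by
      ext i j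
      simp [kap, diagonal_apply]
    have h1 : T = 1 := by
      have := hI.1
      rw [h0, zero_mul] at this
      exact (sub_eq_zero.1 this.symm)
    refine ⟨1, 1, by simp, by simp, In1.one, ?_⟩
    rw [h1, Dg_one, one_mul]
    exact conn_one
  | insert a s ha ih =>
    intro ho T T' hT1 hT2 hI
    have hoa : o ≠ a := fun h => ho (h ▸ Finset.mem_insert_self _ _)
    have hos : o ∉ s := fun h => ho (Finset.mem_insert_of_mem h)
    obtain ⟨hs1, hs2, hq1, hq2⟩ := kap_insert s a ha k
    obtain ⟨κ, hκ⟩ : ∃ κ, κ = kap (insert a s) k := ⟨_, rfl⟩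
    rw [← hκ] at hs1 hs2 hq1 hq2 hI
    have hI' := hI.inv hT1 hT2
    have hen : ∀ M : Matrix n n A, κ * M = M → k * M a a = M a a := by
      intro M hM
      have := congrFun (congrFun hM a) a
      rw [hκ] at this
      unfold kap at this
      rw [diagonal_mul] at this
      simpa using this
    have hen' : ∀ M : Matrix n n A, M * κ = M → M a a * k = M a a := by
      intro M hM
      have := congrFun (congrFun hM a) a
      rw [hκ] at this
      unfold kap at this
      rw [mul_diagonal] at this
      simpa using this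
    have hx0 : (T' - 1) a a = T' a a - 1 := by simp [Matrix.sub_apply]
    have ht0 : (T - 1) a a = T a a - 1 := by simp [Matrix.sub_apply]
    have hx1 := hen _ hI'.1
    have hx2 := hen' _ hI'.2
    have ht1 := hen _ hI.1
    have ht2 := hen' _ hI.2
    rw [hx0] at hx1 hx2
    rw [ht0] at ht1 ht2
    obtain ⟨β, hβu, hβ1, hβ2, hβ3⟩ := T_R1a.t_R1a A hSR k (T' a a - 1) hk hx1 hx2 1
      (1 / (‖T a a‖ + 1)) one_pos (by positivity)
    simp only [Complex.ofReal_one, one_smul] at hβ1 hβ2 hβ3
    rw [add_sub_cancel] at hβ3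
    have hβI : In1 k β := by
      constructor
      · rw [sub_mul, one_mul] at hβ1
        rw [mul_sub, mul_one]
        have : β - k * β = 1 - k := hβ1
        calc k * β - k = β - (β - k * β) - k := by abel
          _ = β - 1 := by rw [this]; abel
      · rw [mul_sub, mul_one] at hβ2
        rw [sub_mul, one_mul]
        calc β * k - k = β - (β - β * k) - k := by abel
          _ = β - 1 := by rw [hβ2]; abel
    obtain ⟨v, hv⟩ : ∃ v, v = 1 + (β - T' a a) * T a a := ⟨_, rfl⟩
    have hvu : IsUnit v := by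
      have e : v = 1 - (-((β - T' a a) * T a a)) := by rw [hv]; abel
      rw [e]
      refine (Units.oneSub _ ?_).isUnit
      rw [norm_neg]
      calc _ ≤ ‖β - T' a a‖ * ‖T a a‖ := norm_mul_le _ _
        _ ≤ 1 / (‖T a a‖ + 1) * ‖T a a‖ := mul_le_mul_of_nonneg_right hβ3.le (norm_nonneg _)
        _ < 1 := by
          rw [div_mul_eq_mul_div, one_mul, div_lt_one (by positivity)]
          linarith
    have hvI : In1 k v := by
      have e : β - T' a a = (β - 1) - (T' a a - 1) := by abel
      have e1 : k * (β - T' a a) = β - T' a a := by rw [e, mul_sub, hβI.1, hx1]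
      have e2 : (β - T' a a) * k = β - T' a a := by rw [e, sub_mul, hβI.2, hx2]
      rw [hv]
      apply In1.one.add
      · rw [← mul_assoc, e1]
      · have e3 : (β - T' a a) * T a a * k = (β - T' a a) * k + (β - T' a a) * ((T a a - 1) * k) := by
          noncomm_ring
        rw [e3, e2, ht2]
        noncomm_ring
    obtain ⟨bu, rfl⟩ := hβu
    obtain ⟨vu, hvu'⟩ := hvu
    obtain ⟨β, hβdef⟩ : ∃ β : A, β = bu := ⟨_, rfl⟩
    obtain ⟨β', hβ'⟩ : ∃ β' : A, β' = (↑bu⁻¹ : A) := ⟨_, rfl⟩
    obtain ⟨v', hv'⟩ : ∃ v' : A, v' = (↑vu⁻¹ : A) := ⟨_, rfl⟩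
    have b1 : β * β' = 1 := by rw [hβdef, hβ', Units.mul_inv]
    have b2 : β' * β = 1 := by rw [hβdef, hβ', Units.inv_mul]
    have v1 : v * v' = 1 := by rw [← hvu', hv', Units.mul_inv]
    have v2 : v' * v = 1 := by rw [← hvu', hv', Units.inv_mul]
    rw [← hβdef] at hv hβI
    have hβ'I := hβI.inv b1 b2
    have hv'I := hvI.inv v1 v2
    obtain ⟨π, hπ⟩ : ∃ π, π = β' * v := ⟨_, rfl⟩
    obtain ⟨π', hπ'⟩ : ∃ π', π' = v' * β := ⟨_, rfl⟩
    have p1 : π * π' = 1 := by
      rw [hπ, hπ']
      calc β' * v * (v' * β) = β' * (v * v') * β := by noncomm_ring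
        _ = 1 := by rw [v1, mul_one, b2]
    have p2 : π' * π = 1 := by
      rw [hπ, hπ']
      calc v' * β * (β' * v) = v' * (β * β') * v := by noncomm_ring
        _ = 1 := by rw [b1, mul_one, v2]
    have hπI : In1 k π := by rw [hπ]; exact hβ'I.mul hvI
    have hπ'I : In1 k π' := by rw [hπ']; exact hv'I.mul hβI
    obtain ⟨q, hq⟩ : ∃ q : Matrix n n A, q = single a a 1 := ⟨_, rfl⟩
    have hqs : ∀ c : A, q * single a a c = single a a c := fun c => by
      rw [hq, single_mul_single_same, one_mul]
    have hsq : ∀ c : A, single a a c * q = single a a c := fun c => by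
      rw [hq, single_mul_single_same, mul_one]
    have hqq : q * q = q := by rw [hq, single_mul_single_same, mul_one]
    have hss : ∀ c d : A, single a a c * single a a d = (single a a (c * d) : Matrix n n A) :=
      fun c d => by rw [single_mul_single_same]
    have hsms : ∀ (M : Matrix n n A) (c d : A), single a a c * M * single a a d =
        (single a a (c * M a a * d) : Matrix n n A) := fun M c d => by
      rw [single_mul_mul_single]
    rw [← hq] at hs1 hs2 hq1 hq2
    obtain ⟨N1, hN1⟩ : ∃ N1, N1 = single a a β' * T' * (1 - q) := ⟨_, rfl⟩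
    have hN1sq : N1 * N1 = 0 := by
      have e : N1 * N1 = single a a β' * T' * (single a a β' - q * single a a β') * T' *
        (1 - q) := by rw [hN1]; noncomm_ring
      rw [e, hqs, sub_self, mul_zero, zero_mul, zero_mul]
    obtain ⟨T1, hT1d⟩ : ∃ T1, T1 = (1 + N1) * T := ⟨_, rfl⟩
    obtain ⟨T1', hT1'd⟩ : ∃ T1', T1' = T' * (1 - N1) := ⟨_, rfl⟩
    have hu1 : (1 + N1) * (1 - N1) = 1 := by
      calc (1 + N1) * (1 - N1) = 1 - N1 * N1 := by noncomm_ring
        _ = 1 := by rw [hN1sq, sub_zero]
    have hu2 : (1 - N1) * (1 + N1) = 1 := by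
      calc (1 - N1) * (1 + N1) = 1 - N1 * N1 := by noncomm_ring
        _ = 1 := by rw [hN1sq, sub_zero]
    have t1 : T1 * T1' = 1 := by
      rw [hT1d, hT1'd]
      calc (1 + N1) * T * (T' * (1 - N1)) = (1 + N1) * (T * T') * (1 - N1) := by noncomm_ring
        _ = 1 := by rw [hT1, mul_one, hu1]
    have t2 : T1' * T1 = 1 := by
      rw [hT1d, hT1'd]
      calc T' * (1 - N1) * ((1 + N1) * T) = T' * ((1 - N1) * (1 + N1)) * T := by noncomm_ring
        _ = 1 := by rw [hu2, mul_one, hT2]
    have hκB : κ * single a a β' = κ * q + single a a β' - q := by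
      have e1 : κ * single a a β' = κ * q * single a a β' := by rw [mul_assoc, hqs]
      have e2 : k * β' = k + β' - 1 := by
        have := hβ'I.1
        rw [mul_sub, mul_one] at this
        calc k * β' = (k * β' - k) + k := by abel
          _ = _ := by rw [this]; abel
      rw [e1, hq2, hss, e2, hq, ← single_add, ← sg_sub]
    have hN1I : In1 κ (1 + N1) := by
      have e0 : N1 = single a a β' * (T' - 1) * (1 - q) := by
        have : single a a β' * (1 - q) = (0 : Matrix n n A) := by
          rw [mul_sub, hsq, mul_one, sub_self]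
        rw [hN1]
        calc _ = single a a β' * (T' - 1) * (1 - q) + single a a β' * (1 - q) := by noncomm_ring
          _ = _ := by rw [this, add_zero]
      apply In1.one.add
      · rw [e0]
        calc κ * (single a a β' * (T' - 1) * (1 - q)) =
            (κ * single a a β') * (T' - 1) * (1 - q) := by noncomm_ring
          _ = (q * (κ * (T' - 1)) + single a a β' * (T' - 1) - q * (T' - 1)) * (1 - q) := by
              rw [hκB, hq2, ← hq1]; noncomm_ring
          _ = _ := by rw [hI'.1]; noncomm_ring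
      · rw [e0]
        calc single a a β' * (T' - 1) * (1 - q) * κ = single a a β' * (T' - 1) * ((1 - q) * κ) := by
              noncomm_ring
          _ = single a a β' * ((T' - 1) * κ) * (1 - q) := by rw [← hs1, hs2]; noncomm_ring
          _ = _ := by rw [hI'.2]
    have hT1I : In1 κ T1 := by rw [hT1d]; exact hN1I.mul hI
    have hpiv : q * T1 * q = single a a π := by
      have e1 : q * T1 * q = q * T * q + (q * single a a β') * (T' * T) * q -
          (q * single a a β') * T' * q * T * q := by
        rw [hT1d, hN1]; noncomm_ring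
      have e2 : q * T * q = single a a (T a a) := by
        rw [hq, hsms, one_mul, mul_one]
      have e3 : single a a β' * T' * q = single a a (β' * T' a a) := by
        rw [hq, hsms, mul_one]
      have e4 : single a a (β' * T' a a) * T * q = single a a (β' * T' a a * T a a) := by
        rw [hq, hsms, mul_one]
      have e5 : π = T a a + β' - β' * T' a a * T a a := by
        rw [hπ, hv]
        calc β' * (1 + (β - T' a a) * T a a) = β' + (β' * β) * T a a - β' * T' a a * T a a := by
              noncomm_ring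
          _ = _ := by rw [b2, one_mul]; abel
      rw [e1, hT2, mul_one, hqs, hsq, e2, e3, e4, e5, sg_sub, single_add]
    obtain ⟨P, hP⟩ : ∃ P : Matrix n n A, P = single a a π' := ⟨_, rfl⟩
    have hqP : q * P = P := by rw [hP, hqs]
    have hPq : P * q = P := by rw [hP, hsq]
    have hP1 : P * T1 * q = q := by
      calc P * T1 * q = (P * q) * T1 * q := by rw [hPq]
        _ = P * (q * T1 * q) := by noncomm_ring
        _ = q := by rw [hpiv, hP, hss, p2, hq]
    have hP2 : q * T1 * P = q := by
      calc q * T1 * P = q * T1 * (q * P) := by rw [hqP]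
        _ = (q * T1 * q) * P := by noncomm_ring
        _ = q := by rw [hpiv, hP, hss, p1, hq]
    have hL := ldu q T1 P hqq hqP hP1 hP2
    obtain ⟨N2, hN2⟩ : ∃ N2, N2 = (1 - q) * T1 * P := ⟨_, rfl⟩
    obtain ⟨N3, hN3⟩ : ∃ N3, N3 = P * T1 * (1 - q) := ⟨_, rfl⟩
    obtain ⟨T2, hT2d⟩ : ∃ T2, T2 = q + (1 - q) * T1 * (1 - q) - (1 - q) * (T1 * P * T1) * (1 - q) :=
      ⟨_, rfl⟩
    rw [← hN2, ← hN3, ← hT2d, hpiv] at hL
    have hDg : single a a π + (1 - q) = Dg a π := by rw [hq]; rfl
    rw [hDg] at hL
    have hPz : P * (1 - q) = 0 := by rw [mul_sub, mul_one, hPq, sub_self]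
    have hzP : (1 - q) * P = 0 := by rw [sub_mul, one_mul, hqP, sub_self]
    have hN2sq : N2 * N2 = 0 := by
      calc N2 * N2 = (1 - q) * T1 * (P * (1 - q)) * T1 * P := by rw [hN2]; noncomm_ring
        _ = 0 := by rw [hPz]; noncomm_ring
    have hN3sq : N3 * N3 = 0 := by
      calc N3 * N3 = P * T1 * ((1 - q) * P) * T1 * (1 - q) := by rw [hN3]; noncomm_ring
        _ = 0 := by rw [hzP]; noncomm_ring
    have hn2 : (1 + N2) * (1 - N2) = 1 := by
      calc (1 + N2) * (1 - N2) = 1 - N2 * N2 := by noncomm_ring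
        _ = 1 := by rw [hN2sq, sub_zero]
    have hn3 : (1 - N3) * (1 + N3) = 1 := by
      calc (1 - N3) * (1 + N3) = 1 - N3 * N3 := by noncomm_ring
        _ = 1 := by rw [hN3sq, sub_zero]
    have hn2' : (1 - N2) * (1 + N2) = 1 := by
      calc (1 - N2) * (1 + N2) = 1 - N2 * N2 := by noncomm_ring
        _ = 1 := by rw [hN2sq, sub_zero]
    have hn3' : (1 + N3) * (1 - N3) = 1 := by
      calc (1 + N3) * (1 - N3) = 1 - N3 * N3 := by noncomm_ring
        _ = 1 := by rw [hN3sq, sub_zero]
    have hD1 : Dg a π' * Dg a π = 1 := by rw [Dg_mul, p2, Dg_one]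
    have hD2 : Dg a π * Dg a π' = 1 := by rw [Dg_mul, p1, Dg_one]
    have hT2e : T2 = Dg a π' * (1 - N2) * T1 * (1 - N3) := by
      calc T2 = (Dg a π' * Dg a π) * T2 := by rw [hD1, one_mul]
        _ = Dg a π' * ((1 - N2) * T1 * (1 - N3)) := by rw [hL]; noncomm_ring
        _ = _ := by noncomm_ring
    have hT1e : T1 = (1 + N2) * (Dg a π * T2) * (1 + N3) := by
      rw [← hL]
      calc T1 = ((1 + N2) * (1 - N2)) * T1 * ((1 - N3) * (1 + N3)) := by
            rw [hn2, hn3, one_mul, mul_one]
        _ = _ := by noncomm_ring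
    have hT2u1 : T2 * ((1 + N3) * T1' * (1 + N2) * Dg a π) = 1 := by
      rw [hT2e]
      calc _ = Dg a π' * (1 - N2) * T1 * ((1 - N3) * (1 + N3)) * T1' * (1 + N2) * Dg a π := by
            noncomm_ring
        _ = Dg a π' * (1 - N2) * (T1 * T1') * (1 + N2) * Dg a π := by rw [hn3]; noncomm_ring
        _ = Dg a π' * ((1 - N2) * (1 + N2)) * Dg a π := by rw [t1]; noncomm_ring
        _ = 1 := by rw [hn2', mul_one, hD1]
    have hT2u2 : ((1 + N3) * T1' * (1 + N2) * Dg a π) * T2 = 1 := by
      rw [hT2e]
      calc _ = (1 + N3) * T1' * (1 + N2) * (Dg a π * Dg a π') * (1 - N2) * T1 * (1 - N3) := by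
            noncomm_ring
        _ = (1 + N3) * T1' * ((1 + N2) * (1 - N2)) * T1 * (1 - N3) := by rw [hD2]; noncomm_ring
        _ = (1 + N3) * (T1' * T1) * (1 - N3) := by rw [hn2]; noncomm_ring
        _ = 1 := by rw [t2, mul_one, hn3']
    have hT2I : In1 (kap s k) T2 := by
      have e0 : T2 - 1 = (1 - q) * ((T1 - 1) - (T1 - 1) * P * (T1 - 1)) * (1 - q) := by
        have e1 : (1 - q) * ((T1 - 1) - (T1 - 1) * P * (T1 - 1)) * (1 - q) =
            (1 - q) * T1 * (1 - q) - (1 - q) * (1 - q) - (1 - q) * (T1 * P * T1) * (1 - q)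
            + (1 - q) * T1 * (P * (1 - q)) + ((1 - q) * P) * T1 * (1 - q)
            - ((1 - q) * P) * (1 - q) := by noncomm_ring
        have e2 : (1 - q) * (1 - q) = 1 - q := by
          rw [mul_sub, sub_mul, sub_mul, hqq]; simp
        rw [e1, hPz, hzP, e2, hT2d]
        simp only [mul_zero, zero_mul, add_zero, sub_zero]
        abel
      have e1 : (1 - q) * (1 - q) = 1 - q := by
        rw [mul_sub, sub_mul, sub_mul, hqq]; simp
      obtain ⟨Ξ, hΞ⟩ : ∃ Ξ, Ξ = (T1 - 1) - (T1 - 1) * P * (T1 - 1) := ⟨_, rfl⟩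
      have f1 : κ * Ξ = Ξ := by
        rw [hΞ, mul_sub, ← mul_assoc, ← mul_assoc, hT1I.1]
      have f2 : Ξ * κ = Ξ := by
        rw [hΞ, sub_mul, mul_assoc, hT1I.2]
      rw [← hΞ] at e0
      constructor
      · rw [e0]
        calc kap s k * ((1 - q) * Ξ * (1 - q)) = κ * (1 - q) * ((1 - q) * Ξ * (1 - q)) := by
              rw [hs2]
          _ = κ * ((1 - q) * (1 - q)) * Ξ * (1 - q) := by noncomm_ring
          _ = ((1 - q) * κ) * Ξ * (1 - q) := by rw [e1, ← hs2, hs1]
          _ = (1 - q) * (κ * Ξ) * (1 - q) := by noncomm_ring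
          _ = _ := by rw [f1]
      · rw [e0]
        calc (1 - q) * Ξ * (1 - q) * kap s k = (1 - q) * Ξ * (1 - q) * ((1 - q) * κ) := by
              rw [hs1]
          _ = (1 - q) * Ξ * ((1 - q) * (1 - q)) * κ := by noncomm_ring
          _ = (1 - q) * Ξ * (κ * (1 - q)) := by rw [e1, mul_assoc, ← hs1, hs2]
          _ = (1 - q) * (Ξ * κ) * (1 - q) := by noncomm_ring
          _ = _ := by rw [f2]
    obtain ⟨w2, w2', hw1, hw2, hwI, hwC⟩ := ih hos T2 _ hT2u1 hT2u2 hT2I
    have hDo1 : Dg o w2 * Dg o w2' = (1 : Matrix n n A) := by rw [Dg_mul, hw1, Dg_one]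
    have hDo2 : Dg o w2' * Dg o w2 = (1 : Matrix n n A) := by rw [Dg_mul, hw2, Dg_one]
    have hDp1 : Dg o π * Dg o π' = (1 : Matrix n n A) := by rw [Dg_mul, p1, Dg_one]
    have hDp2 : Dg o π' * Dg o π = (1 : Matrix n n A) := by rw [Dg_mul, p2, Dg_one]
    refine ⟨w2 * π', π * w2', ?_, ?_, hwI.mul hπ'I, ?_⟩
    · calc w2 * π' * (π * w2') = w2 * (π' * π) * w2' := by noncomm_ring
        _ = 1 := by rw [p2, mul_one, hw1]
    · calc π * w2' * (w2 * π') = π * (w2' * w2) * π' := by noncomm_ring
        _ = 1 := by rw [hw2, mul_one, p1]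
    have c1 := hwC.conj hD2 hD1
    have c2 := whitehead a o hoa.symm π π' p1 p2
    have z1 : (Dg o π * Dg o w2') * (Dg o w2 * Dg o π') = (1 : Matrix n n A) := by
      calc _ = Dg o π * (Dg o w2' * Dg o w2) * Dg o π' := by noncomm_ring
        _ = 1 := by rw [hDo2, mul_one, hDp1]
    have z2 : (Dg o w2 * Dg o π') * (Dg o π * Dg o w2') = (1 : Matrix n n A) := by
      calc _ = Dg o w2 * (Dg o π' * Dg o π) * Dg o w2' := by noncomm_ring
        _ = 1 := by rw [hDp2, mul_one, hDo1]
    have c3 := (conn_nil hN3sq).conj z1 z2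
    have hTe : T = (1 - N1) * T1 := by
      rw [hT1d, ← mul_assoc, hu2, one_mul]
    have fin : T * Dg o (w2 * π') = (1 - N1) * (1 + N2) *
        ((Dg a π * (T2 * Dg o w2) * Dg a π') * (Dg a π * Dg o π') *
          ((Dg o π * Dg o w2') * (1 + N3) * (Dg o w2 * Dg o π'))) := by
      have g1 : (Dg a π * (T2 * Dg o w2) * Dg a π') * (Dg a π * Dg o π') *
          ((Dg o π * Dg o w2') * (1 + N3) * (Dg o w2 * Dg o π')) =
          Dg a π * T2 * (1 + N3) * (Dg o w2 * Dg o π') := by
        calc _ = Dg a π * T2 * Dg o w2 * (Dg a π' * Dg a π) * (Dg o π' * Dg o π) * Dg o w2' *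
              (1 + N3) * (Dg o w2 * Dg o π') := by noncomm_ring
          _ = Dg a π * T2 * (Dg o w2 * Dg o w2') * (1 + N3) * (Dg o w2 * Dg o π') := by
              rw [hD1, hDp2]; noncomm_ring
          _ = _ := by rw [hDo1, mul_one]
      rw [g1, ← Dg_mul, hTe, hT1e]
      noncomm_ring
    rw [fin]
    exact ((conn_nil' hN1sq).mul (conn_nil hN2sq)).mul ((c1.mul c2).mul c3)

theorem kap_single (s : Finset n) (k : A) (a b : n) (ha : a ∈ s) (c : A) :
    kap s k * single a b c = single a b (k * c) := by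
  ext i j
  unfold kap
  rw [diagonal_mul, single_apply, single_apply]
  by_cases h : a = i ∧ b = j
  · rw [if_pos h, if_pos h, if_pos (h.1 ▸ ha)]
  · rw [if_neg h, if_neg h, mul_zero]

theorem single_kap (s : Finset n) (k : A) (a b : n) (hb : b ∈ s) (c : A) :
    single a b c * kap s k = single a b (c * k) := by
  ext i j
  unfold kap
  rw [mul_diagonal, single_apply, single_apply]
  by_cases h : a = i ∧ b = j
  · rw [if_pos h, if_pos h, if_pos (h.2 ▸ hb)]
  · rw [if_neg h, if_neg h, zero_mul]

theorem K1 (hSR : SR A) (e k : A) (hk : IsSelfAdjoint k) (hke : k * e = e) (hek : e * k = e)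
    (m : ℕ) (y : Fin m → A) (hy : ∑ i, star (y i) * (e * e) * y i = 1) (u u' : A)
    (h1 : u * u' = 1) (h2 : u' * u = 1) : ∃ w w' : A, w * w' = 1 ∧ w' * w = 1 ∧ In1 k w ∧
      Conn (Dg none (u * w) : Matrix (Option (Fin m)) (Option (Fin m)) A) := by
  obtain ⟨s, hs⟩ : ∃ s : Finset (Option (Fin m)), s = Finset.univ.erase none := ⟨_, rfl⟩
  have hs0 : none ∉ s := by rw [hs]; simp
  have hs1 : ∀ i, some i ∈ s := by intro i; rw [hs]; simp
  obtain ⟨X, hX⟩ : ∃ X : Matrix (Option (Fin m)) (Option (Fin m)) A,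
    X = ∑ j, single none (some j) ((u - 1) * star (y j) * e) := ⟨_, rfl⟩
  obtain ⟨Y, hY⟩ : ∃ Y : Matrix (Option (Fin m)) (Option (Fin m)) A,
    Y = ∑ j, single (some j) none (e * y j) := ⟨_, rfl⟩
  have hXX : X * X = 0 := by
    rw [hX, Finset.sum_mul]
    apply Finset.sum_eq_zero
    intro i _
    rw [Finset.mul_sum]
    apply Finset.sum_eq_zero
    intro j _
    exact single_mul_single_of_ne _ _ _ _ (by simp) _
  have hYY : Y * Y = 0 := by
    rw [hY, Finset.sum_mul]
    apply Finset.sum_eq_zero
    intro i _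
    rw [Finset.mul_sum]
    apply Finset.sum_eq_zero
    intro j _
    exact single_mul_single_of_ne _ _ _ _ (by simp) _
  have hXY : X * Y = single none none (u - 1) := by
    have e1 : X * Y = ∑ i, single none none ((u - 1) * (star (y i) * (e * e) * y i)) := by
      rw [hX, hY, Finset.sum_mul]
      apply Finset.sum_congr rfl
      intro i _
      rw [Finset.mul_sum, Finset.sum_eq_single i]
      · rw [single_mul_single_same]
        congr 1
        noncomm_ring
      · intro j _ hj
        exact single_mul_single_of_ne _ _ _ _ (by simpa using hj.symm) _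
      · intro h; exact absurd (Finset.mem_univ _) h
    have e2 : ∀ f : Fin m → A, ∑ i, (single none none (f i) :
        Matrix (Option (Fin m)) (Option (Fin m)) A) = single none none (∑ i, f i) := by
      intro f
      ext a b
      rw [Matrix.sum_apply]
      simp only [single_apply]
      by_cases hab : none = a ∧ none = b
      · simp [hab]
      · simp [hab]
    rw [e1, e2, ← Finset.mul_sum, hy, mul_one]
  have hκY : kap s k * Y = Y := by
    rw [hY, Finset.mul_sum]
    apply Finset.sum_congr rfl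
    intro i _
    rw [kap_single s k _ _ (hs1 i), ← mul_assoc, hke]
  have hXκ : X * kap s k = X := by
    rw [hX, Finset.sum_mul]
    apply Finset.sum_congr rfl
    intro i _
    rw [single_kap s k _ _ (hs1 i), mul_assoc, hek]
  have hD : (1 : Matrix (Option (Fin m)) (Option (Fin m)) A) + X * Y = Dg none u := by
    rw [hXY, sg_sub]
    unfold Dg
    abel
  have hD1 : (Dg none u : Matrix (Option (Fin m)) (Option (Fin m)) A) * Dg none u' = 1 := by
    rw [Dg_mul, h1, Dg_one]
  have hD2 : (Dg none u' : Matrix (Option (Fin m)) (Option (Fin m)) A) * Dg none u = 1 := by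
    rw [Dg_mul, h2, Dg_one]
  have hT1 : (1 + Y * X) * (1 - Y * Dg none u' * X) = 1 := by
    calc (1 + Y * X) * (1 - Y * Dg none u' * X) =
        1 + Y * X - Y * ((1 + X * Y) * Dg none u') * X := by noncomm_ring
      _ = 1 := by rw [hD, hD1]; noncomm_ring
  have hT2 : (1 - Y * Dg none u' * X) * (1 + Y * X) = 1 := by
    calc (1 - Y * Dg none u' * X) * (1 + Y * X) =
        1 + Y * X - Y * (Dg none u' * (1 + X * Y)) * X := by noncomm_ring
      _ = 1 := by rw [hD, hD2]; noncomm_ring
  have hI : In1 (kap s k) (1 + Y * X) := by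
    apply In1.one.add
    · rw [← mul_assoc, hκY]
    · rw [mul_assoc, hXκ]
  obtain ⟨w, w', hw1, hw2, hwI, hwC⟩ := gauss hSR k hk none s hs0 _ _ hT1 hT2 hI
  refine ⟨w, w', hw1, hw2, hwI, ?_⟩
  have hE1 : (Dg none w : Matrix (Option (Fin m)) (Option (Fin m)) A) * Dg none w' = 1 := by
    rw [Dg_mul, hw1, Dg_one]
  have hE2 : (Dg none w' : Matrix (Option (Fin m)) (Option (Fin m)) A) * Dg none w = 1 := by
    rw [Dg_mul, hw2, Dg_one]
  have hV : (1 : Matrix (Option (Fin m)) (Option (Fin m)) A) + X * Y =
      (1 + X) * (1 + Y) * (1 + Y * X) * (1 - X) * (1 - Y) := by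
    have g1 : (1 + Y) * (1 + Y * X) = 1 + Y + Y * X := by
      calc _ = 1 + Y + Y * X + (Y * Y) * X := by noncomm_ring
        _ = _ := by rw [hYY]; noncomm_ring
    have g2 : (1 + X) * (1 + Y + Y * X) * (1 - X) = 1 + Y + X * Y := by
      calc _ = 1 + Y + X * Y - Y * (X * X) - X * X - X * Y * (X * X) := by noncomm_ring
        _ = _ := by rw [hXX]; noncomm_ring
    have g3 : (1 + Y + X * Y) * (1 - Y) = 1 + X * Y := by
      calc _ = 1 + X * Y - Y * Y - X * (Y * Y) := by noncomm_ring
        _ = _ := by rw [hYY]; noncomm_ring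
    calc _ = (1 + X) * ((1 + Y) * (1 + Y * X)) * (1 - X) * (1 - Y) := by rw [g1, g2, g3]
      _ = _ := by noncomm_ring
  have hF : (Dg none (u * w) : Matrix (Option (Fin m)) (Option (Fin m)) A) =
      (1 + X) * (1 + Y) * ((1 + Y * X) * Dg none w) *
        ((Dg none w' * (1 - X) * Dg none w) * (Dg none w' * (1 - Y) * Dg none w)) := by
    rw [← Dg_mul, ← hD, hV]
    calc _ = (1 + X) * (1 + Y) * ((1 + Y * X) * 1) * (1 - X) * 1 * (1 - Y) * Dg none w := by
          simp only [mul_one]
      _ = (1 + X) * (1 + Y) * ((1 + Y * X) * (Dg none w * Dg none w')) * (1 - X) *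
          (Dg none w * Dg none w') * (1 - Y) * Dg none w := by rw [hE1]
      _ = _ := by noncomm_ring
  rw [hF]
  exact (((conn_nil hXX).mul (conn_nil hYY)).mul hwC).mul
    (((conn_nil' hXX).conj hE2 hE1).mul ((conn_nil' hYY).conj hE2 hE1))

end mat

end Pool.Agent.H898SR
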