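import Pool.Agent.H898SR.FixT

/-! The fixed point algebra has stable rank one: assembly. -/

set_option autoImplicit false
set_option linter.unusedSectionVars false

noncomputable section

namespace Pool.Agent.H898SR

open Filter Topology Pool.Agent.H923R2.FZ Matrix

section

variable {A G : Type} [CStarAlgebra A] [Group G] [Fintype G] [DecidableEq G]

theorem fixT (hSR : SR A) (hfin : ∀ a b : A, a * b = 1 → b * a = 1)
    (hfull : ∀ c : A, Ps c → c ≠ 0 → ∃ (n : ℕ) (y : Fin n → A), ∑ i, star (y i) * c * y i = 1)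
    (hnil : ∀ κ c : A, IsSelfAdjoint κ → Ps c → c ≠ 0 → κ * c = c →
      ∃ x : A, x ≠ 0 ∧ x * x = 0 ∧ κ * x = x ∧ x * κ = x)
    (x0 : A) (hx0 : x0 ≠ 0) (hx00 : x0 * x0 = 0) (hPED : PED A)
    (α : G → (A ≃⋆ₐ[ℂ] A)) (hα1 : ∀ a : A, α 1 a = a)
    (hαm : ∀ (g h : G) (a : A), α (g * h) a = α g (α h a)) (hW : WT α)
    (x : A) (hx : ∀ g, α g x = x) (ε : ℝ) (hε : 0 < ε) :
    ∃ b : A, IsUnit b ∧ (∀ g, α g b = b) ∧ ‖b - x‖ < ε := by
  by_cases hxu : IsUnit x
  · exact ⟨x, hxu, hx, by rw [sub_self, norm_zero]; exact hε⟩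
  obtain ⟨x', c, p0, κ1, κm, κ2, V, V', hx'α, hcα, hκ1α, hκmα, hxx', hp0P, hp0κ, hVp, hVV1, hVV2,
    hV's, hVκ, hQκ, hκ1s, hκms, hκ2P, hκ20, hκ1m, hκm2⟩ :=
    room hfin hfull x0 hx0 hx00 hPED α hα1 hαm hW x hx hxu (ε / 2) (half_pos hε)
  obtain ⟨x2, hx20, hx22, hκx2, hx2κ⟩ := hnil κm κ2 hκms hκ2P hκ20 hκm2
  have hsx2 : κm * star x2 = star x2 := by
    have := congrArg star hx2κ
    rwa [star_mul, hκms.star_eq] at this
  obtain ⟨D, hDs, hDα, ⟨yD, hyD⟩, hDp0, hDn0⟩ := orth_fix hfin hfull x0 hx0 hx00 α hα1 hαm hW κm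
    hκmα hκms (star x2 * x2) (x2 * star x2) ⟨x2, rfl⟩ ⟨star x2, by rw [star_star]⟩
    (fun h => hx20 (CStarRing.star_mul_self_eq_zero_iff x2 |>.1 h))
    (fun h => hx20 (CStarRing.mul_star_self_eq_zero_iff x2 |>.1 h))
    (by
      calc star x2 * x2 * (x2 * star x2) = star x2 * (x2 * x2) * star x2 := by
            simp only [mul_assoc]
        _ = 0 := by rw [hx22, mul_zero, zero_mul])
    (by rw [← mul_assoc, hsx2]) (by rw [← mul_assoc, hκx2])
  have hκ1D : κ1 * D = D := by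
    rw [hyD, ← mul_assoc, ← mul_assoc, hκ1m]
  obtain ⟨N3, hN3⟩ : ∃ N3, N3 = ‖cfc (fun t : ℝ => max t 0) D‖ := ⟨_, rfl⟩
  obtain ⟨N2, hN2⟩ : ∃ N2, N2 = ‖cfc (fun t : ℝ => max (-t) 0) D‖ := ⟨_, rfl⟩
  have hN30 : 0 < N3 := by rw [hN3]; exact norm_pos_iff.2 hDp0
  have hN20 : 0 < N2 := by rw [hN2]; exact norm_pos_iff.2 hDn0
  obtain ⟨h3, hh3⟩ : ∃ h3, h3 = cfc (fun t => max 0 (t - 3 * N3 / 4)) D := ⟨_, rfl⟩
  obtain ⟨e2, he2⟩ : ∃ e2, e2 = cfc (fun t => max 0 (-t - N2 / 2)) D := ⟨_, rfl⟩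
  have hh30 : h3 ≠ 0 := by
    have h1 : cfc (fun t => max 0 (t - 3 * N3 / 4)) (cfc (fun t : ℝ => max t 0) D) = h3 := by
      rw [hh3, ← cfc_comp' (fun t => max 0 (t - 3 * N3 / 4)) (fun t : ℝ => max t 0) D
        (by fun_prop) (by fun_prop)]
      apply cfc_congr
      intro t _
      show max 0 (max t 0 - 3 * N3 / 4) = max 0 (t - 3 * N3 / 4)
      rcases le_total t 0 with h | h
      · rw [max_eq_right h, max_eq_left (by linarith), max_eq_left (by linarith)]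
      · rw [max_eq_left h]
    rw [← h1]
    exact top_ne (ps_cfc D _ (by fun_prop) (fun t => le_max_right _ _) hDs) _ (by positivity)
      (by rw [← hN3]; linarith)
  have he20 : e2 ≠ 0 := by
    have h1 : cfc (fun t => max 0 (t - N2 / 2)) (cfc (fun t : ℝ => max (-t) 0) D) = e2 := by
      rw [he2, ← cfc_comp' (fun t => max 0 (t - N2 / 2)) (fun t : ℝ => max (-t) 0) D
        (by fun_prop) (by fun_prop)]
      apply cfc_congr
      intro t _
      show max 0 (max (-t) 0 - N2 / 2) = max 0 (-t - N2 / 2)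
      rcases le_total (-t) 0 with h | h
      · rw [max_eq_right h, max_eq_left (by linarith), max_eq_left (by linarith)]
      · rw [max_eq_left h]
    rw [← h1]
    exact top_ne (ps_cfc D _ (by fun_prop) (fun t => le_max_right _ _) hDs) _ (by positivity)
      (by rw [← hN2]; linarith)
  have hh3P : Ps h3 := by rw [hh3]; exact ps_max hDs _ (by fun_prop)
  have he2s : IsSelfAdjoint e2 := by rw [he2]; exact cfc_sa _ _
  obtain ⟨k2, hk2⟩ : ∃ k2, k2 = cfc (fun t => cl 0 (2 / N2) (-t)) D := ⟨_, rfl⟩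
  have hk2c : Continuous fun t : ℝ => cl 0 (2 / N2) (-t) := (cl_cont _ _).comp continuous_neg
  have hk2s : IsSelfAdjoint k2 := by rw [hk2]; exact cfc_sa _ _
  obtain ⟨κ0, hκ0⟩ : ∃ κ0, κ0 = cfc (cl (N3 / 4) (4 / N3)) D := ⟨_, rfl⟩
  obtain ⟨ζ, hζ⟩ : ∃ ζ, ζ = cfc (cl (N3 / 2) (4 / N3)) D := ⟨_, rfl⟩
  have hκ0s : IsSelfAdjoint κ0 := by rw [hκ0]; exact cfc_sa _ _
  have hζs : IsSelfAdjoint ζ := by rw [hζ]; exact cfc_sa _ _
  have hκ0α : ∀ g, α g κ0 = κ0 := fun g => by rw [hκ0, acfc α g D hDs (hDα g) _ (cl_cont _ _)]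
  have hζα : ∀ g, α g ζ = ζ := fun g => by rw [hζ, acfc α g D hDs (hDα g) _ (cl_cont _ _)]
  have hke : k2 * e2 = e2 := by
    rw [hk2, he2, cm _ _ _ hk2c (by fun_prop)]
    apply cfc_congr
    intro t _
    show cl 0 (2 / N2) (-t) * max 0 (-t - N2 / 2) = max 0 (-t - N2 / 2)
    rcases le_total (-t - N2 / 2) 0 with h | h
    · rw [max_eq_left h, mul_zero]
    · rw [cl_hi, one_mul]
      rw [mul_div_assoc', le_div_iff₀ hN20]
      linarith
  have hek : e2 * k2 = e2 := by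
    have := congrArg star hke
    rwa [star_mul, he2s.star_eq, hk2s.star_eq] at this
  have hκζ : κ0 * ζ = ζ := by
    rw [hκ0, hζ, cm _ _ _ (cl_cont _ _) (cl_cont _ _)]
    apply cfc_congr
    intro t _
    show cl (N3 / 4) (4 / N3) t * cl (N3 / 2) (4 / N3) t = cl (N3 / 2) (4 / N3) t
    rcases le_total t (N3 / 2) with h | h
    · rw [cl_lo (a := N3 / 2) (by positivity) h, mul_zero]
    · rw [cl_hi (a := N3 / 4), one_mul]
      rw [mul_div_assoc', le_div_iff₀ hN30]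
      linarith
  have hζκ : ζ * κ0 = ζ := by
    have := congrArg star hκζ
    rwa [star_mul, hζs.star_eq, hκ0s.star_eq] at this
  have hζh : ζ * h3 = h3 := by
    rw [hζ, hh3, cm _ _ _ (cl_cont _ _) (by fun_prop)]
    apply cfc_congr
    intro t _
    show cl (N3 / 2) (4 / N3) t * max 0 (t - 3 * N3 / 4) = max 0 (t - 3 * N3 / 4)
    rcases le_total (t - 3 * N3 / 4) 0 with h | h
    · rw [max_eq_left h, mul_zero]
    · rw [cl_hi, one_mul]
      rw [mul_div_assoc', le_div_iff₀ hN30]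
      linarith
  have hk2κ0 : k2 * κ0 = 0 := by
    rw [hk2, hκ0, cm _ _ _ hk2c (cl_cont _ _)]
    have : cfc (fun t => cl 0 (2 / N2) (-t) * cl (N3 / 4) (4 / N3) t) D =
        cfc (fun _ : ℝ => (0 : ℝ)) D := by
      apply cfc_congr
      intro t _
      show cl 0 (2 / N2) (-t) * cl (N3 / 4) (4 / N3) t = 0
      rcases le_total t 0 with h | h
      · rw [cl_lo (a := N3 / 4) (by positivity) (by linarith), mul_zero]
      · rw [cl_lo (a := 0) (by positivity) (by linarith), zero_mul]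
    rw [this, cfc_const_zero]
  have hκ0k2 : κ0 * k2 = 0 := by
    have := congrArg star hk2κ0
    rwa [star_mul, hk2s.star_eq, hκ0s.star_eq, star_zero] at this
  have hκ1f : ∀ k : ℝ → ℝ, Continuous k → k 0 = 0 → κ1 * cfc k D = cfc k D := by
    intro k hk hk0
    have h6 : (κ1 - 1) * D = 0 := by rw [sub_mul, one_mul, hκ1D, sub_self]
    have h7 := right_zero D (κ1 - 1) hDs h6 k hk
    rw [hk0, zero_smul, sub_mul, one_mul, sub_eq_zero] at h7
    exact h7
  have hκ1κ0 : κ1 * κ0 = κ0 := by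
    rw [hκ0]
    exact hκ1f _ (cl_cont _ _) (cl_lo (by positivity) (by positivity))
  have hκ1k2 : κ1 * k2 = k2 := by
    rw [hk2]
    exact hκ1f _ hk2c (cl_lo (by positivity) (by simp))
  have hp0κ0 : p0 * κ0 = 0 := by rw [← hκ1κ0, ← mul_assoc, hp0κ, zero_mul]
  have hp0k2 : p0 * k2 = 0 := by rw [← hκ1k2, ← mul_assoc, hp0κ, zero_mul]
  have hk2p0 : k2 * p0 = 0 := by
    have := congrArg star hp0k2
    rwa [star_mul, hk2s.star_eq, hp0P.sa.star_eq, star_zero] at this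
  -- K₁ correction
  obtain ⟨m, y, hy⟩ := hfull (e2 * e2) ⟨e2, by rw [he2s.star_eq]⟩ fun h =>
    he20 (CStarRing.star_mul_self_eq_zero_iff e2 |>.1 (by rw [he2s.star_eq]; exact h))
  obtain ⟨w, w', hw1, hw2, hwI, hwC⟩ := K1 hSR e2 k2 hk2s hke hek m y hy V V' hVV1 hVV2
  have hw'I := hwI.inv hw1 hw2
  have hwp : w * p0 = p0 := by
    have : (w - 1) * p0 = 0 := by rw [← hwI.2, mul_assoc, hk2p0, mul_zero]
    rw [sub_mul, one_mul, sub_eq_zero] at this
    exact this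
  have hwκ : w * κ0 = κ0 := by
    have : (w - 1) * κ0 = 0 := by rw [← hwI.2, mul_assoc, hk2κ0, mul_zero]
    rw [sub_mul, one_mul, sub_eq_zero] at this
    exact this
  have hκw' : κ0 * w' = κ0 := by
    have : κ0 * (w' - 1) = 0 := by rw [← hw'I.1, ← mul_assoc, hκ0k2, zero_mul]
    rw [mul_sub, mul_one, sub_eq_zero] at this
    exact this
  have hW1 : V * w * (w' * V') = 1 := by
    calc V * w * (w' * V') = V * (w * w') * V' := by simp only [mul_assoc]
      _ = 1 := by rw [hw1, mul_one, hVV1]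
  have hW2 : w' * V' * (V * w) = 1 := by
    calc w' * V' * (V * w) = w' * (V' * V) * w := by simp only [mul_assoc]
      _ = 1 := by rw [hVV2, mul_one, hw2]
  have hWp : V * w * p0 = x' := by rw [mul_assoc, hwp, hVp]
  have hVκ0 : V * κ0 = c * κ0 := by rw [← hκ1κ0, ← mul_assoc, hVκ, mul_assoc]
  have hWκ : V * w * κ0 = c * κ0 := by rw [mul_assoc, hwκ, hVκ0]
  have hκW : κ0 * (w' * V') = κ0 * star c := by
    have h1 : κ0 * V' = κ0 * star c := by
      have := congrArg star hVκ0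
      rwa [star_mul, star_mul, hκ0s.star_eq, ← hV's] at this
    rw [← mul_assoc, hκw', h1]
  have hccκ0 : star c * c * κ0 = κ0 := by rw [← hκ1κ0, ← mul_assoc, hQκ]
  have hccζ : star c * c * ζ = ζ := by rw [← hκζ, ← mul_assoc, hccκ0]
  obtain ⟨M, hM0, hpath⟩ := path m (V * w) (w' * V') p0 c κ0 ζ hW1 hW2 hp0P hp0κ0 hκ0s hWκ hκW
    hccκ0 hκζ hζκ hwC
  rw [hWp] at hpath
  -- room elements
  obtain ⟨ρ, t, hρP, hρ0, _, ht1, ht2⟩ := halv hnil (Fintype.card (Option (Fin m))) ζ h3 hζs hh3P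
    hh30 hζh
  obtain ⟨eq⟩ : Nonempty (Option (Fin m) ≃ Fin (Fintype.card (Option (Fin m)))) :=
    ⟨Fintype.equivFin _⟩
  obtain ⟨U, hU⟩ := ex_U A
  obtain ⟨f, d, s, w0, hf, hd, hdc, hdd, hss, hds, hsw⟩ := rok2 hfin hfull x0 hx0 hx00 U hU α hW ρ
    hρP hρ0
  have hι : ∀ g a, bt U α g (io A U a) = io A U (α g a) := fun g a => bt_io U α g a
  obtain ⟨r, hr1, hr2, hr3, hr4⟩ := rj (J := Option (Fin m)) hf hι (bt_mul U α hαm) d s w0 hd hdc
    hdd hss hds ρ hsw ζ hζα (fun j => t (eq j)) (fun i => ht1 _) (fun i j => by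
      rw [ht2]
      simp only [EmbeddingLike.apply_eq_iff_eq])
  obtain ⟨C, hC⟩ : ∃ C : ℝ, C = (M + 1) * ((Fintype.card (Option (Option (Fin m))) : ℝ) *
    (1 + ‖c‖)) * (Fintype.card (Option (Option (Fin m))) : ℝ) := ⟨_, rfl⟩
  have hC0 : 0 ≤ C := by rw [hC]; positivity
  obtain ⟨l, hl⟩ : ∃ l : ℝ, l = ε / (2 * (C + 1)) := ⟨_, rfl⟩
  have hl0 : 0 < l := by rw [hl]; positivity
  have hlC : l * C < ε / 2 := by
    rw [hl, div_mul_eq_mul_div, div_lt_div_iff₀ (by positivity) (by norm_num)]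
    nlinarith
  have hcard : (0 : ℝ) < (Fintype.card (Option (Option (Fin m))) : ℝ) := by
    exact_mod_cast Fintype.card_pos
  obtain ⟨η, hη⟩ : ∃ η : ℝ, η = 1 / (2 * (Fintype.card (Option (Option (Fin m))) : ℝ)) := ⟨_, rfl⟩
  have hη0 : 0 < η := by rw [hη]; positivity
  have hη1 : (Fintype.card (Option (Option (Fin m))) : ℝ) * η < 1 := by
    rw [hη]
    field_simp
    norm_num
  obtain ⟨q1, q2, q3⟩ := hpath l hl0 η hη0
  have hsm : ∀ (g : G) (u : A), α g u = u → α g (l • u) = l • u := by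
    intro g u hu
    have : l • u = (l : ℂ) • u := (Complex.coe_smul l u).symm
    rw [this, map_smul, hu]
  obtain ⟨Y, hYu, hYβ, hYn⟩ := compress hf hι hαm x' c ζ (x' + l • (V * w)) hx'α hcα hζα hζs hccζ
    l M η hl0 hM0 hη0.le hη1 _ (by
      intro a b g
      rw [B2_apply _ _ (by simp)]
      split_ifs
      · rw [map_add, hx'α, hsm g c (hcα g)]
      · apply hsm
        rw [map_sub, map_one, map_mul, map_mul, hcα, hκ0α, map_star, hcα]
      · exact map_zero _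
      · rw [map_neg, hsm]
        rw [map_sub, map_one, hκ0α]
      · apply hsm
        rw [map_mul, hκ0α, map_star, hcα]
      · exact map_zero _
      · exact hsm g 1 (map_one _)
      · exact map_zero _) q2 q3 q1 r hr1 hr2 hr3 hr4
  rw [← hC] at hYn
  obtain ⟨b, hbu, hbα, hbn⟩ := lift_unit U α hαm Y hYu hYβ x' (ε / 2) (hYn.trans_lt hlC)
  refine ⟨b, hbu, hbα, ?_⟩
  calc ‖b - x‖ = ‖(b - x') + (x' - x)‖ := by rw [sub_add_sub_cancel]
    _ ≤ ‖b - x'‖ + ‖x' - x‖ := norm_add_le _ _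
    _ < ε / 2 + ε / 2 := by
        rw [norm_sub_rev x' x]
        exact add_lt_add_of_lt_of_le hbn hxx'
    _ = ε := by ring

end

end Pool.Agent.H898SR
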