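import Pool.Agent.H898SR.K1

/-! Discretised paths of invertible matrices. -/

set_option autoImplicit false
set_option linter.unusedSectionVars false

noncomputable section

namespace Pool.Agent.H898SR

open Filter Topology Pool.Agent.H923R2.FZ Matrix

theorem disc {R : Type} [NormedRing R] [CompleteSpace R] (H : ℝ → R) (hc : Continuous H)
    (hu : ∀ t ∈ Set.Icc (0 : ℝ) 1, IsUnit (H t)) (η : ℝ) (hη : 0 < η) :
    ∃ N : ℕ, 0 < N ∧ ∀ i : ℕ, i < N →
      ‖Ring.inverse (H (((i + 1 : ℕ) : ℝ) / N)) * H ((i : ℝ) / N) - 1‖ ≤ η := by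
  have hF : ContinuousOn (fun p : ℝ × ℝ => Ring.inverse (H p.1) * H p.2)
      (Set.Icc (0 : ℝ) 1 ×ˢ Set.Icc (0 : ℝ) 1) := by
    apply ContinuousOn.mul
    · intro p hp
      obtain ⟨u, hu'⟩ := hu p.1 hp.1
      have h1 : ContinuousAt Ring.inverse (H p.1) := by
        rw [← hu']; exact NormedRing.inverse_continuousAt u
      have h2 : ContinuousAt (fun p : ℝ × ℝ => H p.1) p := (hc.comp continuous_fst).continuousAt
      exact (ContinuousAt.comp (f := fun p : ℝ × ℝ => H p.1) h1 h2).continuousWithinAt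
    · exact (hc.comp continuous_snd).continuousOn
  have hK : IsCompact (Set.Icc (0 : ℝ) 1 ×ˢ Set.Icc (0 : ℝ) 1) := isCompact_Icc.prod isCompact_Icc
  have hU := hK.uniformContinuousOn_of_continuous hF
  rw [Metric.uniformContinuousOn_iff] at hU
  obtain ⟨δ, hδ, h1⟩ := hU η hη
  obtain ⟨N, hN⟩ := exists_nat_one_div_lt hδ
  refine ⟨N + 1, Nat.succ_pos _, fun i hi => ?_⟩
  have hN0 : (0 : ℝ) < ((N + 1 : ℕ) : ℝ) := by positivity
  have m1 : ((i + 1 : ℕ) : ℝ) / ((N + 1 : ℕ) : ℝ) ∈ Set.Icc (0 : ℝ) 1 := by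
    refine ⟨by positivity, ?_⟩
    rw [div_le_one hN0]
    exact_mod_cast hi
  have m2 : (i : ℝ) / ((N + 1 : ℕ) : ℝ) ∈ Set.Icc (0 : ℝ) 1 := by
    refine ⟨by positivity, ?_⟩
    rw [div_le_one hN0]
    exact_mod_cast hi.le
  have h2 := h1 (_, _) ⟨m1, m2⟩ (_, _) ⟨m1, m1⟩ (by
    rw [Prod.dist_eq, dist_self, Real.dist_eq]
    have : (i : ℝ) / ((N + 1 : ℕ) : ℝ) - ((i + 1 : ℕ) : ℝ) / ((N + 1 : ℕ) : ℝ) =
        -(1 / ((N : ℝ) + 1)) := by
      push_cast
      field_simp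
      ring
    rw [this, abs_neg, abs_of_pos (by positivity), max_eq_right (by positivity)]
    exact hN)
  rw [dist_eq_norm] at h2
  have h3 : Ring.inverse (H (((i + 1 : ℕ) : ℝ) / ((N + 1 : ℕ) : ℝ))) *
      H (((i + 1 : ℕ) : ℝ) / ((N + 1 : ℕ) : ℝ)) = 1 := Ring.inverse_mul_cancel _ (hu _ m1)
  simp only [h3] at h2
  exact h2.le

section mat

variable {A : Type} [CStarAlgebra A] {n : Type} [Fintype n] [DecidableEq n]

/-- elementary step -/
def Rel (Good : Matrix n n A → Prop) (η : ℝ) (X Y : Matrix n n A) : Prop :=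
  Good X ∧ Good Y ∧ ∃ Y', Y * Y' = 1 ∧ Y' * Y = 1 ∧ ∀ a b, ‖(Y' * X - 1) a b‖ ≤ η

theorem rtg (Good : Matrix n n A → Prop) (η : ℝ) (hη : 0 < η) (H : ℝ → Matrix n n A)
    (hc : Continuous H) (hu : ∀ t ∈ Set.Icc (0 : ℝ) 1, IsUnit (H t))
    (hG : ∀ t ∈ Set.Icc (0 : ℝ) 1, Good (H t)) :
    Relation.ReflTransGen (Rel Good η) (H 0) (H 1) := by
  letI := CStarAlgebra.spectralOrder A
  haveI := CStarAlgebra.spectralOrderedRing A
  obtain ⟨H', hH'⟩ : ∃ H' : ℝ → CStarMatrix n n A, H' = fun t => CStarMatrix.ofMatrix (H t) :=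
    ⟨_, rfl⟩
  have hc' : Continuous H' := by rw [hH']; exact hc
  have hu' : ∀ t ∈ Set.Icc (0 : ℝ) 1, IsUnit (H' t) := by
    intro t ht
    obtain ⟨u, hu1⟩ := hu t ht
    refine ⟨⟨CStarMatrix.ofMatrix (u : Matrix n n A),
      CStarMatrix.ofMatrix ((u⁻¹ : (Matrix n n A)ˣ) : Matrix n n A), ?_, ?_⟩, ?_⟩
    · exact u.mul_inv
    · exact u.inv_mul
    · rw [hH']; show CStarMatrix.ofMatrix (u : Matrix n n A) = _; rw [hu1]
  obtain ⟨N, hN, h1⟩ := disc H' hc' hu' η hη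
  have key : ∀ i : ℕ, i ≤ N → Relation.ReflTransGen (Rel Good η) (H 0) (H ((i : ℝ) / N)) := by
    intro i
    induction i with
    | zero => intro _; simp only [Nat.cast_zero, zero_div]; exact Relation.ReflTransGen.refl
    | succ i ih =>
      intro hi
      refine (ih (by omega)).tail ?_
      have hN0 : (0 : ℝ) < (N : ℝ) := by exact_mod_cast hN
      have m1 : ((i + 1 : ℕ) : ℝ) / (N : ℝ) ∈ Set.Icc (0 : ℝ) 1 := by
        refine ⟨by positivity, ?_⟩
        rw [div_le_one hN0]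
        exact_mod_cast hi
      have m2 : (i : ℝ) / (N : ℝ) ∈ Set.Icc (0 : ℝ) 1 := by
        refine ⟨by positivity, ?_⟩
        rw [div_le_one hN0]
        exact_mod_cast (by omega : i ≤ N)
      refine ⟨hG _ m2, hG _ m1, CStarMatrix.ofMatrix.symm (Ring.inverse (H' (((i + 1 : ℕ) : ℝ) / N))),
        ?_, ?_, ?_⟩
      · have := Ring.mul_inverse_cancel _ (hu' _ m1)
        have h2 := congrArg CStarMatrix.ofMatrix.symm this
        rw [hH'] at h2 ⊢
        exact h2
      · have := Ring.inverse_mul_cancel _ (hu' _ m1)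
        have h2 := congrArg CStarMatrix.ofMatrix.symm this
        rw [hH'] at h2 ⊢
        exact h2
      · intro a b
        have h2 := h1 i (by omega)
        refine le_trans ?_ h2
        have h3 := CStarMatrix.norm_entry_le_norm (M := (Ring.inverse (H' (((i + 1 : ℕ) : ℝ) / N)) *
          H' ((i : ℝ) / N) - 1)) (i := a) (j := b)
        rw [hH'] at h3 ⊢
        exact h3
  have := key N le_rfl
  rwa [div_self (by exact_mod_cast hN.ne')] at this

end mat

end Pool.Agent.H898SR
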