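import Pool.Agent.H898SR.Ult

/-! Exact Rokhlin elements in the ultrapower. -/

set_option autoImplicit false
set_option linter.unusedSectionVars false

noncomputable section

namespace Pool.Agent.H898SR

open Filter Topology Pool.Agent.H923R2.FZ

section

variable {A G : Type} [CStarAlgebra A] [Group G] [Fintype G] [DecidableEq G]

/-- the weak tracial Rokhlin property -/
def WT (α : G → (A ≃⋆ₐ[ℂ] A)) : Prop :=
  ∀ ε : ℝ, 0 < ε → ∀ F : Finset A, ∀ y : A, Ps y → y ≠ 0 → ∃ f : G → A,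
    (∀ g, Ps (f g) ∧ ‖f g‖ ≤ 1) ∧ (∀ g h, g ≠ h → f g * f h = 0) ∧
    (∀ g h, ‖α g (f h) - f (g * h)‖ < ε) ∧ (∀ a ∈ F, ∀ g, ‖f g * a - a * f g‖ < ε) ∧
    ∃ v : A, ‖v * y * star v - (1 - ∑ g, f g)‖ < ε

/-- the index set -/
def Ix (A : Type) : Type := Finset A × ℕ

instance (A : Type) : TopologicalSpace (Ix A) := ⊥
instance (A : Type) : DiscreteTopology (Ix A) := ⟨rfl⟩

theorem ex_U (A : Type) : ∃ U : Ultrafilter (Ix A), ∀ (F : Finset A) (n : ℕ),
    ∀ᶠ i in (U : Filter (Ix A)), F ⊆ i.1 ∧ n ≤ i.2 := by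
  classical
  haveI : (atTop : Filter (Finset A × ℕ)).NeBot := atTop_neBot
  obtain ⟨V, hV⟩ : ∃ V : Ultrafilter (Finset A × ℕ), V = Ultrafilter.of atTop := ⟨_, rfl⟩
  refine ⟨V, fun F n => ?_⟩
  have h1 : ∀ᶠ i in (atTop : Filter (Finset A × ℕ)), (F, n) ≤ i := eventually_ge_atTop _
  have h2 : ∀ᶠ i in (V : Filter (Finset A × ℕ)), (F, n) ≤ i := by
    rw [hV]
    exact (Ultrafilter.of_le (atTop : Filter (Finset A × ℕ))) h1
  filter_upwards [h2] with i hi
  exact hi

theorem rok0 (U : Ultrafilter (Ix A)) (hU : ∀ (F : Finset A) (n : ℕ),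
    ∀ᶠ i in (U : Filter (Ix A)), F ⊆ i.1 ∧ n ≤ i.2) (α : G → (A ≃⋆ₐ[ℂ] A)) (hW : WT α)
    (y : Ix A → A) (hy : ∀ i, Ps (y i) ∧ y i ≠ 0) :
    ∃ (F : G → SQ (Ix A) A) (v : Ix A → A), (∀ g i, Ps (F g i) ∧ ‖F g i‖ ≤ 1) ∧
      (∀ g h, g ≠ h → ∀ i, F g i * F h i = 0) ∧
      RF (io A U) (bt U α) (fun g => qm U (F g)) ∧
      (∀ i, ‖v i * y i * star (v i)‖ ≤ 2 + Fintype.card G) ∧
      Tendsto (fun i => ‖v i * y i * star (v i) - (1 - ∑ g, F g i)‖) U (𝓝 0) := by
  have h1 : ∀ i : Ix A, _ := fun i => hW (1 / ((i.2 : ℝ) + 1)) (by positivity) i.1 (y i) (hy i).1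
    (hy i).2
  choose f hf1 hf2 hf3 hf4 v hv using h1
  have hn0 : ∀ n0 : ℕ, ∀ᶠ i in (U : Filter (Ix A)), n0 ≤ i.2 := fun n0 =>
    (hU ∅ n0).mono fun i hi => hi.2
  have hsmall : Tendsto (fun i : Ix A => 1 / ((i.2 : ℝ) + 1)) U (𝓝 0) := by
    rw [Metric.tendsto_nhds]
    intro ε hε
    obtain ⟨n, hn⟩ := exists_nat_one_div_lt hε
    filter_upwards [hn0 n] with i hi
    rw [dist_zero_right, Real.norm_of_nonneg (by positivity)]
    refine lt_of_le_of_lt ?_ hn
    apply one_div_le_one_div_of_le (by positivity)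
    have : (n : ℝ) ≤ i.2 := by exact_mod_cast hi
    linarith
  obtain ⟨F, hF⟩ : ∃ F : G → SQ (Ix A) A, ∀ g i, F g i = f i g :=
    ⟨fun g => bf (fun i => f i g) 1 fun i => (hf1 i g).2, fun g i => rfl⟩
  refine ⟨F, v, fun g i => ?_, fun g h hgh i => ?_, ⟨fun g => ?_, fun g h hgh => ?_,
    fun g h => ?_, fun g a => ?_⟩, fun i => ?_, ?_⟩
  · rw [hF]; exact hf1 i g
  · rw [hF, hF]; exact hf2 i g h hgh
  · have : IsSelfAdjoint (F g) := by
      rw [isSelfAdjoint_iff]
      apply SQ.ext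
      intro i
      show star (F g i) = F g i
      rw [hF]; exact (hf1 i g).1.sa.star_eq
    exact this.map (qm U)
  · show qm U (F g) * qm U (F h) = 0
    rw [← map_mul]
    have : F g * F h = 0 := by
      apply SQ.ext
      intro i
      show F g i * F h i = 0
      rw [hF, hF]; exact hf2 i g h hgh
    rw [this, map_zero]
  · rw [bt_qm, qm_eq]
    refine squeeze_zero (fun i => norm_nonneg _) (fun i => ?_) hsmall
    rw [cmap_apply, hF, hF]
    exact (hf3 i g h).le
  · rw [commute_iff_eq, io_apply, ← map_mul, ← map_mul, qm_eq]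
    refine squeeze_zero' (Eventually.of_forall fun i => norm_nonneg _) ?_ hsmall
    filter_upwards [hU {a} 0] with i hi
    show ‖F g i * a - a * F g i‖ ≤ _
    rw [hF]
    exact (hf4 i a (hi.1 (Finset.mem_singleton_self a)) g).le
  · have h1 : ‖(1 : A)‖ ≤ 1 := by
      rcases subsingleton_or_nontrivial A with h | h
      · rw [Subsingleton.elim (1 : A) 0, norm_zero]; exact zero_le_one
      · rw [CStarRing.norm_one]
    have h2 : ‖∑ g, f i g‖ ≤ Fintype.card G := by
      calc ‖∑ g, f i g‖ ≤ ∑ g, ‖f i g‖ := norm_sum_le _ _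
        _ ≤ ∑ _g : G, (1 : ℝ) := Finset.sum_le_sum fun g _ => (hf1 i g).2
        _ = _ := by rw [Finset.sum_const, Finset.card_univ, nsmul_eq_mul, mul_one]
    have h3 : (1 : ℝ) / ((i.2 : ℝ) + 1) ≤ 1 := by
      rw [div_le_one (by positivity)]
      have : (0 : ℝ) ≤ i.2 := by positivity
      linarith
    calc ‖v i * y i * star (v i)‖ = ‖(v i * y i * star (v i) - (1 - ∑ g, f i g)) +
          (1 - ∑ g, f i g)‖ := by rw [sub_add_cancel]
      _ ≤ ‖v i * y i * star (v i) - (1 - ∑ g, f i g)‖ + ‖1 - ∑ g, f i g‖ := norm_add_le _ _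
      _ ≤ 1 + (1 + Fintype.card G) := by
          apply add_le_add ((hv i).le.trans h3)
          exact (norm_sub_le _ _).trans (add_le_add h1 h2)
      _ = _ := by ring
  · refine squeeze_zero (fun i => norm_nonneg _) (fun i => ?_) hsmall
    simp only [hF]
    exact (hv i).le

/-- `max 0 (t - 1/2)` -/
def kk (t : ℝ) : ℝ := max 0 (t - 1 / 2)

theorem kk_cont : Continuous kk := by unfold kk; fun_prop
theorem kk_zero : kk 0 = 0 := by unfold kk; norm_num

/-- `min 1 (max 0 (2 t))` -/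
def dd (t : ℝ) : ℝ := min 1 (max 0 (2 * t))

theorem dd_cont : Continuous dd := by unfold dd; fun_prop
theorem dd_zero : dd 0 = 0 := by unfold dd; norm_num
theorem dd_kk (t : ℝ) : dd t * kk t = kk t := by
  unfold dd kk
  rcases le_total (t - 1 / 2) 0 with h | h
  · rw [max_eq_left h, mul_zero]
  · have : (1 : ℝ) ≤ max 0 (2 * t) := le_max_of_le_right (by linarith)
    rw [min_eq_left this, one_mul]

theorem spec_le_one {x : A} (h : IsSelfAdjoint x) (hn : ‖x‖ ≤ 1) (t : ℝ) (ht : t ∈ spectrum ℝ x) :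
    t ≤ 1 := by
  have h1 := spectrum.norm_le_norm_mul_of_mem ht
  have h2 : ‖(1 : A)‖ ≤ 1 := by
    rcases subsingleton_or_nontrivial A with h | h
    · rw [Subsingleton.elim (1 : A) 0, norm_zero]; exact zero_le_one
    · rw [CStarRing.norm_one]
  have h3 : |t| ≤ 1 := by
    rw [← Real.norm_eq_abs]
    exact h1.trans (by nlinarith [norm_nonneg x, norm_nonneg (1 : A)])
  exact (le_abs_self t).trans h3

theorem rok1 (hfin : ∀ a b : A, a * b = 1 → b * a = 1)
    (hfull : ∀ c : A, Ps c → c ≠ 0 → ∃ (n : ℕ) (y : Fin n → A), ∑ i, star (y i) * c * y i = 1)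
    (x0 : A) (hx0 : x0 ≠ 0) (hx00 : x0 * x0 = 0)
    (U : Ultrafilter (Ix A)) (hU : ∀ (F : Finset A) (n : ℕ),
    ∀ᶠ i in (U : Filter (Ix A)), F ⊆ i.1 ∧ n ≤ i.2) (α : G → (A ≃⋆ₐ[ℂ] A)) (hW : WT α) :
    ∃ F : G → SQ (Ix A) A, (∀ g i, Ps (F g i) ∧ ‖F g i‖ ≤ 1) ∧
      (∀ g h, g ≠ h → ∀ i, F g i * F h i = 0) ∧
      RF (io A U) (bt U α) (fun g => qm U (F g)) ∧
      ∀ a : A, a ≠ 0 → cfc kk (qm U (F 1)) * io A U a ≠ 0 := by
  have hy0 : star x0 * x0 ≠ 0 := fun h => hx0 (CStarRing.star_mul_self_eq_zero_iff x0 |>.1 h)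
  obtain ⟨F, v, hF1, hF2, hF3, hv1, hv2⟩ := rok0 U hU α hW (fun _ => star x0 * x0)
    fun i => ⟨⟨x0, rfl⟩, hy0⟩
  refine ⟨F, hF1, hF2, hF3, fun a ha hcon => ?_⟩
  -- `cfc kk (f 1) = 0`
  have k1 : cfc kk (qm U (F 1)) = 0 := by
    obtain ⟨n, y, hy⟩ := hfull (a * star a) ⟨star a, by rw [star_star]⟩ (fun h =>
      ha (CStarRing.mul_star_self_eq_zero_iff a |>.1 h))
    have h1 : cfc kk (qm U (F 1)) = ∑ i, io A U (star (y i)) * (cfc kk (qm U (F 1)) * io A U a) *
        io A U (star a * y i) := by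
      have h3 : ∀ i, Commute (cfc kk (qm U (F 1))) (io A U (star (y i))) := fun i =>
        hF3.ccomm kk 1 _
      obtain ⟨lk, hlk⟩ : ∃ lk, lk = cfc kk (qm U (F 1)) := ⟨_, rfl⟩
      rw [← hlk] at h3 ⊢
      have h2 : lk = lk * io A U (∑ i, star (y i) * (a * star a) * y i) := by
        rw [hy, map_one, mul_one]
      rw [map_sum, Finset.mul_sum] at h2
      refine h2.trans (Finset.sum_congr rfl fun i _ => ?_)
      rw [← mul_assoc (io A U (star (y i))), ← (h3 i).eq]
      simp only [map_mul, mul_assoc]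
    rw [h1]
    apply Finset.sum_eq_zero
    intro i _
    rw [hcon, mul_zero, zero_mul]
  have k2 : ∀ g, cfc kk (qm U (F g)) = 0 := by
    intro g
    have := hF3.cperm kk kk_cont g 1
    simp only [mul_one] at this
    rw [← this, k1, map_zero]
  have k3 : ∀ g, ∀ t ∈ spectrum ℝ (qm U (F g)), t ≤ 1 / 2 := by
    intro g t ht
    by_contra h
    push Not at h
    have h1 : kk t ∈ spectrum ℝ (cfc kk (qm U (F g))) := by
      rw [cfc_map_spectrum kk _ (hF3.sa g) kk_cont.continuousOn]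
      exact ⟨t, ht, rfl⟩
    rw [k2 g] at h1
    have h2 : kk t ≠ 0 := by
      unfold kk
      rw [max_eq_right (by linarith)]
      linarith
    rcases subsingleton_or_nontrivial (NU A U) with hs | hs
    · rw [spectrum.of_subsingleton] at h1; exact h1
    · rw [spectrum.zero_eq] at h1
      exact h2 h1
  obtain ⟨κ, hκ⟩ : ∃ κ : ℝ → ℝ, κ = fun t => t / max (1 - t) (1 / 2) := ⟨_, rfl⟩
  have hκc : Continuous κ := by
    rw [hκ]
    apply Continuous.div (by fun_prop) (by fun_prop)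
    intro t
    have : (1 : ℝ) / 2 ≤ max (1 - t) (1 / 2) := le_max_right _ _
    linarith
  have hκ0 : κ 0 = 0 := by rw [hκ]; simp
  have hinv : UU (fun g => qm U (F g)) (fun t => -t) * UU (fun g => qm U (F g)) κ = 1 := by
    rw [hF3.U_mul _ _ (by fun_prop) hκc (by simp) hκ0]
    unfold UU
    have : ∀ g, cfc (fun t => -t + κ t + -t * κ t) (qm U (F g)) = 0 := by
      intro g
      have h1 : cfc (fun t => -t + κ t + -t * κ t) (qm U (F g)) =
          cfc (fun _ : ℝ => (0 : ℝ)) (qm U (F g)) := by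
        apply cfc_congr
        intro t ht
        have h2 := k3 g t ht
        show -t + κ t + -t * κ t = 0
        rw [hκ]
        have h3 : max (1 - t) (1 / 2) = 1 - t := max_eq_left (by linarith)
        simp only [h3]
        have h4 : (1 : ℝ) - t ≠ 0 := by linarith
        field_simp
        ring
      rw [h1, cfc_const_zero]
    rw [Finset.sum_eq_zero fun g _ => this g, add_zero]
  have hUU : UU (fun g => qm U (F g)) (fun t => -t) = 1 - ∑ g, qm U (F g) := by
    unfold UU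
    rw [sub_eq_add_neg, ← Finset.sum_neg_distrib]
    congr 1
    apply Finset.sum_congr rfl
    intro g _
    rw [cfc_neg, cfc_id' ℝ _ (hF3.sa g)]
  -- the element `s`
  have hsb : ∀ i, ‖v i * star x0‖ ≤ 2 + Fintype.card G := by
    intro i
    have h1 : ‖v i * star x0‖ * ‖v i * star x0‖ ≤ 2 + Fintype.card G := by
      rw [← CStarRing.norm_self_mul_star]
      refine le_trans (le_of_eq ?_) (hv1 i)
      congr 1
      rw [star_mul, star_star]
      noncomm_ring
    have h2 : (0 : ℝ) ≤ Fintype.card G := by positivity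
    nlinarith [norm_nonneg (v i * star x0)]
  obtain ⟨S, hS⟩ : ∃ S : SQ (Ix A) A, ∀ i, S i = v i * star x0 :=
    ⟨bf _ _ hsb, fun i => rfl⟩
  have hSS : qm U S * star (qm U S) = 1 - ∑ g, qm U (F g) := by
    have e : (1 : NU A U) - ∑ g, qm U (F g) = qm U (1 - ∑ g, F g) := by
      rw [map_sub, map_one, map_sum]
    rw [e, ← map_star, ← map_mul, qm_eq]
    refine hv2.congr fun i => ?_
    have e1 : (1 - ∑ g, F g : SQ (Ix A) A) i = 1 - ∑ g, F g i := by
      have : (1 - ∑ g, F g : SQ (Ix A) A) i = ev i (1 - ∑ g, F g) := rfl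
      rw [this, map_sub, map_one, map_sum]
      rfl
    rw [e1]
    have e2 : (S * star S) i = v i * (star x0 * x0) * star (v i) := by
      show S i * star (S i) = _
      rw [hS, star_mul, star_star]
      noncomm_ring
    rw [e2]
  have hS0 : qm U S * io A U (star x0) = 0 := by
    rw [io_apply, ← map_mul]
    have : S * kst (Ix A) (star x0) = 0 := by
      apply SQ.ext
      intro i
      show S i * star x0 = 0
      rw [hS, mul_assoc, ← star_mul, hx00, star_zero, mul_zero]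
    rw [this, map_zero]
  have r1 : qm U S * (star (qm U S) * UU (fun g => qm U (F g)) κ) = 1 := by
    rw [← mul_assoc, hSS, ← hUU, hinv]
  have r2 := NU_fin U hfin _ _ r1
  have r3 : io A U (star x0) = 0 := by
    calc io A U (star x0) = (star (qm U S) * UU (fun g => qm U (F g)) κ * qm U S) *
          io A U (star x0) := by rw [r2, one_mul]
      _ = 0 := by rw [mul_assoc, hS0, mul_zero]
  exact hx0 (star_eq_zero.1 (io_inj U _ r3))

end

end Pool.Agent.H898SR
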