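import Pool.Agent.H898SR.Rok

/-! The second level, and consequences for the fixed point algebra. -/

set_option autoImplicit false
set_option linter.unusedSectionVars false

noncomputable section

namespace Pool.Agent.H898SR

open Filter Topology Pool.Agent.H923R2.FZ

section

variable {A G : Type} [CStarAlgebra A] [Group G] [Fintype G] [DecidableEq G]

theorem rok2 (hfin : ∀ a b : A, a * b = 1 → b * a = 1)
    (hfull : ∀ c : A, Ps c → c ≠ 0 → ∃ (n : ℕ) (y : Fin n → A), ∑ i, star (y i) * c * y i = 1)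
    (x0 : A) (hx0 : x0 ≠ 0) (hx00 : x0 * x0 = 0)
    (U : Ultrafilter (Ix A)) (hU : ∀ (F : Finset A) (n : ℕ),
    ∀ᶠ i in (U : Filter (Ix A)), F ⊆ i.1 ∧ n ≤ i.2) (α : G → (A ≃⋆ₐ[ℂ] A)) (hW : WT α)
    (ρ : A) (hρ : Ps ρ) (hρ0 : ρ ≠ 0) :
    ∃ (f : G → NU A U) (d s w : NU A U), RF (io A U) (bt U α) f ∧ IsSelfAdjoint d ∧
      (∀ a, Commute d (io A U a)) ∧ (∀ g h, g ≠ h → bt U α g d * bt U α h d = 0) ∧
      s * star s = 1 - ∑ g, f g ∧ d * star s = star s ∧ star s = io A U ρ * w := by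
  obtain ⟨F, hF1, hF2, hF3, hF4⟩ := rok1 hfin hfull x0 hx0 hx00 U hU α hW
  haveI : Nontrivial A := ⟨⟨x0, 0, hx0⟩⟩
  have h1A : ‖(1 : A)‖ = 1 := CStarRing.norm_one
  have hFsa : ∀ g, IsSelfAdjoint (F g) := fun g => sa_coord _ fun i => (hF1 g i).1.sa
  obtain ⟨L, hL⟩ : ∃ L : SQ (Ix A) A, L = cfc kk (F 1) := ⟨_, rfl⟩
  have hLsa : IsSelfAdjoint L := by rw [hL]; exact cfc_sa _ _
  have hLi : ∀ i, L i = cfc kk (F 1 i) := fun i => by
    rw [hL]; exact cfc_coord _ (hFsa 1) _ kk_cont i
  have hLq : qm U L = cfc kk (qm U (F 1)) := by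
    rw [hL, qm_cfc U _ (hFsa 1) _ kk_cont]
  obtain ⟨b, hb⟩ : ∃ b : SQ (Ix A) A, b = L * kst (Ix A) ρ * L := ⟨_, rfl⟩
  have hbi : ∀ i, b i = L i * ρ * L i := fun i => by rw [hb]; rfl
  have hbP : ∀ i, Ps (b i) := by
    intro i
    obtain ⟨z, hz⟩ := hρ
    refine ⟨z * L i, ?_⟩
    have hs : star (L i) = L i := by
      rw [hLi]; exact (cfc_sa _ _).star_eq
    rw [hbi, star_mul, hs, hz]
    noncomm_ring
  have hbsa : IsSelfAdjoint b := sa_coord _ fun i => (hbP i).sa
  have hlρ : Commute (qm U L) (io A U ρ) := by rw [hLq]; exact hF3.ccomm kk 1 ρ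
  have hbq : qm U b = qm U L * io A U ρ * qm U L := by
    rw [hb, map_mul, map_mul]; rfl
  have hb0 : qm U b ≠ 0 := by
    intro h
    have h1 : qm U L * io A U ρ ≠ 0 := by rw [hLq]; exact hF4 ρ hρ0
    apply h1
    rw [← CStarRing.star_mul_self_eq_zero_iff]
    have e1 : star (qm U L) = qm U L := by rw [← map_star, hLsa.star_eq]
    have e2 : star (io A U ρ) = io A U ρ := by rw [← map_star, hρ.sa.star_eq]
    rw [star_mul, e1, e2]
    calc io A U ρ * qm U L * (qm U L * io A U ρ) = (io A U ρ * qm U L) * (qm U L * io A U ρ) := rfl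
      _ = (qm U L * io A U ρ) * (io A U ρ * qm U L) := by rw [← hlρ.eq]
      _ = (qm U L * io A U ρ) * (qm U L * io A U ρ) := by rw [← hlρ.eq]
      _ = (qm U L * io A U ρ * qm U L) * io A U ρ := by noncomm_ring
      _ = 0 := by rw [← hbq, h, zero_mul]
  obtain ⟨c0, hc0, hc0b⟩ := qm_ne U b hb0
  -- the small elements
  obtain ⟨mf, hmf⟩ : ∃ mf : ℝ → ℝ, mf = fun t => Real.sqrt (max 0 (t - c0 / 2)) := ⟨_, rfl⟩
  have hmc : Continuous mf := by rw [hmf]; fun_prop
  obtain ⟨hh, hhh⟩ : ∃ hh : ℝ → ℝ, hh = fun t => 1 / max t (c0 / 2) := ⟨_, rfl⟩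
  have hmax : ∀ t : ℝ, 0 < max t (c0 / 2) := fun t => lt_max_of_lt_right (half_pos hc0)
  have hhc : Continuous hh := by
    rw [hhh]
    exact Continuous.div (by fun_prop) (by fun_prop) fun t => (hmax t).ne'
  obtain ⟨m, hm⟩ : ∃ m : SQ (Ix A) A, m = cfc mf b := ⟨_, rfl⟩
  have hmi : ∀ i, m i = cfc mf (b i) := fun i => by rw [hm]; exact cfc_coord _ hbsa _ hmc i
  have hmis : ∀ i, IsSelfAdjoint (m i) := fun i => by rw [hmi]; exact cfc_sa _ _
  have hgood : ∀ i, c0 < ‖b i‖ → m i * m i ≠ 0 := by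
    intro i hi h
    have h1 : m i * m i = cfc (fun t => max 0 (t - c0 / 2)) (b i) := by
      rw [hmi, cm _ _ _ hmc hmc]
      apply cfc_congr
      intro t _
      rw [hmf]
      exact Real.mul_self_sqrt (le_max_left _ _)
    have h2 : ‖b i - m i * m i‖ ≤ c0 / 2 := by
      have e1 : b i - cfc (fun t => max 0 (t - c0 / 2)) (b i) =
          cfc (fun t => t - max 0 (t - c0 / 2)) (b i) := by
        rw [cfc_sub (fun t : ℝ => t) (fun t => max 0 (t - c0 / 2)) (b i) (by fun_prop)
          (by fun_prop), cfc_id' ℝ (b i) (hbP i).sa]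
      rw [h1, e1]
      apply norm_cfc_le (half_pos hc0).le
      intro t ht
      have h3 := (hbP i).spec t ht
      rw [Real.norm_eq_abs, abs_le]
      rcases le_total (t - c0 / 2) 0 with h4 | h4
      · rw [max_eq_left h4]; constructor <;> linarith
      · rw [max_eq_right h4]; constructor <;> linarith
    rw [h, sub_zero] at h2
    linarith
  classical
  obtain ⟨y, hy⟩ : ∃ y : Ix A → A, ∀ i, y i = if c0 < ‖b i‖ then m i * m i else 1 :=
    ⟨_, fun i => rfl⟩
  have hyP : ∀ i, Ps (y i) ∧ y i ≠ 0 := by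
    intro i
    rw [hy]
    split_ifs with h
    · exact ⟨⟨m i, by rw [(hmis i).star_eq]⟩, hgood i h⟩
    · exact ⟨Ps.one, one_ne_zero⟩
  obtain ⟨F2, v, hE1, hE2, hE3, hv1, hv2⟩ := rok0 U hU α hW y hyP
  have hC : (1 : ℝ) ≤ 2 + Fintype.card G := by
    have : (0 : ℝ) ≤ Fintype.card G := by positivity
    linarith
  have hsb : ∀ i, ‖(if c0 < ‖b i‖ then v i * m i else 0 : A)‖ ≤ 2 + Fintype.card G := by
    intro i
    split_ifs with h
    · have h1 : ‖v i * m i‖ * ‖v i * m i‖ ≤ 2 + Fintype.card G := by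
        rw [← CStarRing.norm_self_mul_star]
        refine le_trans (le_of_eq ?_) (hv1 i)
        congr 1
        rw [star_mul, (hmis i).star_eq, hy, if_pos h]
        noncomm_ring
      nlinarith [norm_nonneg (v i * m i)]
    · rw [norm_zero]; linarith
  obtain ⟨S, hS⟩ : ∃ S : SQ (Ix A) A, ∀ i, S i = if c0 < ‖b i‖ then v i * m i else 0 :=
    ⟨bf _ _ hsb, fun i => rfl⟩
  obtain ⟨W0, hW0⟩ : ∃ W0 : SQ (Ix A) A, W0 = cfc hh b * star S := ⟨_, rfl⟩
  have hW0i : ∀ i, W0 i = cfc hh (b i) * star (S i) := by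
    intro i
    rw [hW0]
    show (cfc hh b) i * star (S i) = _
    rw [cfc_coord _ hbsa _ hhc i]
  have hSb : star S = b * W0 := by
    apply SQ.ext
    intro i
    show star (S i) = b i * W0 i
    rw [hW0i, hS]
    split_ifs with h
    · rw [star_mul, (hmis i).star_eq, ← mul_assoc, ← mul_assoc]
      congr 1
      conv_rhs => rw [← cfc_id' ℝ (b i) (hbP i).sa]
      rw [cfc_id' ℝ (b i) (hbP i).sa, hmi]
      have e : b i = cfc (fun t : ℝ => t) (b i) := (cfc_id' ℝ (b i) (hbP i).sa).symm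
      calc cfc mf (b i) = cfc (fun t => t * hh t * mf t) (b i) := by
            apply cfc_congr
            intro t ht
            show mf t = t * hh t * mf t
            rw [hmf, hhh]
            rcases le_total (t - c0 / 2) 0 with h4 | h4
            · simp only [max_eq_left h4, Real.sqrt_zero, mul_zero]
            · have h5 : max t (c0 / 2) = t := max_eq_left (by linarith)
              have h6 : t ≠ 0 := by linarith
              simp only [h5]
              field_simp
        _ = cfc (fun t : ℝ => t) (b i) * cfc hh (b i) * cfc mf (b i) := by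
            rw [cm _ _ _ continuous_id' hhc, cm _ _ _ (by fun_prop) hmc]
        _ = _ := by rw [← e]
    · rw [star_zero, mul_zero, mul_zero]
  have hSq : star (qm U S) = qm U L * io A U ρ * qm U L * qm U W0 := by
    rw [← map_star, hSb, map_mul, hbq]
  refine ⟨fun g => qm U (F2 g), cfc dd (qm U (F 1)), qm U S, qm U L * qm U L * qm U W0, hE3,
    cfc_sa _ _, fun a => hF3.ccomm dd 1 a, fun g h hgh => ?_, ?_, ?_, ?_⟩
  · have e1 := hF3.cperm dd dd_cont g 1
    have e2 := hF3.cperm dd dd_cont h 1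
    simp only [mul_one] at e1 e2
    rw [e1, e2]
    exact hF3.oo dd dd dd_cont dd_cont dd_zero dd_zero g h hgh
  · have e : (1 : NU A U) - ∑ g, qm U (F2 g) = qm U (1 - ∑ g, F2 g) := by
      rw [map_sub, map_one, map_sum]
    rw [e, ← map_star, ← map_mul, qm_eq]
    refine hv2.congr' ?_
    filter_upwards [hc0b] with i hi
    have e1 : (1 - ∑ g, F2 g : SQ (Ix A) A) i = 1 - ∑ g, F2 g i := by
      have : (1 - ∑ g, F2 g : SQ (Ix A) A) i = ev i (1 - ∑ g, F2 g) := rfl
      rw [this, map_sub, map_one, map_sum]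
      rfl
    rw [e1]
    have e2 : (S * star S) i = v i * y i * star (v i) := by
      show S i * star (S i) = _
      rw [hS, if_pos hi, hy, if_pos hi, star_mul, (hmis i).star_eq]
      noncomm_ring
    rw [e2]
  · rw [hSq, ← mul_assoc, ← mul_assoc, ← mul_assoc]
    have : cfc dd (qm U (F 1)) * qm U L = qm U L := by
      rw [hLq, cm _ _ _ dd_cont kk_cont]
      exact cfc_congr fun t _ => dd_kk t
    rw [this]
  · rw [hSq, hlρ.eq]
    noncomm_ring

/-- the fixed point algebra is prime -/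
theorem prime_fix (hfin : ∀ a b : A, a * b = 1 → b * a = 1)
    (hfull : ∀ c : A, Ps c → c ≠ 0 → ∃ (n : ℕ) (y : Fin n → A), ∑ i, star (y i) * c * y i = 1)
    (x0 : A) (hx0 : x0 ≠ 0) (hx00 : x0 * x0 = 0)
    (α : G → (A ≃⋆ₐ[ℂ] A)) (hα1 : ∀ a : A, α 1 a = a)
    (hαm : ∀ (g h : G) (a : A), α (g * h) a = α g (α h a)) (hW : WT α)
    (z1 z2 : A) (hz1 : ∀ g, α g z1 = z1) (hz2 : ∀ g, α g z2 = z2) (h1 : z1 ≠ 0) (h2 : z2 ≠ 0) :
    ∃ b : A, (∀ g, α g b = b) ∧ z2 * b * z1 ≠ 0 := by
  obtain ⟨U, hU⟩ := ex_U A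
  obtain ⟨F, hF1, hF2, hF3, hF4⟩ := rok1 hfin hfull x0 hx0 hx00 U hU α hW
  -- `z2 a z1 ≠ 0`
  obtain ⟨a, ha⟩ : ∃ a : A, z2 * a * z1 ≠ 0 := by
    by_contra hcon
    push Not at hcon
    obtain ⟨n, y, hy⟩ := hfull (z1 * star z1) ⟨star z1, by rw [star_star]⟩ fun h =>
      h1 (CStarRing.mul_star_self_eq_zero_iff z1 |>.1 h)
    apply h2
    calc z2 = z2 * ∑ i, star (y i) * (z1 * star z1) * y i := by rw [hy, mul_one]
      _ = ∑ i, (z2 * star (y i) * z1) * (star z1 * y i) := by
          rw [Finset.mul_sum]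
          apply Finset.sum_congr rfl
          intro i _
          simp only [mul_assoc]
      _ = 0 := Finset.sum_eq_zero fun i _ => by rw [hcon, zero_mul]
  have hFsa : ∀ g, IsSelfAdjoint (F g) := fun g => sa_coord _ fun i => (hF1 g i).1.sa
  obtain ⟨L, hL⟩ : ∃ L : SQ (Ix A) A, L = cfc kk (F 1) := ⟨_, rfl⟩
  have hLq : qm U L = cfc kk (qm U (F 1)) := by
    rw [hL, qm_cfc U _ (hFsa 1) _ kk_cont]
  obtain ⟨C, hC⟩ : ∃ C : SQ (Ix A) A, C = ∑ g, cmap ((α g : A ≃⋆ₐ[ℂ] A) : A →⋆ₐ[ℂ] A)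
    (L * kst (Ix A) a) := ⟨_, rfl⟩
  have hCq : qm U C = ∑ g, bt U α g (qm U L * io A U a) := by
    rw [hC, map_sum]
    apply Finset.sum_congr rfl
    intro g _
    rw [← bt_qm, map_mul]
    rfl
  have hinv : ∀ g, bt U α g (qm U C) = qm U C := by
    intro g
    rw [hCq, map_sum]
    simp only [← bt_mul U α hαm]
    exact Fintype.sum_equiv (Equiv.mulLeft g) _ _ fun h => rfl
  obtain ⟨y, hy, hyi⟩ := lift_inv U α hαm C hinv
  have hβL : ∀ g, bt U α g (qm U L) = cfc kk (qm U (F g)) := by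
    intro g
    have e1 := hF3.cperm kk kk_cont g 1
    simp only [mul_one] at e1
    rw [hLq, e1]
  have hne : io A U z2 * qm U C * io A U z1 ≠ 0 := by
    intro h
    have e1 : qm U L * (io A U z2 * qm U C * io A U z1) =
        qm U L * (qm U L * io A U (z2 * a * z1)) := by
      rw [hCq, Finset.mul_sum, Finset.sum_mul, Finset.mul_sum, Finset.sum_eq_single 1]
      · rw [bt_one U α hα1, map_mul, map_mul]
        have h3 : Commute (qm U L) (io A U z2) := by rw [hLq]; exact hF3.ccomm kk 1 _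
        calc qm U L * (io A U z2 * (qm U L * io A U a) * io A U z1) =
            qm U L * ((io A U z2 * qm U L) * io A U a * io A U z1) := by simp only [mul_assoc]
          _ = _ := by rw [← h3.eq]; simp only [mul_assoc]
      · intro g _ hg
        rw [map_mul, hβL]
        have h3 : Commute (qm U L) (io A U z2) := by rw [hLq]; exact hF3.ccomm kk 1 _
        have h4 : qm U L * cfc kk (qm U (F g)) = 0 := by
          rw [hLq]
          exact hF3.oo kk kk kk_cont kk_cont kk_zero kk_zero 1 g (Ne.symm hg)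
        calc qm U L * (io A U z2 * (cfc kk (qm U (F g)) * bt U α g (io A U a)) * io A U z1) =
            (qm U L * io A U z2) * cfc kk (qm U (F g)) * bt U α g (io A U a) * io A U z1 := by
              simp only [mul_assoc]
          _ = io A U z2 * (qm U L * cfc kk (qm U (F g))) * bt U α g (io A U a) * io A U z1 := by
              rw [h3.eq]; simp only [mul_assoc]
          _ = 0 := by rw [h4]; simp only [mul_zero, zero_mul]
      · intro h; exact absurd (Finset.mem_univ _) h
    rw [h, mul_zero] at e1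
    have h5 : qm U L * io A U (z2 * a * z1) ≠ 0 := by rw [hLq]; exact hF4 _ ha
    apply h5
    rw [← CStarRing.star_mul_self_eq_zero_iff, star_mul]
    have e2 : star (qm U L) = qm U L := by rw [hLq]; exact (cfc_sa _ _).star_eq
    rw [e2, mul_assoc, ← e1, mul_zero]
  by_contra hcon
  push Not at hcon
  apply hne
  have : kst (Ix A) z2 * y * kst (Ix A) z1 = 0 := by
    apply SQ.ext
    intro i
    show z2 * y i * z1 = 0
    exact hcon (y i) fun g => by rw [hyi]; exact av_inv α hαm g _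
  rw [← hy]
  show qm U (kst (Ix A) z2) * qm U y * qm U (kst (Ix A) z1) = 0
  rw [← map_mul, ← map_mul, this, map_zero]

/-- orthogonal positive elements in the fixed point algebra -/
theorem orth_fix (hfin : ∀ a b : A, a * b = 1 → b * a = 1)
    (hfull : ∀ c : A, Ps c → c ≠ 0 → ∃ (n : ℕ) (y : Fin n → A), ∑ i, star (y i) * c * y i = 1)
    (x0 : A) (hx0 : x0 ≠ 0) (hx00 : x0 * x0 = 0)
    (α : G → (A ≃⋆ₐ[ℂ] A)) (hα1 : ∀ a : A, α 1 a = a)
    (hαm : ∀ (g h : G) (a : A), α (g * h) a = α g (α h a)) (hW : WT α)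
    (κ : A) (hκ : ∀ g, α g κ = κ) (hκs : IsSelfAdjoint κ)
    (a2 a3 : A) (h2 : Ps a2) (h3 : Ps a3) (h20 : a2 ≠ 0) (h30 : a3 ≠ 0) (h23 : a2 * a3 = 0)
    (hκ2 : κ * a2 = a2) (hκ3 : κ * a3 = a3) :
    ∃ D : A, IsSelfAdjoint D ∧ (∀ g, α g D = D) ∧ (∃ y, D = κ * y * κ) ∧
      cfc (fun t : ℝ => max t 0) D ≠ 0 ∧ cfc (fun t : ℝ => max (-t) 0) D ≠ 0 := by
  obtain ⟨U, hU⟩ := ex_U A
  obtain ⟨F, hF1, hF2, hF3, hF4⟩ := rok1 hfin hfull x0 hx0 hx00 U hU α hW
  have hFsa : ∀ g, IsSelfAdjoint (F g) := fun g => sa_coord _ fun i => (hF1 g i).1.sa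
  obtain ⟨L, hL⟩ : ∃ L : SQ (Ix A) A, L = cfc kk (F 1) := ⟨_, rfl⟩
  have hLsa : IsSelfAdjoint L := by rw [hL]; exact cfc_sa _ _
  have hLq : qm U L = cfc kk (qm U (F 1)) := by
    rw [hL, qm_cfc U _ (hFsa 1) _ kk_cont]
  have hLqs : IsSelfAdjoint (qm U L) := hLsa.map _
  have hLc : ∀ a, Commute (qm U L) (io A U a) := fun a => by rw [hLq]; exact hF3.ccomm kk 1 a
  have hβL : ∀ g, bt U α g (qm U L) = cfc kk (qm U (F g)) := by
    intro g
    have e1 := hF3.cperm kk kk_cont g 1
    simp only [mul_one] at e1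
    rw [hLq, e1]
  have h32 : a3 * a2 = 0 := by
    have := congrArg star h23
    rwa [star_mul, h2.sa.star_eq, h3.sa.star_eq, star_zero] at this
  have h2κ : a2 * κ = a2 := by
    have := congrArg star hκ2
    rwa [star_mul, h2.sa.star_eq, hκs.star_eq] at this
  have h3κ : a3 * κ = a3 := by
    have := congrArg star hκ3
    rwa [star_mul, h3.sa.star_eq, hκs.star_eq] at this
  -- the element
  obtain ⟨C, hC⟩ : ∃ C : SQ (Ix A) A, C = ∑ g, cmap ((α g : A ≃⋆ₐ[ℂ] A) : A →⋆ₐ[ℂ] A)
    (kst (Ix A) κ * (L * kst (Ix A) (a2 - a3) * L) * kst (Ix A) κ) := ⟨_, rfl⟩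
  obtain ⟨l, hl⟩ : ∃ l, l = qm U L := ⟨_, rfl⟩
  rw [← hl] at hLqs hLc hβL
  obtain ⟨j, hj⟩ : ∃ j : A →⋆ₐ[ℂ] NU A U, j = io A U := ⟨_, rfl⟩
  have hDq : qm U C = ∑ g, bt U α g (l * j a2 * l) - ∑ g, bt U α g (l * j a3 * l) := by
    rw [hC, map_sum, ← Finset.sum_sub_distrib]
    apply Finset.sum_congr rfl
    intro g _
    rw [← bt_qm, ← map_sub]
    congr 1
    have e1 : qm U (kst (Ix A) κ * (L * kst (Ix A) (a2 - a3) * L) * kst (Ix A) κ) =
        j κ * (l * j (a2 - a3) * l) * j κ := by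
      rw [map_mul, map_mul, map_mul, map_mul, hl, hj]; rfl
    rw [e1]
    have c1 := hLc κ
    rw [← hj] at c1
    have q1 : j κ * l = l * j κ := c1.eq.symm
    calc j κ * (l * j (a2 - a3) * l) * j κ = (j κ * l) * j (a2 - a3) * (l * j κ) := by
          simp only [mul_assoc]
      _ = (l * j κ) * j (a2 - a3) * (j κ * l) := by rw [q1]
      _ = l * (j κ * j (a2 - a3) * j κ) * l := by simp only [mul_assoc]
      _ = l * j (a2 - a3) * l := by
          rw [← map_mul, ← map_mul, mul_sub, hκ2, hκ3, sub_mul, h2κ, h3κ]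
      _ = _ := by rw [map_sub]; noncomm_ring
  -- positive and negative part
  obtain ⟨P, hP⟩ : ∃ P, P = ∑ g, bt U α g (l * j a2 * l) := ⟨_, rfl⟩
  obtain ⟨Q, hQ⟩ : ∃ Q, Q = ∑ g, bt U α g (l * j a3 * l) := ⟨_, rfl⟩
  rw [← hP, ← hQ] at hDq
  have hPs : ∀ a, Ps a → Ps (∑ g, bt U α g (l * j a * l)) := by
    intro a ha
    let _ := CStarAlgebra.spectralOrder (NU A U)
    let _ := CStarAlgebra.spectralOrderedRing (NU A U)
    have h0 : 0 ≤ ∑ g, bt U α g (l * j a * l) := by
      apply Finset.sum_nonneg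
      intro g _
      obtain ⟨z, hz⟩ := ha
      have : bt U α g (l * j a * l) = star (bt U α g (j z * l)) * bt U α g (j z * l) := by
        rw [← map_star, ← map_mul, star_mul, hLqs.star_eq, hz, ← map_star j, map_mul j]
        congr 1
        noncomm_ring
      rw [this]
      exact star_mul_self_nonneg _
    exact ps_of (IsSelfAdjoint.of_nonneg h0) fun t ht => spectrum_nonneg_of_nonneg h0 ht
  have hPP : Ps P := by rw [hP]; exact hPs a2 h2
  have hQP : Ps Q := by rw [hQ]; exact hPs a3 h3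
  have hPQ : P * Q = 0 := by
    rw [hP, hQ, Finset.sum_mul]
    apply Finset.sum_eq_zero
    intro g _
    rw [Finset.mul_sum]
    apply Finset.sum_eq_zero
    intro h _
    by_cases e : g = h
    · subst e
      rw [← map_mul]
      have : l * j a2 * l * (l * j a3 * l) = 0 := by
        have c1 := hLc a2
        have c2 := hLc a3
        rw [← hj] at c1 c2
        calc l * j a2 * l * (l * j a3 * l) = (l * j a2) * l * (l * j a3) * l := by noncomm_ring
          _ = l * (j a2 * l) * (j a3 * l) * l := by rw [c2.eq]; noncomm_ring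
          _ = l * l * (j a2 * j a3) * l * l := by rw [← c1.eq]; noncomm_ring
          _ = 0 := by rw [← map_mul, h23, map_zero]; noncomm_ring
      rw [this, map_zero]
    · rw [map_mul (bt U α g), map_mul (bt U α h) _ l, map_mul (bt U α h) l, hβL g, hβL h]
      have : cfc kk (qm U (F g)) * cfc kk (qm U (F h)) = 0 :=
        hF3.oo kk kk kk_cont kk_cont kk_zero kk_zero g h e
      calc _ = bt U α g (l * j a2) * (cfc kk (qm U (F g)) * cfc kk (qm U (F h))) *
            bt U α h (j a3) * cfc kk (qm U (F h)) := by noncomm_ring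
        _ = 0 := by rw [this]; noncomm_ring
  have hQP0 : Q * P = 0 := by
    have := congrArg star hPQ
    rwa [star_mul, hPP.sa.star_eq, hQP.sa.star_eq, star_zero] at this
  have hP0 : ∀ a : A, a ≠ 0 → Ps a → ∑ g, bt U α g (l * j a * l) ≠ 0 := by
    intro a ha haP h
    have e1 : l * (∑ g, bt U α g (l * j a * l)) = l * (l * j a * l) := by
      rw [Finset.mul_sum, Finset.sum_eq_single 1]
      · rw [bt_one U α hα1]
      · intro g _ hg
        rw [map_mul, map_mul, hβL]
        have h4 : l * cfc kk (qm U (F g)) = 0 := by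
          rw [hl, hLq]
          exact hF3.oo kk kk kk_cont kk_cont kk_zero kk_zero 1 g (Ne.symm hg)
        rw [← mul_assoc, ← mul_assoc, h4, zero_mul, zero_mul]
      · intro h; exact absurd (Finset.mem_univ _) h
    rw [h, mul_zero] at e1
    have c1 := hLc a
    rw [← hj] at c1
    have h5 : l * j a ≠ 0 := by rw [hl, hLq, hj]; exact hF4 _ ha
    -- `(l²) (j a) l = 0`
    have h6 : (l * j a) * l = 0 := by
      rw [← CStarRing.star_mul_self_eq_zero_iff, star_mul, star_mul, hLqs.star_eq, ← map_star,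
        haP.sa.star_eq]
      calc l * (j a * l) * (l * j a * l) = l * j a * (l * (l * j a * l)) := by noncomm_ring
        _ = 0 := by rw [← e1, mul_zero]
    apply h5
    rw [← CStarRing.mul_star_self_eq_zero_iff, star_mul, hLqs.star_eq, ← map_star,
      haP.sa.star_eq]
    calc l * j a * (j a * l) = l * (j a * j a * l) := by noncomm_ring
      _ = l * (j a * (l * j a)) := by rw [mul_assoc (j a), c1.eq]
      _ = (l * j a * l) * j a := by noncomm_ring
      _ = 0 := by rw [h6, zero_mul]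
  have hinv : ∀ g, bt U α g (qm U C) = qm U C := by
    intro g
    rw [hDq, map_sub, hP, hQ, map_sum, map_sum]
    simp only [← bt_mul U α hαm]
    congr 1
    · exact Fintype.sum_equiv (Equiv.mulLeft g) _ _ fun h => rfl
    · exact Fintype.sum_equiv (Equiv.mulLeft g) _ _ fun h => rfl
  obtain ⟨y, hy, hyi⟩ := lift_inv U α hαm C hinv
  have hCi : ∀ i, C i = ∑ g, α g (κ * (L i * (a2 - a3) * L i) * κ) := by
    intro i
    have : C i = ev i C := rfl
    rw [this, hC, map_sum]
    rfl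
  have hysa : ∀ i, IsSelfAdjoint (y i) := by
    intro i
    rw [hyi, isSelfAdjoint_iff, ← av_star]
    congr 1
    rw [hCi, star_sum]
    apply Finset.sum_congr rfl
    intro g _
    rw [← map_star]
    congr 1
    have hLi : star (L i) = L i := by
      have := congrArg (fun z : SQ (Ix A) A => z i) hLsa.star_eq
      exact this
    rw [star_mul, star_mul, star_mul, star_mul, hκs.star_eq, hLi, star_sub, h2.sa.star_eq,
      h3.sa.star_eq]
    noncomm_ring
  have hysa' : IsSelfAdjoint y := sa_coord _ hysa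
  have hpos : cfc (fun t : ℝ => max t 0) (qm U y) = P := by
    rw [hy, hDq]
    -- multiply out
    have e1 : (P - Q) * P = P * P := by rw [sub_mul, hQP0, sub_zero]
    have e2 : (P - Q) * Q = Q * (-Q) := by rw [sub_mul, hPQ]; noncomm_ring
    have hsa : IsSelfAdjoint (P - Q) := hPP.sa.sub hQP.sa
    obtain ⟨R, hR⟩ : ∃ R, R = cfc (fun t : ℝ => max t 0) (P - Q) := ⟨_, rfl⟩
    have f1 : R * P = P * P := by
      rw [hR, itw P (P - Q) P hPP.sa hsa e1 _ (by fun_prop)]
      congr 1
      conv_rhs => rw [← cfc_id' ℝ P hPP.sa]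
      apply cfc_congr
      intro t ht
      exact max_eq_left (hPP.spec t ht)
    have f2 : R * Q = 0 := by
      rw [hR, itw (-Q) (P - Q) Q (hQP.sa.neg) hsa e2 _ (by fun_prop)]
      have : cfc (fun t : ℝ => max t 0) (-Q) = 0 := by
        have h7 : cfc (fun t : ℝ => max t 0) (-Q) = cfc (fun _ : ℝ => (0 : ℝ)) (-Q) := by
          apply cfc_congr
          intro t ht
          have h8 : -t ∈ spectrum ℝ Q := by
            rw [← spectrum.neg_eq, Set.mem_neg] at ht
            exact ht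
          exact max_eq_right (by linarith [hQP.spec _ h8])
        rw [h7, cfc_const_zero]
      rw [this, mul_zero]
    have hRsa : IsSelfAdjoint R := by rw [hR]; exact cfc_sa _ _
    have f3 : R * (P - Q) = R * R := by
      rw [hR]
      conv_lhs => rw [← cfc_id' ℝ (P - Q) hsa]
      rw [cfc_id' ℝ (P - Q) hsa]
      have h7 : P - Q = cfc (fun t : ℝ => t) (P - Q) := (cfc_id' ℝ (P - Q) hsa).symm
      calc cfc (fun t : ℝ => max t 0) (P - Q) * (P - Q) =
          cfc (fun t : ℝ => max t 0) (P - Q) * cfc (fun t : ℝ => t) (P - Q) := by rw [← h7]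
        _ = _ := by
          rw [cm _ _ _ (by fun_prop) continuous_id', cm _ _ _ (by fun_prop) (by fun_prop)]
          apply cfc_congr
          intro t _
          show max t 0 * t = max t 0 * max t 0
          rcases le_total t 0 with h8 | h8
          · rw [max_eq_right h8]; ring
          · rw [max_eq_left h8]
    have f4 : R * R = P * P := by rw [← f3, mul_sub, f1, f2, sub_zero]
    have f5 : P * R = P * P := by
      have := congrArg star f1
      rwa [star_mul, star_mul, hPP.sa.star_eq, hRsa.star_eq] at this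
    have f6 : (R - P) * (R - P) = 0 := by
      calc (R - P) * (R - P) = R * R - R * P - P * R + P * P := by noncomm_ring
        _ = 0 := by rw [f4, f1, f5]; abel
    have f7 : R - P = 0 := by
      rw [← CStarRing.star_mul_self_eq_zero_iff, (hRsa.sub hPP.sa).star_eq]
      exact f6
    rw [← hR]
    exact sub_eq_zero.1 f7
  have hneg : cfc (fun t : ℝ => max (-t) 0) (qm U y) = Q := by
    have hsa : IsSelfAdjoint (qm U y) := hysa'.map _
    have e1 : cfc (fun t : ℝ => max (-t) 0) (qm U y) =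
        cfc (fun t : ℝ => max t 0) (qm U y) - qm U y := by
      conv_rhs => enter [2]; rw [← cfc_id' ℝ (qm U y) hsa]
      rw [← cfc_sub (fun t : ℝ => max t 0) (fun t : ℝ => t) _ (by fun_prop) (by fun_prop)]
      apply cfc_congr
      intro t _
      show max (-t) 0 = max t 0 - t
      rcases le_total t 0 with h8 | h8
      · rw [max_eq_right h8, max_eq_left (by linarith)]; ring
      · rw [max_eq_left h8, max_eq_right (by linarith)]; ring
    rw [e1, hpos, hy, hDq]
    abel
  have n1 : qm U (cfc (fun t : ℝ => max t 0) y) ≠ 0 := by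
    rw [← qm_cfc U y hysa' _ (by fun_prop), hpos, hP]
    exact hP0 a2 h20 h2
  have n2 : qm U (cfc (fun t : ℝ => max (-t) 0) y) ≠ 0 := by
    rw [← qm_cfc U y hysa' _ (by fun_prop), hneg, hQ]
    exact hP0 a3 h30 h3
  obtain ⟨c1, hc1, hc1'⟩ := qm_ne U _ n1
  obtain ⟨c2, hc2, hc2'⟩ := qm_ne U _ n2
  obtain ⟨i, hi1, hi2⟩ := (hc1'.and hc2').exists
  rw [cfc_coord y hysa' _ (by fun_prop)] at hi1 hi2
  refine ⟨y i, hysa i, fun g => by rw [hyi]; exact av_inv α hαm g _, ?_, ?_, ?_⟩
  · refine ⟨av α (∑ g, α g (L i * (a2 - a3) * L i)), ?_⟩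
    rw [hyi, hCi]
    have e1 : ∀ g, α g (κ * (L i * (a2 - a3) * L i) * κ) =
        κ * α g (L i * (a2 - a3) * L i) * κ := by
      intro g
      rw [map_mul, map_mul, hκ]
    simp only [e1]
    unfold av
    rw [mul_smul_comm, smul_mul_assoc]
    congr 1
    rw [Finset.mul_sum, Finset.sum_mul]
    apply Finset.sum_congr rfl
    intro h _
    rw [← Finset.sum_mul, ← Finset.mul_sum, map_mul, map_mul, hκ]
  · intro h
    rw [h, norm_zero] at hi1
    linarith
  · intro h
    rw [h, norm_zero] at hi2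
    linarith

end

end Pool.Agent.H898SR
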