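import Pool.Agent.H898SR.Patch
import Pool.Agent.Helper757.GL.Quot

/-! Ultrapowers of C*-algebras with a finite group action. -/

set_option autoImplicit false
set_option linter.unusedSectionVars false

noncomputable section

namespace Pool.Agent.H898SR

open Filter Topology Pool.Agent.H923R2.FZ BoundedContinuousFunction

/-- the C*-algebra of bounded families -/
@[reducible] def cstarSeq {I : Type} [TopologicalSpace I] {A : Type} [CStarAlgebra A] :
    CStarAlgebra (I →ᵇ A) where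

/-- bounded families, as a fresh type -/
def SQ (I A : Type) [TopologicalSpace I] [CStarAlgebra A] : Type := I →ᵇ A

instance (I A : Type) [TopologicalSpace I] [CStarAlgebra A] : CStarAlgebra (SQ I A) :=
  (cstarSeq : CStarAlgebra (I →ᵇ A))

instance (I A : Type) [TopologicalSpace I] [CStarAlgebra A] : FunLike (SQ I A) I A :=
  (inferInstance : FunLike (I →ᵇ A) I A)

section

variable {I A : Type} [TopologicalSpace I] [DiscreteTopology I] [CStarAlgebra A]

theorem SQ.ext {x y : SQ I A} (h : ∀ i, x i = y i) : x = y :=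
  BoundedContinuousFunction.ext (f := (x : I →ᵇ A)) (g := (y : I →ᵇ A)) h

theorem norm_coe_le_norm (x : SQ I A) (i : I) : ‖x i‖ ≤ ‖x‖ :=
  BoundedContinuousFunction.norm_coe_le_norm (x : I →ᵇ A) i

/-- evaluation -/
def ev (i : I) : SQ I A →⋆ₐ[ℂ] A where
  toFun := fun y => y i
  map_one' := rfl
  map_mul' := fun _ _ => rfl
  map_zero' := rfl
  map_add' := fun _ _ => rfl
  commutes' := fun _ => rfl
  map_star' := fun _ => rfl

/-- bounded families -/
def bf (x : I → A) (C : ℝ) (h : ∀ i, ‖x i‖ ≤ C) : SQ I A :=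
  (BoundedContinuousFunction.ofNormedAddCommGroupDiscrete x C h : I →ᵇ A)

/-- constant families -/
def kst (I : Type) [TopologicalSpace I] [DiscreteTopology I] (a : A) : SQ I A :=
  (BoundedContinuousFunction.const I a : I →ᵇ A)

theorem bf_apply (x : I → A) (C : ℝ) (h : ∀ i, ‖x i‖ ≤ C) (i : I) : bf x C h i = x i := rfl

/-- the ideal of the sequences which vanish along the ultrafilter -/
def cU (U : Ultrafilter I) : Submodule ℂ (SQ I A) where
  carrier := {x | Tendsto (fun i => ‖x i‖) U (𝓝 0)}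
  zero_mem' := by
    have h0 : (fun i => ‖(0 : SQ I A) i‖) = fun _ : I => (0 : ℝ) := by
      funext i; exact norm_zero
    show Tendsto (fun i => ‖(0 : SQ I A) i‖) U (𝓝 0)
    rw [h0]
    exact tendsto_const_nhds
  add_mem' := by
    intro a b ha hb
    have h1 : Tendsto (fun i => ‖a i‖ + ‖b i‖) U (𝓝 0) := by
      have := Tendsto.add ha hb
      rwa [add_zero] at this
    refine squeeze_zero (fun i => norm_nonneg _) (fun i => ?_) h1
    exact norm_add_le _ _
  smul_mem' := by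
    intro c a ha
    have h1 : Tendsto (fun i => ‖c‖ * ‖a i‖) U (𝓝 0) := by
      have := Tendsto.const_mul ‖c‖ ha
      rwa [mul_zero] at this
    refine squeeze_zero (fun i => norm_nonneg _) (fun i => ?_) h1
    show ‖c • a i‖ ≤ _
    rw [norm_smul]

theorem mem_cU (U : Ultrafilter I) (x : SQ I A) :
    x ∈ cU U ↔ Tendsto (fun i => ‖x i‖) U (𝓝 0) := Iff.rfl

theorem CI_cU (U : Ultrafilter I) : Helper757.GL.CI (cU (A := A) U) where
  closed := by
    rw [← isSeqClosed_iff_isClosed]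
    intro x a hx hxa
    show Tendsto (fun i => ‖a i‖) U (𝓝 0)
    rw [Metric.tendsto_nhds]
    intro ε hε
    have h1 := Metric.tendsto_atTop.1 hxa (ε / 2) (half_pos hε)
    obtain ⟨n, hn⟩ := h1
    have h2 := hn n le_rfl
    have h3 : ∀ᶠ i in (U : Filter I), ‖x n i‖ < ε / 2 := by
      have := Metric.tendsto_nhds.1 (hx n) (ε / 2) (half_pos hε)
      filter_upwards [this] with i hi
      simpa using hi
    filter_upwards [h3] with i hi
    rw [dist_zero_right, norm_norm]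
    have h4 : ‖a i - x n i‖ < ε / 2 := by
      have : ‖(a - x n) i‖ ≤ ‖a - x n‖ := norm_coe_le_norm _ _
      rw [dist_eq_norm, norm_sub_rev] at h2
      exact this.trans_lt h2
    calc ‖a i‖ = ‖(a i - x n i) + x n i‖ := by rw [sub_add_cancel]
      _ ≤ ‖a i - x n i‖ + ‖x n i‖ := norm_add_le _ _
      _ < ε := by linarith
  hl := by
    intro a x hx
    have h1 : Tendsto (fun i => ‖a‖ * ‖x i‖) U (𝓝 0) := by
      have := Tendsto.const_mul ‖a‖ ((mem_cU U x).1 hx)
      rwa [mul_zero] at this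
    refine squeeze_zero (fun i => norm_nonneg _) (fun i => ?_) h1
    exact (norm_mul_le _ _).trans (mul_le_mul_of_nonneg_right (norm_coe_le_norm a i)
      (norm_nonneg _))
  hr := by
    intro a x hx
    have h1 : Tendsto (fun i => ‖x i‖ * ‖a‖) U (𝓝 0) := by
      have := Tendsto.mul_const ‖a‖ ((mem_cU U x).1 hx)
      rwa [zero_mul] at this
    refine squeeze_zero (fun i => norm_nonneg _) (fun i => ?_) h1
    exact (norm_mul_le _ _).trans (mul_le_mul_of_nonneg_left (norm_coe_le_norm a i)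
      (norm_nonneg _))

/-- the ultrapower -/
abbrev NU (A : Type) [CStarAlgebra A] (U : Ultrafilter I) : Type := Helper757.GL.Q (CI_cU (A := A) U)

/-- the quotient map -/
def qm (U : Ultrafilter I) : (SQ I A) →⋆ₐ[ℂ] NU A U :=
  { Helper757.GL.mkHom (CI_cU (A := A) U) with
    map_star' := fun x => Helper757.GL.mk_star (CI_cU (A := A) U) x }

theorem qm_surj (U : Ultrafilter I) : Function.Surjective (qm (A := A) U) :=
  Helper757.GL.mkHom_surj _

theorem qm_eq (U : Ultrafilter I) (x y : SQ I A) :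
    qm U x = qm U y ↔ Tendsto (fun i => ‖x i - y i‖) U (𝓝 0) :=
  (Helper757.GL.mk_eq (CI_cU (A := A) U) x y).trans Iff.rfl

theorem qm_zero (U : Ultrafilter I) (x : SQ I A) :
    qm U x = 0 ↔ Tendsto (fun i => ‖x i‖) U (𝓝 0) := by
  have := qm_eq U x 0
  rw [map_zero] at this
  rw [this]
  have h0 : (fun i => ‖x i - (0 : SQ I A) i‖) = fun i => ‖x i‖ := by
    funext i
    show ‖x i - 0‖ = _
    rw [sub_zero]
  rw [h0]

theorem qm_lt (U : Ultrafilter I) (x : SQ I A) (c : ℝ) (h : ‖qm U x‖ < c) :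
    ∀ᶠ i in (U : Filter I), ‖x i‖ < c := by
  obtain ⟨m, hm1, hm2⟩ := Helper757.GL.exists_rep (CI_cU (A := A) U) (qm U x)
    (ε := (c - ‖qm U x‖) / 2) (by linarith)
  have h1 := (qm_eq U x m).1 hm1.symm
  have h2 := Metric.tendsto_nhds.1 h1 ((c - ‖qm U x‖) / 2) (by linarith)
  filter_upwards [h2] with i hi
  rw [dist_zero_right, norm_norm] at hi
  calc ‖x i‖ = ‖(x i - m i) + m i‖ := by rw [sub_add_cancel]
    _ ≤ ‖x i - m i‖ + ‖m i‖ := norm_add_le _ _
    _ < (c - ‖qm U x‖) / 2 + (‖qm U x‖ + (c - ‖qm U x‖) / 2) :=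
        add_lt_add hi ((norm_coe_le_norm m i).trans_lt hm2)
    _ = c := by ring

/-- nonzero elements have large coordinates -/
theorem qm_ne (U : Ultrafilter I) (x : SQ I A) (h : qm U x ≠ 0) :
    ∃ c : ℝ, 0 < c ∧ ∀ᶠ i in (U : Filter I), c < ‖x i‖ := by
  by_contra hcon
  push Not at hcon
  apply h
  rw [qm_zero, Metric.tendsto_nhds]
  intro ε hε
  have h1 := hcon (ε / 2) (half_pos hε)
  filter_upwards [h1] with i hi
  rw [dist_zero_right, norm_norm]
  linarith

/-- coordinatewise functional calculus -/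
theorem cfc_coord (x : SQ I A) (hx : IsSelfAdjoint x) (k : ℝ → ℝ) (hk : Continuous k) (i : I) :
    (cfc k x) i = cfc k (x i) := by
  exact mcfc (ev i) k x hx hk

theorem qm_cfc (U : Ultrafilter I) (x : SQ I A) (hx : IsSelfAdjoint x) (k : ℝ → ℝ)
    (hk : Continuous k) : cfc k (qm U x) = qm U (cfc k x) := (mcfc (qm U) k x hx hk).symm

theorem sa_coord (x : SQ I A) (hx : ∀ i, IsSelfAdjoint (x i)) : IsSelfAdjoint x := by
  rw [isSelfAdjoint_iff]
  apply SQ.ext; intro i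
  exact (hx i).star_eq

/-- constants -/
def cst (A : Type) [CStarAlgebra A] (I : Type) [TopologicalSpace I] [DiscreteTopology I] :
    A →⋆ₐ[ℂ] (SQ I A) where
  toFun a := kst I a
  map_one' := rfl
  map_mul' _ _ := rfl
  map_zero' := rfl
  map_add' _ _ := rfl
  commutes' _ := rfl
  map_star' _ := rfl

/-- the diagonal embedding -/
def io (A : Type) [CStarAlgebra A] (U : Ultrafilter I) : A →⋆ₐ[ℂ] NU A U :=
  (qm U).comp (cst A I)

theorem io_apply (U : Ultrafilter I) (a : A) :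
    io A U a = qm U (kst I a) := rfl

theorem io_inj (U : Ultrafilter I) (a : A) (h : io A U a = 0) : a = 0 := by
  rw [io_apply, qm_zero] at h
  have h1 : Tendsto (fun _ : I => ‖a‖) U (𝓝 ‖a‖) := tendsto_const_nhds
  have h2 := tendsto_nhds_unique h1 h
  exact norm_eq_zero.1 h2

/-- coordinatewise application of a homomorphism -/
def cmap (φ : A →⋆ₐ[ℂ] A) (x : SQ I A) : SQ I A :=
  bf (fun i => φ (x i)) ‖x‖ fun i =>
    (NonUnitalStarAlgHom.norm_apply_le φ _).trans (norm_coe_le_norm x i)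

theorem cmap_apply (φ : A →⋆ₐ[ℂ] A) (x : SQ I A) (i : I) : cmap φ x i = φ (x i) := rfl

/-- the induced homomorphism on the ultrapower, as a function -/
def bfun (U : Ultrafilter I) (φ : A →⋆ₐ[ℂ] A) (y : NU A U) : NU A U :=
  qm U (cmap φ (Function.surjInv (qm_surj U) y))

theorem bfun_qm (U : Ultrafilter I) (φ : A →⋆ₐ[ℂ] A) (x : SQ I A) :
    bfun U φ (qm U x) = qm U (cmap φ x) := by
  unfold bfun
  rw [qm_eq]
  have h1 := Function.surjInv_eq (qm_surj (A := A) U) (qm U x)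
  rw [qm_eq] at h1
  refine squeeze_zero (fun i => norm_nonneg _) (fun i => ?_) h1
  rw [cmap_apply, cmap_apply, ← map_sub]
  exact NonUnitalStarAlgHom.norm_apply_le φ _

/-- the induced homomorphism on the ultrapower -/
def bta (U : Ultrafilter I) (φ : A →⋆ₐ[ℂ] A) : NU A U →⋆ₐ[ℂ] NU A U where
  toFun := bfun U φ
  map_one' := by
    rw [← map_one (qm (A := A) U), bfun_qm]
    congr 1
    apply SQ.ext; intro i
    exact map_one φ
  map_mul' := by
    intro a b
    obtain ⟨x, rfl⟩ := qm_surj U a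
    obtain ⟨y, rfl⟩ := qm_surj U b
    rw [← map_mul, bfun_qm, bfun_qm, bfun_qm, ← map_mul]
    congr 1
    apply SQ.ext; intro i
    exact map_mul φ _ _
  map_zero' := by
    rw [← map_zero (qm (A := A) U), bfun_qm]
    congr 1
    apply SQ.ext; intro i
    exact map_zero φ
  map_add' := by
    intro a b
    obtain ⟨x, rfl⟩ := qm_surj U a
    obtain ⟨y, rfl⟩ := qm_surj U b
    rw [← map_add, bfun_qm, bfun_qm, bfun_qm, ← map_add]
    congr 1
    apply SQ.ext; intro i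
    exact map_add φ _ _
  commutes' := by
    intro c
    have h1 : algebraMap ℂ (NU A U) c = qm U (algebraMap ℂ (SQ I A) c) :=
      (AlgHomClass.commutes (qm (A := A) U) c).symm
    rw [h1, bfun_qm]
    congr 1
    apply SQ.ext; intro i
    exact AlgHomClass.commutes φ c
  map_star' := by
    intro a
    obtain ⟨x, rfl⟩ := qm_surj U a
    rw [← map_star, bfun_qm, bfun_qm, ← map_star]
    congr 1
    apply SQ.ext; intro i
    exact map_star φ _

theorem bta_qm (U : Ultrafilter I) (φ : A →⋆ₐ[ℂ] A) (x : SQ I A) :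
    bta U φ (qm U x) = qm U (cmap φ x) := bfun_qm U φ x

/-- finiteness -/
theorem NU_fin (U : Ultrafilter I) (hA : ∀ a b : A, a * b = 1 → b * a = 1) (a b : NU A U)
    (h : a * b = 1) : b * a = 1 := by
  obtain ⟨x, rfl⟩ := qm_surj U a
  obtain ⟨y, rfl⟩ := qm_surj U b
  rw [← map_mul, ← map_one (qm U), qm_eq] at h
  rw [← map_mul, ← map_one (qm U), qm_eq]
  have hbd : ∀ᶠ i in (U : Filter I), ‖(y * x) i - (1 : SQ I A) i‖ ≤
      (2 * ‖y‖) * (‖(x * y) i - (1 : SQ I A) i‖ * ‖x‖) := by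
    have h1 := Metric.tendsto_nhds.1 h (1 / 2) (by norm_num)
    filter_upwards [h1] with i hi
    rw [dist_zero_right, norm_norm] at hi
    have hi' : ‖x i * y i - 1‖ < 1 / 2 := hi
    show ‖y i * x i - 1‖ ≤ (2 * ‖y‖) * (‖x i * y i - 1‖ * ‖x‖)
    have hu : IsUnit (x i * y i) := by
      have : ‖1 - x i * y i‖ < 1 := by rw [norm_sub_rev]; linarith
      have := (Units.oneSub _ this).isUnit
      rwa [Units.val_oneSub, sub_sub_cancel] at this
    obtain ⟨u, hu⟩ := hu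
    obtain ⟨v, hv⟩ : ∃ v : A, v = y i * (↑u⁻¹ : A) := ⟨_, rfl⟩
    have v1 : x i * v = 1 := by rw [hv, ← mul_assoc, ← hu, Units.mul_inv]
    have v2 : v * x i = 1 := hA _ _ v1
    have v3 : v * (x i * y i) = y i := by rw [← mul_assoc, v2, one_mul]
    have v4 : ‖v‖ ≤ 2 * ‖y‖ := by
      have e : v = y i - v * (x i * y i - 1) := by rw [mul_sub, v3, mul_one]; abel
      have h5 : ‖v‖ ≤ ‖y i‖ + ‖v‖ * (1 / 2) := by
        calc ‖v‖ = ‖y i - v * (x i * y i - 1)‖ := by rw [← e]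
          _ ≤ ‖y i‖ + ‖v * (x i * y i - 1)‖ := norm_sub_le _ _
          _ ≤ ‖y i‖ + ‖v‖ * ‖x i * y i - 1‖ := by gcongr; exact norm_mul_le _ _
          _ ≤ _ := by gcongr
      have := norm_coe_le_norm y i
      linarith
    have e : y i * x i - 1 = v * ((x i * y i - 1) * x i) := by
      calc y i * x i - 1 = v * (x i * y i) * x i - v * x i := by rw [v3, v2]
        _ = _ := by noncomm_ring
    rw [e]
    calc _ ≤ ‖v‖ * ‖(x i * y i - 1) * x i‖ := norm_mul_le _ _
      _ ≤ (2 * ‖y‖) * (‖x i * y i - 1‖ * ‖x‖) := by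
        apply mul_le_mul v4 _ (norm_nonneg _) (by positivity)
        exact (norm_mul_le _ _).trans (mul_le_mul_of_nonneg_left (norm_coe_le_norm x i)
          (norm_nonneg _))
  have h2 : Tendsto (fun i => (2 * ‖y‖) * (‖(x * y) i - (1 : SQ I A) i‖ * ‖x‖)) U (𝓝 0) := by
    have := (h.mul_const ‖x‖).const_mul (2 * ‖y‖)
    rwa [zero_mul, mul_zero] at this
  exact squeeze_zero' (Eventually.of_forall fun i => norm_nonneg _) hbd h2

variable {G : Type} [Group G] [Fintype G]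

/-- the action on the ultrapower -/
def bt (U : Ultrafilter I) (α : G → (A ≃⋆ₐ[ℂ] A)) (g : G) : NU A U →⋆ₐ[ℂ] NU A U :=
  bta U ((α g : A ≃⋆ₐ[ℂ] A) : A →⋆ₐ[ℂ] A)

theorem bt_qm (U : Ultrafilter I) (α : G → (A ≃⋆ₐ[ℂ] A)) (g : G) (x : SQ I A) :
    bt U α g (qm U x) = qm U (cmap ((α g : A ≃⋆ₐ[ℂ] A) : A →⋆ₐ[ℂ] A) x) := bta_qm _ _ _

theorem bt_io (U : Ultrafilter I) (α : G → (A ≃⋆ₐ[ℂ] A)) (g : G) (a : A) :
    bt U α g (io A U a) = io A U (α g a) := by
  rw [io_apply, bt_qm, io_apply]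
  rfl

theorem bt_mul (U : Ultrafilter I) (α : G → (A ≃⋆ₐ[ℂ] A))
    (hαm : ∀ (g h : G) (a : A), α (g * h) a = α g (α h a)) (g h : G) (y : NU A U) :
    bt U α (g * h) y = bt U α g (bt U α h y) := by
  obtain ⟨x, rfl⟩ := qm_surj U y
  rw [bt_qm, bt_qm, bt_qm]
  congr 1
  apply SQ.ext; intro i
  exact hαm g h _

theorem bt_one (U : Ultrafilter I) (α : G → (A ≃⋆ₐ[ℂ] A))
    (hα1 : ∀ a : A, α 1 a = a) (y : NU A U) : bt U α 1 y = y := by
  obtain ⟨x, rfl⟩ := qm_surj U y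
  rw [bt_qm]
  congr 1
  apply SQ.ext; intro i
  exact hα1 _

/-- average -/
def av (α : G → (A ≃⋆ₐ[ℂ] A)) (a : A) : A := ((Fintype.card G : ℂ)⁻¹) • ∑ g, α g a

theorem av_inv (α : G → (A ≃⋆ₐ[ℂ] A))
    (hαm : ∀ (g h : G) (a : A), α (g * h) a = α g (α h a)) (g : G) (a : A) :
    α g (av α a) = av α a := by
  unfold av
  rw [map_smul, map_sum]
  congr 1
  simp only [← hαm]
  exact Fintype.sum_equiv (Equiv.mulLeft g) _ _ fun h => rfl

theorem av_norm (α : G → (A ≃⋆ₐ[ℂ] A)) (a : A) : ‖av α a‖ ≤ ‖a‖ := by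
  unfold av
  rw [norm_smul, norm_inv, Complex.norm_natCast]
  have h0 : (0 : ℝ) < Fintype.card G := by
    exact_mod_cast Fintype.card_pos_iff.2 ⟨1⟩
  rw [inv_mul_le_iff₀ h0]
  calc ‖∑ g, α g a‖ ≤ ∑ g : G, ‖α g a‖ := norm_sum_le _ _
    _ ≤ ∑ _g : G, ‖a‖ := Finset.sum_le_sum fun g _ => NonUnitalStarAlgHom.norm_apply_le (α g) a
    _ = _ := by rw [Finset.sum_const, Finset.card_univ, nsmul_eq_mul]

theorem av_id (α : G → (A ≃⋆ₐ[ℂ] A)) (a : A) (h : ∀ g, α g a = a) : av α a = a := by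
  unfold av
  simp only [h]
  rw [Finset.sum_const, Finset.card_univ, ← Nat.cast_smul_eq_nsmul ℂ, smul_smul, inv_mul_cancel₀,
    one_smul]
  exact_mod_cast (Fintype.card_pos_iff.2 ⟨(1 : G)⟩).ne'

theorem av_star (α : G → (A ≃⋆ₐ[ℂ] A)) (a : A) : av α (star a) = star (av α a) := by
  unfold av
  rw [star_smul, star_sum]
  simp only [map_star]
  congr 1
  simp

/-- invariant lifts -/
theorem lift_inv (U : Ultrafilter I) (α : G → (A ≃⋆ₐ[ℂ] A))
    (hαm : ∀ (g h : G) (a : A), α (g * h) a = α g (α h a)) (x : SQ I A)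
    (hY : ∀ g, bt U α g (qm U x) = qm U x) :
    ∃ y : SQ I A, qm U y = qm U x ∧ (∀ i, y i = av α (x i)) := by
  refine ⟨bf (fun i => av α (x i)) ‖x‖ fun i => (av_norm α _).trans (norm_coe_le_norm x i), ?_,
    fun i => rfl⟩
  have e : bf (fun i => av α (x i)) ‖x‖ (fun i => (av_norm α _).trans (norm_coe_le_norm x i)) =
      ((Fintype.card G : ℂ)⁻¹) • ∑ g, cmap ((α g : A ≃⋆ₐ[ℂ] A) : A →⋆ₐ[ℂ] A) x := by
    apply SQ.ext; intro i
    rw [bf_apply]
    unfold av
    have h1 : (((Fintype.card G : ℂ)⁻¹) • ∑ g, cmap ((α g : A ≃⋆ₐ[ℂ] A) : A →⋆ₐ[ℂ] A) x) i =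
      ev i (((Fintype.card G : ℂ)⁻¹) • ∑ g, cmap ((α g : A ≃⋆ₐ[ℂ] A) : A →⋆ₐ[ℂ] A) x) := rfl
    rw [h1, map_smul, map_sum]
    rfl
  rw [e, map_smul, map_sum]
  simp only [← bt_qm, hY]
  rw [Finset.sum_const, Finset.card_univ, ← Nat.cast_smul_eq_nsmul ℂ, smul_smul, inv_mul_cancel₀,
    one_smul]
  exact_mod_cast (Fintype.card_pos_iff.2 ⟨(1 : G)⟩).ne'

/-- invertible invariant elements of the ultrapower near `x` give invertible fixed points -/
theorem lift_unit (U : Ultrafilter I) (α : G → (A ≃⋆ₐ[ℂ] A))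
    (hαm : ∀ (g h : G) (a : A), α (g * h) a = α g (α h a)) (Y : NU A U) (hu : IsUnit Y)
    (hY : ∀ g, bt U α g Y = Y) (x : A) (ε : ℝ) (hε : ‖Y - io A U x‖ < ε) :
    ∃ b : A, IsUnit b ∧ (∀ g, α g b = b) ∧ ‖b - x‖ < ε := by
  obtain ⟨u, hu⟩ := hu
  obtain ⟨y0, hy0⟩ := qm_surj U Y
  obtain ⟨z, hz⟩ := qm_surj U (↑u⁻¹ : NU A U)
  obtain ⟨y, hy, hyi⟩ := lift_inv U α hαm y0 (by rw [hy0]; exact hY)
  rw [hy0] at hy
  have h1 : qm U (y * z - 1) = 0 := by
    rw [map_sub, map_mul, map_one, hy, hz, ← hu, Units.mul_inv, sub_self]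
  have h2 : qm U (z * y - 1) = 0 := by
    rw [map_sub, map_mul, map_one, hy, hz, ← hu, Units.inv_mul, sub_self]
  have h3 : ‖qm U (y - kst I x)‖ < ε := by
    rw [map_sub, hy, ← io_apply]; exact hε
  have e1 := qm_lt U _ 1 (by rw [h1, norm_zero]; exact one_pos)
  have e2 := qm_lt U _ 1 (by rw [h2, norm_zero]; exact one_pos)
  have e3 := qm_lt U _ ε h3
  obtain ⟨i, ⟨hi1, hi2⟩, hi3⟩ := ((e1.and e2).and e3).exists
  have f1 : ‖y i * z i - 1‖ < 1 := hi1
  have f2 : ‖z i * y i - 1‖ < 1 := hi2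
  have f3 : ‖y i - x‖ < ε := hi3
  have g1 : IsUnit (y i * z i) := by
    have := (Units.oneSub (1 - y i * z i) (by rw [norm_sub_rev]; exact f1)).isUnit
    rwa [Units.val_oneSub, sub_sub_cancel] at this
  have g2 : IsUnit (z i * y i) := by
    have := (Units.oneSub (1 - z i * y i) (by rw [norm_sub_rev]; exact f2)).isUnit
    rwa [Units.val_oneSub, sub_sub_cancel] at this
  refine ⟨y i, ?_, fun g => ?_, f3⟩
  · obtain ⟨s, hs⟩ := g1
    obtain ⟨t, ht⟩ := g2
    have r1 : y i * (z i * (↑s⁻¹ : A)) = 1 := by rw [← mul_assoc, ← hs, Units.mul_inv]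
    have r2 : ((↑t⁻¹ : A) * z i) * y i = 1 := by rw [mul_assoc, ← ht, Units.inv_mul]
    have r3 : (↑t⁻¹ : A) * z i = z i * (↑s⁻¹ : A) := by
      calc (↑t⁻¹ : A) * z i = ((↑t⁻¹ : A) * z i) * (y i * (z i * (↑s⁻¹ : A))) := by
            rw [r1, mul_one]
        _ = (((↑t⁻¹ : A) * z i) * y i) * (z i * (↑s⁻¹ : A)) := by noncomm_ring
        _ = _ := by rw [r2, one_mul]
    exact ⟨⟨y i, z i * (↑s⁻¹ : A), r1, by rw [← r3]; exact r2⟩, rfl⟩
  · rw [hyi, av_inv α hαm]

end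

end Pool.Agent.H898SR
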